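import Pool.Agent.Work.MP_38bec5_lc.T.Defs

set_option autoImplicit false

/-!
# As (size M): assembling an isomorphism from the quotient and the classes.

PROOF.  For every class `X` of `s` choose a representative `x = X.out`, and a representative
`x' = (φ X).out` of `φ X`; choose an isomorphism `ψ_X` from `G.induce {y | s.r x y}` to
`H.induce {y | s'.r x' y}` (hypothesis `h`).  Glue: `f : V → W`, `f y = ψ_⟦y⟧ y`.  It is a bijection (the
classes `{y | s.r X.out y}`, `X` a class, partition `V`, the same in `W`, and `φ` is a bijection of the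
classes), and `⟦f y⟧ = φ ⟦y⟧`.  Adjacency of `y, z`: same class: `ψ` is an isomorphism.  Different classes:
`G.Adj y z ↔ (quo G s).Adj ⟦y⟧ ⟦z⟧` (by `hG`: adjacency of two classes is the adjacency of any
representatives) `↔ (quo H s').Adj (φ ⟦y⟧) (φ ⟦z⟧) ↔ H.Adj (f y) (f z)` (by `hH`).
-/

namespace PCA38

private theorem quo_mk {V : Type} {G : SimpleGraph V} {s : Setoid V} (hG : Cong G s) {y z : V}
    (h : ¬ s.r y z) : (quo G s).Adj (Quotient.mk s y) (Quotient.mk s z) ↔ G.Adj y z := by
  constructor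
  · rintro ⟨-, x, x₂, hx, hx₂, ha⟩
    have h1 : s.r x y := Quotient.exact hx
    have h2 : s.r x₂ z := Quotient.exact hx₂
    refine (hG x x₂ y z h1 h2 fun h3 => h ?_).1 ha
    exact s.iseqv.trans (s.iseqv.symm h1) (s.iseqv.trans h3 h2)
  · intro h1
    exact ⟨fun h2 => h (Quotient.exact h2), y, z, rfl, rfl, h1⟩

theorem iso_of_quo {V W : Type} {G : SimpleGraph V} {H : SimpleGraph W} (s : Setoid V)
    (s' : Setoid W) (hG : Cong G s) (hH : Cong H s') (φ : quo G s ≃g quo H s')
    (h : ∀ x x', Quotient.mk s' x' = φ (Quotient.mk s x) →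
      Nonempty (G.induce {y | s.r x y} ≃g H.induce {y | s'.r x' y})) :
    Nonempty (G ≃g H) := by
  have h1 : ∀ X : Quotient s, Nonempty (G.induce {y | s.r X.out y} ≃g
      H.induce {y | s'.r (φ X).out y}) := by
    intro X
    apply h
    rw [Quotient.out_eq, Quotient.out_eq]
  obtain ⟨ψ⟩ : Nonempty (∀ X : Quotient s, G.induce {y | s.r X.out y} ≃g
      H.induce {y | s'.r (φ X).out y}) := ⟨fun X => Classical.choice (h1 X)⟩
  have hr : ∀ y, s.r (Quotient.mk s y).out y := fun y =>
    Quotient.exact (Quotient.out_eq (Quotient.mk s y))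
  let F : V → W := fun y => (ψ (Quotient.mk s y) ⟨y, hr y⟩).1
  have hF : ∀ (X : Quotient s) (y : V) (hy : s.r X.out y), F y = (ψ X ⟨y, hy⟩).1 := by
    intro X y hy
    have hX : Quotient.mk s y = X := by
      rw [← Quotient.out_eq X]
      exact (Quotient.sound hy).symm
    subst hX
    rfl
  have hc : ∀ y, Quotient.mk s' (F y) = φ (Quotient.mk s y) := by
    intro y
    have h2 : s'.r (φ (Quotient.mk s y)).out (F y) := (ψ (Quotient.mk s y) ⟨y, hr y⟩).2
    rw [← Quotient.out_eq (φ (Quotient.mk s y))]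
    exact (Quotient.sound h2).symm
  have hinj : Function.Injective F := by
    intro x y hxy
    have h2 : φ (Quotient.mk s x) = φ (Quotient.mk s y) := by
      rw [← hc, ← hc, hxy]
    have h3 := φ.injective h2
    have h4 : s.r (Quotient.mk s x).out y := by
      rw [h3]
      exact hr y
    rw [hF _ x (hr x), hF _ y h4] at hxy
    exact congrArg Subtype.val ((ψ _).injective (Subtype.ext hxy))
  have hsurj : Function.Surjective F := by
    intro y
    have hy : s'.r (φ (φ.symm (Quotient.mk s' y))).out y := by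
      rw [φ.apply_symm_apply]
      exact Quotient.exact (Quotient.out_eq _)
    refine ⟨((ψ (φ.symm (Quotient.mk s' y))).symm ⟨y, hy⟩).1, ?_⟩
    rw [hF _ _ ((ψ (φ.symm (Quotient.mk s' y))).symm ⟨y, hy⟩).2, Subtype.coe_eta]
    exact congrArg Subtype.val ((ψ (φ.symm (Quotient.mk s' y))).apply_symm_apply ⟨y, hy⟩)
  refine ⟨⟨Equiv.ofBijective F ⟨hinj, hsurj⟩, fun {y z} => ?_⟩⟩
  show H.Adj (F y) (F z) ↔ G.Adj y z
  by_cases h2 : s.r y z
  · have h3 : s.r (Quotient.mk s y).out z := s.iseqv.trans (hr y) h2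
    rw [hF _ y (hr y), hF _ z h3]
    exact (ψ (Quotient.mk s y)).map_rel_iff
  · have h3 : ¬ s'.r (F y) (F z) := by
      intro h4
      have h5 : Quotient.mk s' (F y) = Quotient.mk s' (F z) := Quotient.sound h4
      rw [hc, hc] at h5
      exact h2 (Quotient.exact (φ.injective h5))
    rw [← quo_mk hH h3, ← quo_mk hG h2, hc, hc]
    exact φ.map_rel_iff

end PCA38
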