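import Pool.Agent.Work.MP_38bec5_lc.T.Inv4

set_option autoImplicit false

/-!
# Cl (size S-M): the relation `SM` is invariant under the 4-pebble game.

PROOF.  For a graph define `cl k x y z` recursively (private definition, for an arbitrary graph):
`cl 0 x y z := z = x ∨ z = y`,
`cl (k+1) x y z := cl k x y z ∨ ((∃ w, cl k x y w ∧ Adj z w) ∧ (∃ w, cl k x y w ∧ ¬ Adj z w))`.
(1) `SM G x y ↔ ∃ z, ∀ k, ¬ cl k x y z`.  (←) `M = {z | ∃ k, cl k x y z}` is a module: if `z ∉ M` were adjacent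
to `w₁ ∈ M` and not to `w₂ ∈ M`, take `k` with `cl k x y w₁`, `cl k x y w₂` (`cl` is monotone in `k`), then
`cl (k+1) x y z`, a contradiction.  (→) Every module `M` containing `x, y` contains all `z` with
`cl k x y z` (induction on `k`: a vertex outside `M` is uniform on `M`); take `z ∉ M`.
(2) Invariance: `E x y z x' y' z' → (cl k x y z ↔ cl k x' y' z')`, by induction on `k`, for all triples: for
`k + 1` take `f` from `ext`: `E x y w x' y' (f w)` (so `cl k x y w ↔ cl k x' y' (f w)`) and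
`E x w z x' (f w) z'` (so `Adj z w ↔ Adj z' (f w)`); `f` is a bijection.
(3) `Inv2`: for `E x y z x' y' z'` take `f` from `ext`, `E x y w x' y' (f w)`, and use (1), (2).
-/

namespace PCA38

variable {V W : Type} {G : SimpleGraph V} {H : SimpleGraph W}
  {E : V → V → V → W → W → W → Prop}

private def cl {U : Type} (K : SimpleGraph U) : ℕ → U → U → U → Prop
  | 0, x, y, z => z = x ∨ z = y
  | (k + 1), x, y, z => cl K k x y z ∨ ((∃ w, cl K k x y w ∧ K.Adj z w) ∧
      (∃ w, cl K k x y w ∧ ¬ K.Adj z w))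

private theorem cl_succ {U : Type} (K : SimpleGraph U) (k : ℕ) (x y z : U) :
    cl K (k + 1) x y z ↔ cl K k x y z ∨ ((∃ w, cl K k x y w ∧ K.Adj z w) ∧
      (∃ w, cl K k x y w ∧ ¬ K.Adj z w)) := Iff.rfl

private theorem cl_mono {U : Type} (K : SimpleGraph U) (x y z : U) {k j : ℕ} (hkj : k ≤ j)
    (h : cl K k x y z) : cl K j x y z := by
  induction hkj with
  | refl => exact h
  | step _ ih => exact Or.inl ih

private theorem sm_iff {U : Type} (K : SimpleGraph U) (x y : U) :
    SM K x y ↔ ∃ z, ∀ k, ¬ cl K k x y z := by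
  constructor
  · rintro ⟨M, hM, hne, hx, hy⟩
    have hsub : ∀ k z, cl K k x y z → z ∈ M := by
      intro k
      induction k with
      | zero =>
        intro z hz
        rcases hz with hz | hz
        · rw [hz]; exact hx
        · rw [hz]; exact hy
      | succ k ih =>
        intro z hz
        rcases hz with hz | ⟨⟨w1, h1, a1⟩, w2, h2, a2⟩
        · exact ih z hz
        · by_contra hz
          exact a2 ((hM z hz w1 w2 (ih w1 h1) (ih w2 h2)).mp a1)
    obtain ⟨z, hz⟩ := (Set.ne_univ_iff_exists_notMem M).mp hne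
    exact ⟨z, fun k hk => hz (hsub k z hk)⟩
  · rintro ⟨z, hz⟩
    refine ⟨{w | ∃ k, cl K k x y w}, ?_, ?_, ⟨0, Or.inl rfl⟩, ⟨0, Or.inr rfl⟩⟩
    · intro u hu w1 w2 h1 h2
      obtain ⟨k1, h1⟩ := h1
      obtain ⟨k2, h2⟩ := h2
      have g1 := cl_mono K x y w1 (le_max_left k1 k2) h1
      have g2 := cl_mono K x y w2 (le_max_right k1 k2) h2
      by_contra hne
      apply hu
      refine ⟨max k1 k2 + 1, Or.inr ?_⟩
      by_cases ha : K.Adj u w1
      · have hb : ¬ K.Adj u w2 := fun hb => hne ⟨fun _ => hb, fun _ => ha⟩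
        exact ⟨⟨w1, g1, ha⟩, w2, g2, hb⟩
      · have hb : K.Adj u w2 := by
          by_contra hb
          exact hne ⟨fun h => absurd h ha, fun h => absurd h hb⟩
        exact ⟨⟨w2, g2, hb⟩, w1, g1, ha⟩
    · intro he
      have : z ∈ {w | ∃ k, cl K k x y w} := by rw [he]; trivial
      obtain ⟨k, hk⟩ := this
      exact hz k hk

private theorem cl_inv (hE : Bis4 G H E) (k : ℕ) : ∀ x y z x' y' z', E x y z x' y' z' →
    (cl G k x y z ↔ cl H k x' y' z') := by
  induction k with
  | zero =>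
    intro x y z x' y' z' h
    have h1 := b4_inv hE (b4_eq hE) h
    exact or_congr h1.2.2.2.1 h1.2.2.2.2.2
  | succ k ih =>
    intro x y z x' y' z' h
    obtain ⟨f, hf⟩ := hE.ext _ _ _ _ _ _ h
    have h1 : ∀ w, cl G k x y w ↔ cl H k x' y' (f w) := fun w => ih _ _ _ _ _ _ (hf w).1
    have h2 : ∀ w, G.Adj z w ↔ H.Adj z' (f w) := fun w =>
      (b4_inv hE (b4_adj hE) (hf w).2.1).2.2.2.2.2
    rw [cl_succ, cl_succ]
    refine or_congr (ih _ _ _ _ _ _ h) (and_congr ?_ ?_)
    · constructor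
      · rintro ⟨w, a, b⟩
        exact ⟨f w, (h1 w).mp a, (h2 w).mp b⟩
      · rintro ⟨w', a, b⟩
        have e : f (f.symm w') = w' := f.apply_symm_apply w'
        refine ⟨f.symm w', (h1 _).mpr ?_, (h2 _).mpr ?_⟩
        · rw [e]; exact a
        · rw [e]; exact b
    · constructor
      · rintro ⟨w, a, b⟩
        exact ⟨f w, (h1 w).mp a, fun hb => b ((h2 w).mpr hb)⟩
      · rintro ⟨w', a, b⟩
        have e : f (f.symm w') = w' := f.apply_symm_apply w'
        refine ⟨f.symm w', (h1 _).mpr ?_, fun hb => b ?_⟩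
        · rw [e]; exact a
        · have := (h2 _).mp hb
          rwa [e] at this

theorem sm_inv (hE : Bis4 G H E) : Inv2 E (SM G) (SM H) := by
  intro x y z x' y' z' h
  obtain ⟨f, hf⟩ := hE.ext _ _ _ _ _ _ h
  have h1 : ∀ w k, cl G k x y w ↔ cl H k x' y' (f w) := fun w k =>
    cl_inv hE k _ _ _ _ _ _ (hf w).1
  rw [sm_iff, sm_iff]
  constructor
  · rintro ⟨w, hw⟩
    exact ⟨f w, fun k hk => hw k ((h1 w k).mpr hk)⟩
  · rintro ⟨w', hw'⟩
    refine ⟨f.symm w', fun k hk => hw' k ?_⟩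
    have e : f (f.symm w') = w' := f.apply_symm_apply w'
    have := (h1 _ k).mp hk
    rwa [e] at this

end PCA38
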