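import Pool.Agent.Work.MP_38bec5_lc.T.Inv4

set_option autoImplicit false

/-!
# Cls (size M): restriction of a `Bis4` to classes of invariant equivalence relations; rows.

`bis4_class`.  Let `C = {y | s.r x y}`, `C' = {y | s'.r x' y}`, and let `E'` be `E` on the subtypes.
`ext`: let `u, v, w ∈ C`, `u', v', w' ∈ C'`, `E u v w u' v' w'`, `f` from `ext`; for every `t`,
`E u v t u' v' (f t)`, so (`b4_inv` for `hi`) `s.r u t ↔ s'.r u' (f t)`, i.e. `t ∈ C ↔ f t ∈ C'`; restrict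
`f` (`Equiv.subtypeEquiv`).  `start`: `f` from `ext` for `E x x x x' x' x'`: `E x x t x' x' (f t)`, so again
`t ∈ C ↔ f t ∈ C'`, and `b4_xx` (after a permutation) gives `E t t t (f t) (f t) (f t)`.

`rows_iso`.  Choose `a', b', c'` with `E a b b a' b' c'` (`b4_surj'`); `b4_eq` gives `c' = b'`.  Let `f` be from
`ext`: `E a b z a' b' (f z)` for all `z`.
(U) `E a b z a' b' w₁` and `E a b z a' b' w₂` imply `w₁ = w₂`: `b4_tri'` for `E a b z a' b' w₁` and `w₂` gives
`y` with `E a b y a' b' w₂` and `E y b z w₂ b' w₁`.  The relation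
`F t₁ t₂ := ∃ t', E t₁ t' ∧ E t₂ t'` on triples of `V` is a `Bis4 G G` (`b4_comp` with `b4_symm`), and
`F a b y a b z` holds, so `y = z` by `hrows`; then `E z b z w₂ b' w₁` gives `w₁ = w₂` (`b4_eq`, `b4_inv`:
first and third coordinates).
For `z, w`: `ext` for `E a b z a' b' (f z)` gives `g` with `E a b w a' b' (g w)` and `E w b z (g w) b' (f z)`;
`g w = f w` by (U); so `G.Adj w z ↔ H.Adj (f w) (f z)`.  Hence `f` is an isomorphism, and
`E z z z (f z) (f z) (f z)` by `b4_xx`.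
-/

namespace PCA38

variable {V W : Type} {G : SimpleGraph V} {H : SimpleGraph W}
  {E : V → V → V → W → W → W → Prop}

theorem bis4_class (hE : Bis4 G H E) (s : Setoid V) (s' : Setoid W) (hi : Inv2 E s.r s'.r)
    {x : V} {x' : W} (h : E x x x x' x' x') :
    ∃ E' : {y | s.r x y} → {y | s.r x y} → {y | s.r x y} → {y | s'.r x' y} →
        {y | s'.r x' y} → {y | s'.r x' y} → Prop,
      Bis4 (G.induce {y | s.r x y}) (H.induce {y | s'.r x' y}) E' := by
  refine ⟨fun u v w u' v' w' => E u v w u' v' w', ?_⟩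
  constructor
  · obtain ⟨f, hf⟩ := hE.ext _ _ _ _ _ _ h
    have key : ∀ t, s.r x t ↔ s'.r x' (f t) := fun t => (b4_inv hE hi (hf t).1).2.2.1
    refine ⟨f.subtypeEquiv key, fun t => ?_⟩
    exact b4_xx hE (b4_perm hE (hf t).1).2.2.2.2
  · intro u v w u' v' w' he
    have := hE.eq _ _ _ _ _ _ he
    rw [Subtype.ext_iff, Subtype.ext_iff]
    exact this
  · intro u v w u' v' w' he
    exact hE.adj _ _ _ _ _ _ he
  · intro u v w u' v' w' he
    exact hE.swap _ _ _ _ _ _ he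
  · intro u v w u' v' w' he
    obtain ⟨f, hf⟩ := hE.ext _ _ _ _ _ _ he
    have key : ∀ t, s.r x t ↔ s'.r x' (f t) := by
      intro t
      have h1 : s.r u t ↔ s'.r u' (f t) := (b4_inv hE hi (hf t).1).2.2.1
      have hu : s.r x u := u.2
      have hu' : s'.r x' u' := u'.2
      constructor
      · intro h2
        exact s'.iseqv.trans hu' (h1.1 (s.iseqv.trans (s.iseqv.symm hu) h2))
      · intro h2
        exact s.iseqv.trans hu (h1.2 (s'.iseqv.trans (s'.iseqv.symm hu') h2))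
    exact ⟨f.subtypeEquiv key, fun t => hf t⟩

theorem rows_iso (a b : V)
    (hrows : ∀ F : V → V → V → V → V → V → Prop, Bis4 G G F →
      ∀ z₁ z₂, F a b z₁ a b z₂ → z₁ = z₂)
    (hE : Bis4 G H E) : ∃ φ : G ≃g H, ∀ z, E z z z (φ z) (φ z) (φ z) := by
  obtain ⟨a', b', c', h0⟩ := b4_surj' hE a b b
  obtain ⟨f, hf⟩ := hE.ext _ _ _ _ _ _ h0
  have hF := b4_comp hE (b4_symm hE)
  have U : ∀ z w₁ w₂, E a b z a' b' w₁ → E a b z a' b' w₂ → w₁ = w₂ := by
    intro z w₁ w₂ h1 h2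
    obtain ⟨y, k1, -, k3⟩ := b4_tri' hE h1 w₂
    have hyz : y = z := hrows _ hF y z ⟨a', b', w₂, k1, h2⟩
    subst hyz
    exact ((b4_inv hE (b4_eq hE) k3).2.2.1.1 rfl).symm
  have key : ∀ z w, E w b z (f w) b' (f z) := by
    intro z w
    obtain ⟨g, hg⟩ := hE.ext _ _ _ _ _ _ (hf z).1
    have h1 := U w _ _ (hg w).1 (hf w).1
    have h2 := (hg w).2.2
    rw [h1] at h2
    exact h2
  refine ⟨⟨f, ?_⟩, fun z => ?_⟩
  · intro w z
    exact ((b4_inv hE (b4_adj hE) (key z w)).2.2.1).symm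
  · exact b4_xx hE (key z z)

end PCA38
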