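import Pool.Agent.Work.MP_38bec5_lc.T.Defs

set_option autoImplicit false

/-!
# Cnt (size S-M): counting over definable sets; simple closure properties.

`cnt_dis`: take `f` from `tl` for `r z₁ z₂`.  `f` maps `{w ∈ X | Dis w z₁}` bijectively onto
`{w ∈ X | Dis w z₂}`: `r w (f w)` gives `w ∈ X ↔ f w ∈ X`; for `w ∈ X`, `w ≠ z₁` (as `z₁ ∉ X`), so the
`Dis`-part of `tl` applies.  (`Set.ncard_image_of_injective`, or `Set.ncard_congr`.)
`cnt_sb`, `cnt_bs`: the same with the `Sb`-parts of `tl` (their hypotheses `¬ Eq2` hold for `w ∈ X` by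
`h1`, and for `f w ∈ X` by `h2`).
`gD_low`, `gD_high`: the sets are empty resp. everything (`lo`, `hi`, `lt`).
`df_compl`, `df_inter`, `df_union` are immediate from the definition.
`cell_mk`: if `gD j₀` and `a` is any position with... (see statement) there are consecutive definable gaps
around `u`: take `s` the largest `j < u` with `gD j` (exists: `gD 0`, bounded), `t` the least `j ≥ u` with
`gD j` (exists: `gD (2m)`); `1 ≤ u ≤ 2m`.
-/

namespace PCA38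

variable {V : Type} {m : ℤ} {p q : V → ℤ} {r : V → V → Prop}

theorem df_compl {X : Set V} (h : Df r X) : Df r Xᶜ :=
  fun z₁ z₂ hr => not_congr (h z₁ z₂ hr)

theorem df_inter {X Y : Set V} (h : Df r X) (h' : Df r Y) : Df r (X ∩ Y) :=
  fun z₁ z₂ hr => and_congr (h z₁ z₂ hr) (h' z₁ z₂ hr)

theorem df_union {X Y : Set V} (h : Df r X) (h' : Df r Y) : Df r (X ∪ Y) :=
  fun z₁ z₂ hr => or_congr (h z₁ z₂ hr) (h' z₁ z₂ hr)

private theorem cnt_aux {X : Set V} (hX : Df r X) {R₁ R₂ : V → Prop} (f : V ≃ V)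
    (hf : ∀ w, r w (f w)) (h : ∀ w, w ∈ X → f w ∈ X → (R₁ w ↔ R₂ (f w))) :
    {w | w ∈ X ∧ R₁ w}.ncard = {w | w ∈ X ∧ R₂ w}.ncard := by
  have key : ({w | w ∈ X ∧ R₂ w} : Set V) = f '' {w | w ∈ X ∧ R₁ w} := by
    ext v
    constructor
    · rintro ⟨hv1, hv2⟩
      have e : f (f.symm v) = v := f.apply_symm_apply v
      have h1 : f.symm v ∈ X := by
        have := hX _ _ (hf (f.symm v))
        rw [e] at this
        exact this.2 hv1
      refine ⟨f.symm v, ⟨h1, ?_⟩, e⟩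
      have := h (f.symm v) h1 (by rw [e]; exact hv1)
      rw [e] at this
      exact this.2 hv2
    · rintro ⟨w, ⟨hw1, hw2⟩, rfl⟩
      have h1 := (hX _ _ (hf w)).1 hw1
      exact ⟨h1, (h w hw1 h1).1 hw2⟩
  rw [key, Set.ncard_image_of_injective _ f.injective]

theorem cnt_dis (S : Sys m p q r) {X : Set V} (hX : Df r X) {z₁ z₂ : V} (h : r z₁ z₂)
    (h1 : z₁ ∉ X) : {w | w ∈ X ∧ Dis p q w z₁}.ncard = {w | w ∈ X ∧ Dis p q w z₂}.ncard := by
  obtain ⟨f, hf⟩ := S.tl z₁ z₂ h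
  refine cnt_aux hX f (fun w => (hf w).1) (fun w hw _ => (hf w).2.2.1 ?_)
  rintro rfl
  exact h1 hw

theorem cnt_sb (S : Sys m p q r) {X : Set V} (hX : Df r X) {z₁ z₂ : V} (h : r z₁ z₂)
    (h1 : ∀ w ∈ X, ¬ Eq2 p q w z₁) (h2 : ∀ w ∈ X, ¬ Eq2 p q w z₂) :
    {w | w ∈ X ∧ Sb p q w z₁}.ncard = {w | w ∈ X ∧ Sb p q w z₂}.ncard := by
  obtain ⟨f, hf⟩ := S.tl z₁ z₂ h
  exact cnt_aux hX f (fun w => (hf w).1)
    (fun w hw hw' => ((hf w).2.2.2 (h1 w hw) (h2 _ hw')).1)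

theorem cnt_bs (S : Sys m p q r) {X : Set V} (hX : Df r X) {z₁ z₂ : V} (h : r z₁ z₂)
    (h1 : ∀ w ∈ X, ¬ Eq2 p q w z₁) (h2 : ∀ w ∈ X, ¬ Eq2 p q w z₂) :
    {w | w ∈ X ∧ Sb p q z₁ w}.ncard = {w | w ∈ X ∧ Sb p q z₂ w}.ncard := by
  obtain ⟨f, hf⟩ := S.tl z₁ z₂ h
  exact cnt_aux hX f (fun w => (hf w).1)
    (fun w hw hw' => ((hf w).2.2.2 (h1 w hw) (h2 _ hw')).2)

theorem gD_low (S : Sys m p q r) {j : ℤ} (hj : j ≤ 1) : gD p q r j := by
  constructor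
  · intro z₁ z₂ _
    have a1 := S.lo z₁
    have a2 := S.lo z₂
    simp only [Set.mem_ofPred_eq]
    omega
  · intro z₁ z₂ _
    have a1 := S.lo z₁
    have a2 := S.lo z₂
    have a3 := S.lt z₁
    have a4 := S.lt z₂
    simp only [Set.mem_ofPred_eq]
    omega

theorem gD_high (S : Sys m p q r) {j : ℤ} (hj : 2 * m - 1 ≤ j) : gD p q r j := by
  constructor
  · intro z₁ z₂ _
    have a1 := S.hi z₁
    have a2 := S.hi z₂
    have a3 := S.lt z₁
    have a4 := S.lt z₂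
    simp only [Set.mem_ofPred_eq]
    omega
  · intro z₁ z₂ _
    have a1 := S.hi z₁
    have a2 := S.hi z₂
    simp only [Set.mem_ofPred_eq]
    omega

theorem cell_mk (S : Sys m p q r) (u : ℤ) :
    ∃ s t, s < u ∧ u ≤ t ∧ Cell p q r s t := by
  obtain ⟨s, ⟨hs1, hs2⟩, hs3⟩ := Int.exists_greatest_of_bdd (P := fun j => j < u ∧ gD p q r j)
    ⟨u, fun z hz => hz.1.le⟩ ⟨min 1 (u - 1), by omega, gD_low S (by omega)⟩
  obtain ⟨t, ⟨ht1, ht2⟩, ht3⟩ := Int.exists_least_of_bdd (P := fun j => u ≤ j ∧ gD p q r j)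
    ⟨u, fun z hz => hz.1⟩ ⟨max (2 * m - 1) u, by omega, gD_high S (by omega)⟩
  refine ⟨s, t, hs1, ht1, ⟨hs2, ht2, ?_⟩⟩
  intro j h1 h2 h3
  by_cases h4 : j < u
  · have := hs3 j ⟨h4, h3⟩
    omega
  · have := ht3 j ⟨by omega, h3⟩
    omega

end PCA38
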