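import Pool.Agent.Work.MP_38bec5_lc.T.Defs

set_option autoImplicit false

/-!
# FamA (size M-L): from arcs of the circle to cyclic intervals of finitely many points.

`fam_of_ca`.  Let `s, l` be as in `IsCA`.  Replace `s v` by `Int.fract (s v)` (the arc does not change).
Let `Z` be the finite set of all end points, as real numbers in `[0, 1)`: the `s v` and the
`Int.fract (s v + l v)`; let `z_0 < ... < z_{m-1}` be its elements in increasing order
(`Finset.orderEmbOfFin`), and `A v = {i | i < m, z_i (mod 1) ∈ arc (s v) (l v)}`.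
(1) `Cyc m (A v)`: if `l v ≥ 1`, `A v` is everything (`p = q = 0` in the second form).  If `s v + l v < 1`: a
`t ∈ [0, 1)` is in the arc iff `s v ≤ t ≤ s v + l v`; the set of `i` with `s v ≤ z_i ≤ s v + l v` is an
interval.  If `l v < 1 ≤ s v + l v`: `t` is in the arc iff `s v ≤ t` or `t ≤ s v + l v - 1`, i.e. iff not
`s v + l v - 1 < t < s v`: complement of an interval.
(2) `A v` is nonempty: it contains the index of `s v`.
(3) If two arcs meet then they have a common point `z_i`: let `s u + a ≡ s v + b` be a common point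
`t`.  Say `a ≤ b` (otherwise exchange `u, v`): moving back from `t` by `a` gives the starting point `s u`
of the first arc, and `s v + (b - a) ≡ s u`, with `0 ≤ b - a ≤ l v`, so it lies in the second arc.  The
converse is clear.

`fam_of_iv`.  Rotate so that the uncovered point is `0`: replace `s v` by `s v - t₀`, where `t₀` is a real
number representing `p` (an isomorphism of the circle; adjacency is unchanged), then take fractional
parts.  Now `0` is in no arc, so `l v < 1`, `0 < s v` and `s v + l v < 1` (otherwise the arc contains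
the point `1 ≡ 0`).  Let `Z` consist of `0` and of all end points; `z_0 = 0`.  All `A v` are intervals (case
`s v + l v < 1`) and do not contain the index `0`.
-/

namespace PCA38

variable {V : Type} {G : SimpleGraph V}

private theorem low (m : ℕ) (S : ℕ → Prop) (h : ∀ i j, i ≤ j → j < m → S j → S i) :
    ∃ q, q ≤ m ∧ ∀ i, i < m → (S i ↔ i < q) := by
  classical
  induction m with
  | zero => exact ⟨0, le_refl _, fun i hi => absurd hi (Nat.not_lt_zero i)⟩
  | succ m ih =>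
    obtain ⟨q, hq, hq'⟩ := ih (fun i j hij hj => h i j hij (Nat.lt_succ_of_lt hj))
    by_cases hm : S m
    · exact ⟨m + 1, le_refl _, fun i hi =>
        ⟨fun _ => hi, fun _ => h i m (Nat.le_of_lt_succ hi) (Nat.lt_succ_self m) hm⟩⟩
    · refine ⟨q, Nat.le_succ_of_le hq, fun i hi => ?_⟩
      rcases Nat.lt_or_ge i m with h1 | h1
      · exact hq' i h1
      · have h2 : i = m := le_antisymm (Nat.le_of_lt_succ hi) h1
        subst h2
        exact ⟨fun h3 => absurd h3 hm, fun h3 => absurd h3 (by omega)⟩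

private theorem coe_eq (x y : ℝ) : ((x : ℝ) : AddCircle (1 : ℝ)) = (y : AddCircle (1 : ℝ)) ↔
    ∃ k : ℤ, x = y + k := by
  rw [← sub_eq_zero, ← AddCircle.coe_sub, AddCircle.coe_eq_zero_iff]
  constructor
  · rintro ⟨k, hk⟩
    refine ⟨k, ?_⟩
    rw [zsmul_eq_mul, mul_one] at hk
    linarith
  · rintro ⟨k, hk⟩
    refine ⟨k, ?_⟩
    rw [zsmul_eq_mul, mul_one]
    linarith

private theorem mem_arc (s l t : ℝ) : ((t : ℝ) : AddCircle (1 : ℝ)) ∈ arc s l ↔
    ∃ k : ℤ, s ≤ t + k ∧ t + k ≤ s + l := by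
  unfold arc
  simp only [Set.mem_setOf_eq]
  constructor
  · rintro ⟨a, ha, hal, h⟩
    obtain ⟨k, hk⟩ := (coe_eq _ _).1 h
    exact ⟨k, by linarith, by linarith⟩
  · rintro ⟨k, h1, h2⟩
    refine ⟨t + k - s, by linarith, by linarith, ?_⟩
    rw [coe_eq]
    exact ⟨k, by ring⟩

private theorem mem_arc' {s l t : ℝ} (hs0 : 0 ≤ s) (hs1 : s < 1) (ht0 : 0 ≤ t) (ht1 : t < 1) :
    ((t : ℝ) : AddCircle (1 : ℝ)) ∈ arc s l ↔
      (s ≤ t ∧ t ≤ s + l) ∨ (t < s ∧ t + 1 ≤ s + l) ∨ (s ≤ t ∧ t + 1 ≤ s + l) := by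
  rw [mem_arc]
  constructor
  · rintro ⟨k, h1, h2⟩
    rcases lt_trichotomy k 0 with hk | hk | hk
    · have : (k : ℝ) ≤ -1 := by exact_mod_cast (by omega : k ≤ -1)
      linarith
    · subst hk
      simp only [Int.cast_zero, add_zero] at h1 h2
      exact Or.inl ⟨h1, h2⟩
    · have hk1 : (1 : ℝ) ≤ k := by exact_mod_cast (by omega : (1 : ℤ) ≤ k)
      rcases lt_or_ge t s with h3 | h3
      · exact Or.inr (Or.inl ⟨h3, by linarith⟩)
      · exact Or.inr (Or.inr ⟨h3, by linarith⟩)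
  · rintro (⟨h1, h2⟩ | ⟨h1, h2⟩ | ⟨h1, h2⟩)
    · exact ⟨0, by simpa using h1, by simpa using h2⟩
    · exact ⟨1, by push_cast; linarith, by push_cast; linarith⟩
    · exact ⟨1, by push_cast; linarith, by push_cast; linarith⟩

private theorem core (s l : V → ℝ) (hs0 : ∀ v, 0 ≤ s v) (hs1 : ∀ v, s v < 1)
    (hl : ∀ v, 0 ≤ l v)
    (hadj : ∀ u v, G.Adj u v ↔ u ≠ v ∧ (arc (s u) (l u) ∩ arc (s v) (l v)).Nonempty)
    (Z : Finset ℝ) (hZ : ∀ z ∈ Z, 0 ≤ z ∧ z < 1) (hsZ : ∀ v, s v ∈ Z) :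
    Fam G Z.card (fun v => {i | ∃ h : i < Z.card,
      ((Z.orderEmbOfFin rfl ⟨i, h⟩ : ℝ) : AddCircle (1 : ℝ)) ∈ arc (s v) (l v)}) := by
  classical
  have hsur : ∀ z ∈ Z, ∃ i : Fin Z.card, Z.orderEmbOfFin rfl i = z := by
    intro z hz
    have h1 := Finset.range_orderEmbOfFin Z (rfl : Z.card = Z.card)
    have h2 : z ∈ Set.range (Z.orderEmbOfFin (rfl : Z.card = Z.card)) := by
      rw [h1]
      exact hz
    exact h2
  have hself : ∀ v, ((s v : ℝ) : AddCircle (1 : ℝ)) ∈ arc (s v) (l v) := fun v => by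
    rw [mem_arc]
    exact ⟨0, by simp, by simpa using hl v⟩
  have hidx : ∀ u v, ((s u : ℝ) : AddCircle (1 : ℝ)) ∈ arc (s v) (l v) →
      ∃ i, (∃ h : i < Z.card, ((Z.orderEmbOfFin rfl ⟨i, h⟩ : ℝ) : AddCircle (1 : ℝ)) ∈
        arc (s u) (l u)) ∧ ∃ h : i < Z.card,
        ((Z.orderEmbOfFin rfl ⟨i, h⟩ : ℝ) : AddCircle (1 : ℝ)) ∈ arc (s v) (l v) := by
    intro u v huv
    obtain ⟨i, hi⟩ := hsur (s u) (hsZ u)
    refine ⟨i, ⟨i.isLt, ?_⟩, i.isLt, ?_⟩
    · rw [show (⟨(i : ℕ), i.isLt⟩ : Fin Z.card) = i from rfl, hi]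
      exact hself u
    · rw [show (⟨(i : ℕ), i.isLt⟩ : Fin Z.card) = i from rfl, hi]
      exact huv
  refine ⟨fun v => ?_, fun v => ?_, fun u v => ?_⟩
  · -- cyclic interval
    have hdown : ∀ (Q : ℝ → Prop), (∀ x y, x ≤ y → Q y → Q x) →
        ∃ q, q ≤ Z.card ∧ ∀ (i : ℕ) (h : i < Z.card), (Q (Z.orderEmbOfFin rfl ⟨i, h⟩) ↔ i < q) := by
      intro Q hQ
      obtain ⟨q, hq, hq'⟩ := low Z.card (fun i => ∀ h : i < Z.card, Q (Z.orderEmbOfFin rfl ⟨i, h⟩))
        (fun i j hij hj h hi => hQ _ _ ((Z.orderEmbOfFin rfl).monotone hij) (h hj))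
      exact ⟨q, hq, fun i h => ⟨fun h1 => (hq' i h).1 fun _ => h1, fun h1 => (hq' i h).2 h1 h⟩⟩
    rcases lt_or_ge (s v + l v) 1 with h1 | h1
    · left
      obtain ⟨p, hp, hp'⟩ := hdown (fun x => x < s v) (fun x y hxy hy => lt_of_le_of_lt hxy hy)
      obtain ⟨q, hq, hq'⟩ := hdown (fun x => x ≤ s v + l v) (fun x y hxy hy => hxy.trans hy)
      refine ⟨p, q, hq, ?_⟩
      ext i
      simp only [Set.mem_setOf_eq]
      constructor
      · rintro ⟨h, hi⟩
        have hz := hZ _ (Finset.orderEmbOfFin_mem Z rfl ⟨i, h⟩)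
        rw [mem_arc' (hs0 v) (hs1 v) hz.1 hz.2] at hi
        have h2 : s v ≤ Z.orderEmbOfFin rfl ⟨i, h⟩ ∧ Z.orderEmbOfFin rfl ⟨i, h⟩ ≤ s v + l v := by
          rcases hi with hi | hi | hi
          · exact hi
          · exact absurd hi.2 (by linarith [hz.1])
          · exact absurd hi.2 (by linarith [hz.1])
        refine ⟨?_, (hq' i h).1 h2.2⟩
        by_contra h3
        have := (hp' i h).2 (by omega)
        linarith [h2.1]
      · rintro ⟨h2, h3⟩
        have h : i < Z.card := lt_of_lt_of_le h3 hq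
        refine ⟨h, ?_⟩
        have hz := hZ _ (Finset.orderEmbOfFin_mem Z rfl ⟨i, h⟩)
        rw [mem_arc' (hs0 v) (hs1 v) hz.1 hz.2]
        refine Or.inl ⟨?_, (hq' i h).2 h3⟩
        by_contra h4
        have := (hp' i h).1 (by linarith [not_le.1 h4])
        omega
    · right
      obtain ⟨p, hp, hp'⟩ := hdown (fun x => x ≤ s v + l v - 1) (fun x y hxy hy => hxy.trans hy)
      obtain ⟨q, hq, hq'⟩ := hdown (fun x => x < s v) (fun x y hxy hy => lt_of_le_of_lt hxy hy)
      refine ⟨p, q, hq, ?_⟩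
      ext i
      simp only [Set.mem_setOf_eq]
      constructor
      · rintro ⟨h, hi⟩
        refine ⟨h, ?_⟩
        rintro ⟨h2, h3⟩
        have hz := hZ _ (Finset.orderEmbOfFin_mem Z rfl ⟨i, h⟩)
        rw [mem_arc' (hs0 v) (hs1 v) hz.1 hz.2] at hi
        have h4 := (hq' i h).2 h3
        have h5 : ¬ Z.orderEmbOfFin rfl ⟨i, h⟩ ≤ s v + l v - 1 := fun h6 =>
          absurd ((hp' i h).1 h6) (by omega)
        rcases hi with hi | hi | hi
        · linarith [hi.1]
        · exact h5 (by linarith [hi.2])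
        · exact h5 (by linarith [hi.2])
      · rintro ⟨h, h2⟩
        refine ⟨h, ?_⟩
        have hz := hZ _ (Finset.orderEmbOfFin_mem Z rfl ⟨i, h⟩)
        rw [mem_arc' (hs0 v) (hs1 v) hz.1 hz.2]
        rcases lt_or_ge (Z.orderEmbOfFin rfl ⟨i, h⟩) (s v) with h3 | h3
        · right
          left
          refine ⟨h3, ?_⟩
          have h4 := (hq' i h).1 h3
          have h5 : i < p := by
            by_contra h6
            exact h2 ⟨by omega, h4⟩
          have := (hp' i h).2 h5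
          linarith
        · exact Or.inl ⟨h3, by linarith [hz.2]⟩
  · obtain ⟨i, hi, -⟩ := hidx v v (hself v)
    exact ⟨i, hi⟩
  · rw [hadj]
    constructor
    · rintro ⟨huv, x, hxu, hxv⟩
      refine ⟨huv, ?_⟩
      obtain ⟨a, ha0, hau, hax⟩ := hxu
      obtain ⟨b, hb0, hbv, hbx⟩ := hxv
      obtain ⟨k, hk⟩ := (coe_eq _ _).1 (hax.trans hbx.symm)
      rcases le_total a b with hab | hab
      · have h1 : ((s u : ℝ) : AddCircle (1 : ℝ)) ∈ arc (s v) (l v) := by
          rw [mem_arc]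
          exact ⟨-k, by push_cast; linarith, by push_cast; linarith⟩
        obtain ⟨i, hi1, hi2⟩ := hidx u v h1
        exact ⟨i, hi1, hi2⟩
      · have h1 : ((s v : ℝ) : AddCircle (1 : ℝ)) ∈ arc (s u) (l u) := by
          rw [mem_arc]
          exact ⟨k, by linarith, by linarith⟩
        obtain ⟨i, hi1, hi2⟩ := hidx v u h1
        exact ⟨i, hi2, hi1⟩
    · rintro ⟨huv, i, ⟨h, hi⟩, ⟨h', hi'⟩⟩
      exact ⟨huv, _, hi, hi'⟩

private theorem arc_fract (s l : ℝ) : arc (Int.fract s) l = arc s l := by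
  ext x
  unfold arc
  simp only [Set.mem_setOf_eq]
  have h : ∀ a : ℝ, ((Int.fract s + a : ℝ) : AddCircle (1 : ℝ)) = ((s + a : ℝ) : AddCircle (1 : ℝ)) := by
    intro a
    rw [coe_eq]
    refine ⟨-⌊s⌋, ?_⟩
    unfold Int.fract
    push_cast
    ring
  simp_rw [h]

theorem fam_of_ca [Finite V] (h : IsCA G) : ∃ (m : ℕ) (A : V → Set ℕ), Fam G m A := by
  classical
  obtain ⟨s, l, hl, hadj⟩ := h
  haveI := Fintype.ofFinite V
  set Z : Finset ℝ := Finset.univ.image (fun v => Int.fract (s v)) with hZ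
  refine ⟨Z.card, _, core (fun v => Int.fract (s v)) l (fun v => Int.fract_nonneg _)
    (fun v => Int.fract_lt_one _) hl (fun u v => ?_) Z (fun z hz => ?_) (fun v => ?_)⟩
  · rw [arc_fract, arc_fract]
    exact hadj u v
  · rw [hZ, Finset.mem_image] at hz
    obtain ⟨v, -, rfl⟩ := hz
    exact ⟨Int.fract_nonneg _, Int.fract_lt_one _⟩
  · rw [hZ, Finset.mem_image]
    exact ⟨v, Finset.mem_univ _, rfl⟩

theorem fam_of_iv [Finite V] (h : IsIv G) : ∃ (m : ℕ) (A : V → Set ℕ), Fam G m A ∧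
    ∀ x, 0 ∉ A x ∧ ∃ p q : ℕ, q ≤ m ∧ A x = {i | p ≤ i ∧ i < q} := by
  classical
  obtain ⟨s, l, hl, ⟨p, hp⟩, hadj⟩ := h
  haveI := Fintype.ofFinite V
  obtain ⟨t₀, rfl⟩ : ∃ t₀ : ℝ, ((t₀ : ℝ) : AddCircle (1 : ℝ)) = p := QuotientAddGroup.mk_surjective p
  set s' : V → ℝ := fun v => Int.fract (s v - t₀) with hs'
  -- the shifted arcs
  have hshift : ∀ (v : V) (x : AddCircle (1 : ℝ)), x ∈ arc (s' v) (l v) ↔
      x + ((t₀ : ℝ) : AddCircle (1 : ℝ)) ∈ arc (s v) (l v) := by
    intro v x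
    rw [hs']
    simp only
    rw [arc_fract]
    unfold arc
    simp only [Set.mem_setOf_eq]
    have h1 : ∀ a : ℝ, ((s v - t₀ + a : ℝ) : AddCircle (1 : ℝ)) = x ↔
        ((s v + a : ℝ) : AddCircle (1 : ℝ)) = x + ((t₀ : ℝ) : AddCircle (1 : ℝ)) := by
      intro a
      rw [show s v - t₀ + a = (s v + a) - t₀ by ring, AddCircle.coe_sub, sub_eq_iff_eq_add]
    simp_rw [h1]
  have h0 : ∀ v, ((0 : ℝ) : AddCircle (1 : ℝ)) ∉ arc (s' v) (l v) := by
    intro v hv
    rw [hshift, ← AddCircle.coe_add, zero_add] at hv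
    exact hp v hv
  have hs0 : ∀ v, 0 ≤ s' v := fun v => Int.fract_nonneg _
  have hs1 : ∀ v, s' v < 1 := fun v => Int.fract_lt_one _
  have hpos : ∀ v, 0 < s' v ∧ s' v + l v < 1 := by
    intro v
    have h1 := h0 v
    rw [mem_arc' (hs0 v) (hs1 v) (le_refl 0) one_pos] at h1
    push Not at h1
    have h2 : 0 < s' v := by
      rcases (hs0 v).lt_or_eq with h3 | h3
      · exact h3
      · have := h1.1 h3.symm.le
        linarith [hl v]
    exact ⟨h2, by linarith [h1.2.1 h2]⟩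
  have hadj' : ∀ u v, G.Adj u v ↔ u ≠ v ∧ (arc (s' u) (l u) ∩ arc (s' v) (l v)).Nonempty := by
    intro u v
    rw [hadj]
    refine and_congr_right fun _ => ?_
    constructor
    · rintro ⟨x, h1, h2⟩
      refine ⟨x - ((t₀ : ℝ) : AddCircle (1 : ℝ)), ?_, ?_⟩
      · rw [hshift, sub_add_cancel]
        exact h1
      · rw [hshift, sub_add_cancel]
        exact h2
    · rintro ⟨x, h1, h2⟩
      exact ⟨x + ((t₀ : ℝ) : AddCircle (1 : ℝ)), (hshift u x).1 h1, (hshift v x).1 h2⟩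
  set Z : Finset ℝ := insert 0 (Finset.univ.image s') with hZ
  have hZ1 : ∀ z ∈ Z, 0 ≤ z ∧ z < 1 := by
    intro z hz
    rw [hZ, Finset.mem_insert, Finset.mem_image] at hz
    rcases hz with rfl | ⟨v, -, rfl⟩
    · exact ⟨le_refl _, one_pos⟩
    · exact ⟨hs0 v, hs1 v⟩
  have hsZ : ∀ v, s' v ∈ Z := fun v => by
    rw [hZ, Finset.mem_insert, Finset.mem_image]
    exact Or.inr ⟨v, Finset.mem_univ _, rfl⟩
  have hfam := core s' l hs0 hs1 hl hadj' Z hZ1 hsZ
  refine ⟨Z.card, _, hfam, fun x => ⟨?_, ?_⟩⟩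
  · rintro ⟨h, hi⟩
    have h0Z : (0 : ℝ) ∈ Z := by
      rw [hZ]
      exact Finset.mem_insert_self _ _
    have h1 : Z.orderEmbOfFin rfl ⟨0, h⟩ = 0 := by
      rw [Finset.orderEmbOfFin_zero rfl h]
      refine le_antisymm (Finset.min'_le _ _ h0Z) (Finset.le_min' _ _ _ fun y hy => (hZ1 y hy).1)
    rw [h1] at hi
    exact h0 x hi
  · rcases hfam.cyc x with h1 | ⟨p, q, hq, h1⟩
    · exact h1
    · -- the complement of an interval without the index 0 is an interval
      have h0A : (0 : ℕ) ∉ {i | ∃ h : i < Z.card,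
          ((Z.orderEmbOfFin rfl ⟨i, h⟩ : ℝ) : AddCircle (1 : ℝ)) ∈ arc (s' x) (l x)} := by
        rintro ⟨h, hi⟩
        have h0Z : (0 : ℝ) ∈ Z := by
          rw [hZ]
          exact Finset.mem_insert_self _ _
        have h1 : Z.orderEmbOfFin rfl ⟨0, h⟩ = 0 := by
          rw [Finset.orderEmbOfFin_zero rfl h]
          refine le_antisymm (Finset.min'_le _ _ h0Z)
            (Finset.le_min' _ _ _ fun y hy => (hZ1 y hy).1)
        rw [h1] at hi
        exact h0 x hi
      have hcard : 0 < Z.card := Finset.card_pos.2 ⟨0, by rw [hZ]; exact Finset.mem_insert_self _ _⟩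
      refine ⟨q, Z.card, le_refl _, ?_⟩
      rw [h1] at h0A ⊢
      simp only [Set.mem_setOf_eq] at h0A
      have h2 : p = 0 ∧ 0 < q := by
        by_contra h3
        exact h0A ⟨hcard, fun h4 => h3 ⟨by omega, h4.2⟩⟩
      ext i
      simp only [Set.mem_setOf_eq]
      constructor
      · rintro ⟨h3, h4⟩
        exact ⟨by by_contra h5; exact h4 ⟨by omega, by omega⟩, h3⟩
      · rintro ⟨h3, h4⟩
        exact ⟨h4, fun h5 => by omega⟩

end PCA38
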