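import Pool.Agent.Work.MP_38bec5_lc.T.Defs

set_option autoImplicit false

/-!
# FamB (size M): normalized families (inclusion of neighbourhoods implies inclusion of arcs).

(0) UNION LEMMA.  If `Cyc m A`, `Cyc m B`, `A ∩ B` is nonempty and some `i < m` is not in `A ∪ B`, then
`Cyc m (A ∪ B)`.  Both intervals `[p,q)`, `[p',q')` with a common point: union `[min p p', max q q')`.
`A` the complement of `[p,q)`, `B = [p',q')`: `A ∪ B` is the complement of `[p,q) \ [p',q')`; as `B` meets `A`,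
`B` is not contained in `[p,q)` (as a set), so the difference is `[p, min q p')` (if `q' ≥ q`) or
`[max p q', q)` (if `p' ≤ p`), or empty.  Both complements: the complement of the intersection of the
two intervals, an interval.  (For the interval version only the first case occurs.)

(1) `fam_norm`.  Among all families `A'` with `Fam G m A'` choose one with the largest number of pairs
`(u, v)` with `A' u ⊆ A' v` (at most `|V|^2` pairs).  Suppose `nb u ⊆ nb v` but not `A' u ⊆ A' v`.  Put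
`B x = A' x ∪ A' u` if `A' v ⊆ A' x`, and `B x = A' x` otherwise.
 - `Fam G m B`: let `A' v ⊆ A' x`.  Then `nb v ⊆ nb x` (arcs nonempty; inclusion of arcs gives inclusion of
   closed neighbourhoods), so `nb u ⊆ nb x`, `u ∈ nb x`, and `A' u ∩ A' x` is nonempty (also if `u = x`).
   `A' x ∪ A' u` is not everything: otherwise every vertex `z` has an arc meeting `A' x` or `A' u`, so
   `z ∈ nb x ∪ nb u = nb x`, contradicting `hu`.  So `Cyc` by (0).  The adjacencies do not change: a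
   vertex whose arc meets `A' x ∪ A' u` is in `nb x ∪ nb u = nb x`; for two changed arcs they meet before
   and after (both contain `A' v`) and the vertices are adjacent or equal.
 - inclusions are preserved: `A' x ⊆ A' y` implies `B x ⊆ B y` (if `x` is changed then `A' v ⊆ A' x ⊆ A' y`, so
   `y` is changed, too); and `B u ⊆ B v` is new (`B v ⊇ A' u`; if `u` is changed, `B u = A' u`).
 Contradiction to the maximality.
(2) `fam_norm_iv`: the same with intervals not containing `0` (closed under unions of meeting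
intervals); here `hu` is not needed.
-/

namespace PCA38

variable {V : Type} {G : SimpleGraph V}

private theorem cyc_union {m : ℕ} {A B : Set ℕ} (hA : Cyc m A) (hB : Cyc m B)
    (hAB : (A ∩ B).Nonempty) : Cyc m (A ∪ B) := by
  obtain ⟨k, hk1, hk2⟩ := hAB
  rcases hA with ⟨p, q, hq, rfl⟩ | ⟨p, q, hq, rfl⟩ <;>
    rcases hB with ⟨p', q', hq', rfl⟩ | ⟨p', q', hq', rfl⟩
  · left
    refine ⟨min p p', max q q', by omega, ?_⟩
    ext i
    simp only [Set.mem_union, Set.mem_ofPred_eq] at hk1 hk2 ⊢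
    omega
  · right
    simp only [Set.mem_ofPred_eq] at hk1 hk2
    by_cases h : q' ≤ k
    · refine ⟨p', min q' p, by omega, ?_⟩
      ext i
      simp only [Set.mem_union, Set.mem_ofPred_eq]
      omega
    · refine ⟨max p' q, q', by omega, ?_⟩
      ext i
      simp only [Set.mem_union, Set.mem_ofPred_eq]
      omega
  · right
    simp only [Set.mem_ofPred_eq] at hk1 hk2
    by_cases h : q ≤ k
    · refine ⟨p, min q p', by omega, ?_⟩
      ext i
      simp only [Set.mem_union, Set.mem_ofPred_eq]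
      omega
    · refine ⟨max p q', q, by omega, ?_⟩
      ext i
      simp only [Set.mem_union, Set.mem_ofPred_eq]
      omega
  · right
    refine ⟨max p p', min q q', by omega, ?_⟩
    ext i
    simp only [Set.mem_union, Set.mem_ofPred_eq]
    omega

private theorem norm_gen [Finite V] (Good : (V → Set ℕ) → Prop)
    (step : ∀ A, Good A → ∀ u v, nb G u ⊆ nb G v → ¬ A u ⊆ A v →
      ∃ B, Good B ∧ (∀ x y, A x ⊆ A y → B x ⊆ B y) ∧ B u ⊆ B v) (k : ℕ) :
    ∀ A, Good A → Nat.card (V × V) - {w : V × V | A w.1 ⊆ A w.2}.ncard = k →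
      ∃ A', Good A' ∧ ∀ x y, nb G x ⊆ nb G y → A' x ⊆ A' y := by
  induction k using Nat.strong_induction_on with
  | _ k ih =>
  intro A hA hk
  by_cases h : ∀ x y, nb G x ⊆ nb G y → A x ⊆ A y
  · exact ⟨A, hA, h⟩
  · push Not at h
    obtain ⟨u, v, h1, h2⟩ := h
    obtain ⟨B, hB, hB1, hB2⟩ := step A hA u v h1 h2
    have hsub : ({w : V × V | A w.1 ⊆ A w.2} : Set (V × V)) ⊂ {w : V × V | B w.1 ⊆ B w.2} := by
      refine ⟨fun w hw => hB1 _ _ hw, fun hsub => ?_⟩
      exact h2 (hsub (show (u, v) ∈ ({w : V × V | B w.1 ⊆ B w.2} : Set (V × V)) from hB2))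
    have h3 := Set.ncard_lt_ncard hsub (Set.toFinite _)
    have h4 : ({w : V × V | B w.1 ⊆ B w.2} : Set (V × V)).ncard ≤ Nat.card (V × V) :=
      Set.ncard_le_card _
    exact ih _ (by omega) B hB rfl

/-- The modified family. -/
private def mf (A : V → Set ℕ) (u v x : V) : Set ℕ := {k | k ∈ A x ∨ (A v ⊆ A x ∧ k ∈ A u)}

private theorem nb_of_sub {m : ℕ} {A : V → Set ℕ} (hF : Fam G m A) {v x : V}
    (h : A v ⊆ A x) : nb G v ⊆ nb G x := by
  have key : ∀ z, (A v ∩ A z).Nonempty → z ∈ nb G x := by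
    rintro z ⟨k, hk1, hk2⟩
    by_cases hzx : z = x
    · exact Or.inl hzx
    · exact Or.inr ((hF.adj x z).2 ⟨Ne.symm hzx, ⟨k, h hk1, hk2⟩⟩)
  intro z hz
  rcases hz with rfl | hz
  · obtain ⟨k, hk⟩ := hF.ne z
    exact key z ⟨k, hk, hk⟩
  · exact key z ((hF.adj v z).1 hz).2

private theorem mf_cases (A : V → Set ℕ) (u v x : V) :
    (¬ A v ⊆ A x ∧ mf A u v x = A x) ∨ (A v ⊆ A x ∧ mf A u v x = A x ∪ A u) := by
  by_cases h : A v ⊆ A x
  · right
    refine ⟨h, ?_⟩
    ext k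
    constructor
    · rintro (h1 | h1)
      · exact Or.inl h1
      · exact Or.inr h1.2
    · rintro (h1 | h1)
      · exact Or.inl h1
      · exact Or.inr ⟨h, h1⟩
  · left
    refine ⟨h, ?_⟩
    ext k
    constructor
    · rintro (h1 | h1)
      · exact h1
      · exact absurd h1.1 h
    · exact Or.inl

private theorem mf_meet {m : ℕ} {A : V → Set ℕ} (hF : Fam G m A) {u v : V}
    (huv : nb G u ⊆ nb G v) {x : V} (h : A v ⊆ A x) : (A x ∩ A u).Nonempty := by
  have h1 : u ∈ nb G x := nb_of_sub hF h (huv (Or.inl rfl))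
  rcases h1 with rfl | h1
  · obtain ⟨k, hk⟩ := hF.ne u
    exact ⟨k, hk, hk⟩
  · exact ((hF.adj x u).1 h1).2

private theorem mf_fam {m : ℕ} {A : V → Set ℕ} (hF : Fam G m A) {u v : V}
    (huv : nb G u ⊆ nb G v) : Fam G m (mf A u v) := by
  refine ⟨fun x => ?_, fun x => ?_, fun x y => ?_⟩
  · rcases mf_cases A u v x with ⟨-, h⟩ | ⟨h1, h⟩
    · rw [h]
      exact hF.cyc x
    · rw [h]
      exact cyc_union (hF.cyc x) (hF.cyc u) (mf_meet hF huv h1)
  · obtain ⟨k, hk⟩ := hF.ne x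
    exact ⟨k, Or.inl hk⟩
  · constructor
    · intro h
      obtain ⟨h1, k, hk1, hk2⟩ := (hF.adj x y).1 h
      exact ⟨h1, k, Or.inl hk1, Or.inl hk2⟩
    · rintro ⟨hxy, k, hk1, hk2⟩
      have key : ∀ x y, x ≠ y → A v ⊆ A x → k ∈ A u → k ∈ A y → G.Adj x y := by
        intro x y hxy h1 h2 h3
        have h4 : y ∈ nb G u := by
          by_cases h5 : y = u
          · exact Or.inl h5
          · exact Or.inr ((hF.adj u y).2 ⟨Ne.symm h5, k, h2, h3⟩)
        have h5 : y ∈ nb G x := nb_of_sub hF h1 (huv h4)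
        rcases h5 with h5 | h5
        · exact absurd h5.symm hxy
        · exact h5
      rcases hk1 with hk1 | ⟨hk1, hk1'⟩
      · rcases hk2 with hk2 | ⟨hk2, hk2'⟩
        · exact (hF.adj x y).2 ⟨hxy, k, hk1, hk2⟩
        · exact (key y x (Ne.symm hxy) hk2 hk2' hk1).symm
      · rcases hk2 with hk2 | ⟨hk2, -⟩
        · exact key x y hxy hk1 hk1' hk2
        · obtain ⟨l, hl⟩ := hF.ne v
          exact (hF.adj x y).2 ⟨hxy, l, hk1 hl, hk2 hl⟩

private theorem mf_mono {A : V → Set ℕ} {u v x y : V} (h : A x ⊆ A y) :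
    mf A u v x ⊆ mf A u v y := by
  rintro k (hk | ⟨hk1, hk2⟩)
  · exact Or.inl (h hk)
  · exact Or.inr ⟨hk1.trans h, hk2⟩

private theorem mf_new {A : V → Set ℕ} {u v : V} : mf A u v u ⊆ mf A u v v := by
  rintro k (hk | ⟨-, hk⟩)
  · exact Or.inr ⟨Set.Subset.refl _, hk⟩
  · exact Or.inr ⟨Set.Subset.refl _, hk⟩

theorem fam_norm [Finite V] {m : ℕ} {A : V → Set ℕ} (hF : Fam G m A)
    (hu : ∀ x, ∃ z, z ∉ nb G x) :
    ∃ A' : V → Set ℕ, Fam G m A' ∧ ∀ x y, nb G x ⊆ nb G y → A' x ⊆ A' y := by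
  have _ := hu
  exact norm_gen (G := G) (fun A => Fam G m A)
    (fun A hA u v huv _ => ⟨mf A u v, mf_fam hA huv, fun _ _ => mf_mono, mf_new⟩) _ A hF rfl

theorem fam_norm_iv [Finite V] {m : ℕ} {A : V → Set ℕ} (hF : Fam G m A)
    (hi : ∀ x, 0 ∉ A x ∧ ∃ p q : ℕ, q ≤ m ∧ A x = {i | p ≤ i ∧ i < q}) :
    ∃ A' : V → Set ℕ, Fam G m A' ∧ (∀ x y, nb G x ⊆ nb G y → A' x ⊆ A' y) ∧
      ∀ x, 0 ∉ A' x ∧ ∃ p q : ℕ, q ≤ m ∧ A' x = {i | p ≤ i ∧ i < q} := by
  obtain ⟨A', ⟨h1, h2⟩, h3⟩ := norm_gen (G := G)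
    (fun A => Fam G m A ∧ ∀ x, 0 ∉ A x ∧ ∃ p q : ℕ, q ≤ m ∧ A x = {i | p ≤ i ∧ i < q})
    (fun A hA u v huv _ => ⟨mf A u v, ⟨mf_fam hA.1 huv, fun x => by
      rcases mf_cases A u v x with ⟨-, h⟩ | ⟨h1, h⟩
      · rw [h]
        exact hA.2 x
      · rw [h]
        obtain ⟨k, hk1, hk2⟩ := mf_meet hA.1 huv h1
        obtain ⟨a1, p, q, hq, e1⟩ := hA.2 x
        obtain ⟨a2, p', q', hq', e2⟩ := hA.2 u
        refine ⟨fun h0 => h0.elim a1 a2, min p p', max q q', by omega, ?_⟩
        rw [e1] at hk1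
        rw [e2] at hk2
        rw [e1, e2]
        ext i
        simp only [Set.mem_union, Set.mem_ofPred_eq] at hk1 hk2 ⊢
        omega⟩, fun _ _ => mf_mono, mf_new⟩) _ A ⟨hF, hi⟩ rfl
  exact ⟨A', h1, h3, h2⟩

end PCA38
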