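import Pool.Agent.Work.MP_38bec5_lc.T.Cnt

set_option autoImplicit false

/-!
# J4 (size M): targets do not increase along a pure cell.

SETTING.  `C : Cell s t`; no `q`-event in the cell (`pure`), so every element with `s < p y ≤ t` has
`t < q y` (as `q y > p y > s`).  Let `p w = s + 1`, `p y = t`, `s + 1 < t`, and suppose `gD j` with
`q w ≤ j < q y`.  (Then `j > t`.)  Derive a contradiction.
Let `R = {x | s < p x ≤ t}`, `Far = {x ∈ R | j < q x}`, `Near = {x ∈ R | q x ≤ j}`; all definable.  `w ∈ Near`,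
`y ∈ Far`.  For `a ∈ Far`, `b ∈ Near`: `q b < q a`, so `¬ Eq2`, and `Sb b a ↔ p a ≤ p b`.
Let `u = min {p a | a ∈ Far, p a > s + 1}` (`y` is such an element, so `u ≤ t`), and
`u' = max {p b | b ∈ Near, p b < u}` (`w` is such an element), `s + 1 ≤ u' < u ≤ t`.  CLAIM `gD u'`: contradiction
to `C.hno` (`s < u' < t`).
`{q ≤ u'} = {q ≤ s}` by purity.  `{p ≤ u'}`: only elements of `R` matter.
 - `a ∈ Far`: `p a ≤ u'` iff `p a ≤ s + 1` (no `Far` element has `s + 1 < p a < u`) iff
   `#{b ∈ Near | p a ≤ p b} = #Near` (if `p a ≤ s + 1` all `b ∈ Near` have `p b ≥ s + 1 ≥ p a`; if `p a ≥ u` then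
   `w` is missing).  `#{b ∈ Near | Sb b a}` is the same for `r`-related `a, a' ∈ Far` by `cnt_sb`.
 - `b ∈ Near`: `p b ≤ u'` iff `p b < u` iff `#{a ∈ Far | p a ≤ p b} ≤ k₀`, where
   `k₀ = #{a ∈ Far | p a ≤ s + 1}`: if `p b < u` then `a ∈ Far`, `p a ≤ p b < u` gives `p a ≤ s + 1`; if
   `p b ≥ u` then an element of `Far` with `p a = u` is counted in addition.  `cnt_bs`.
-/

namespace PCA38

variable {V : Type} {m : ℤ} {p q : V → ℤ} {r : V → V → Prop}

theorem far_near [Finite V] (S : Sys m p q r) {s t : ℤ} (C : Cell p q r s t)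
    (hst : s + 1 < t) (pure : ∀ x, ¬ (s < q x ∧ q x ≤ t)) (w y : V) (hw : p w = s + 1)
    (hy : p y = t) (j : ℤ) (hj : gD p q r j) (h1 : q w ≤ j) (h2 : j < q y) : False := by
  obtain ⟨a, ⟨ha1, ha2, ha3, ha4⟩, hmin⟩ := Set.exists_min_image
    ({a | s < p a ∧ p a ≤ t ∧ j < q a ∧ s + 1 < p a} : Set V) p (Set.toFinite _)
    ⟨y, by omega, by omega, h2, by omega⟩
  obtain ⟨b, ⟨hb1, hb2, hb3, hb4⟩, hmax⟩ := Set.exists_max_image
    ({b | s < p b ∧ p b ≤ t ∧ q b ≤ j ∧ p b < p a} : Set V) p (Set.toFinite _)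
    ⟨w, by omega, by omega, h1, by omega⟩
  have hF : Df r ({x | s < p x ∧ p x ≤ t ∧ j < q x} : Set V) := by
    intro z₁ z₂ h
    have a1 := C.hs.1 z₁ z₂ h
    have a2 := C.ht.1 z₁ z₂ h
    have a3 := hj.2 z₁ z₂ h
    simp only [Set.mem_ofPred_eq] at a1 a2 a3 ⊢
    omega
  have hN : Df r ({x | s < p x ∧ p x ≤ t ∧ q x ≤ j} : Set V) := by
    intro z₁ z₂ h
    have a1 := C.hs.1 z₁ z₂ h
    have a2 := C.ht.1 z₁ z₂ h
    have a3 := hj.2 z₁ z₂ h
    simp only [Set.mem_ofPred_eq] at a1 a2 a3 ⊢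
    omega
  refine C.hno (p b) hb1 (by omega) ⟨?_, ?_⟩
  · have kF : ∀ x, s < p x → p x ≤ t → j < q x → (p x ≤ p b ↔
        {w | w ∈ {x | s < p x ∧ p x ≤ t ∧ q x ≤ j} ∧ Sb p q w x}.ncard =
          {x | s < p x ∧ p x ≤ t ∧ q x ≤ j}.ncard) := by
      intro x hx1 hx2 hx3
      constructor
      · intro hx4
        have hx5 : p x ≤ s + 1 := by
          by_contra hx5
          have := hmin x ⟨hx1, hx2, hx3, not_le.1 hx5⟩
          omega
        congr 1
        ext v
        constructor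
        · exact fun hv => hv.1
        · intro hv
          exact ⟨hv, by have := hv.1; omega, by have := hv.2.2; omega⟩
      · intro hcard
        by_contra hx4
        have hsub : ({w | w ∈ {x | s < p x ∧ p x ≤ t ∧ q x ≤ j} ∧ Sb p q w x} : Set V) ⊂
            {x | s < p x ∧ p x ≤ t ∧ q x ≤ j} := by
          refine ⟨fun v hv => hv.1, fun hsub => ?_⟩
          have h5 := (hsub (show w ∈ ({x | s < p x ∧ p x ≤ t ∧ q x ≤ j} : Set V) from
            ⟨by omega, by omega, h1⟩)).2
          have h6 : p x ≤ p w := h5.1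
          omega
        have := Set.ncard_lt_ncard hsub (Set.toFinite _)
        omega
    have kN : ∀ x, s < p x → p x ≤ t → q x ≤ j → (p x ≤ p b ↔
        {w | w ∈ {x | s < p x ∧ p x ≤ t ∧ j < q x} ∧ Sb p q x w}.ncard ≤
          {w | w ∈ {x | s < p x ∧ p x ≤ t ∧ j < q x} ∧ p w ≤ s + 1}.ncard) := by
      intro x hx1 hx2 hx3
      constructor
      · intro hx4
        apply Set.ncard_le_ncard _ (Set.toFinite _)
        rintro v ⟨hv1, hv2⟩
        refine ⟨hv1, ?_⟩
        by_contra hv3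
        have := hmin v ⟨hv1.1, hv1.2.1, hv1.2.2, not_le.1 hv3⟩
        have : p v ≤ p x := hv2.1
        omega
      · intro hle
        by_contra hx4
        have hx5 : p a ≤ p x := by
          by_contra hx5
          have := hmax x ⟨hx1, hx2, hx3, not_le.1 hx5⟩
          omega
        have hsub : ({w | w ∈ {x | s < p x ∧ p x ≤ t ∧ j < q x} ∧ p w ≤ s + 1} : Set V) ⊂
            {w | w ∈ {x | s < p x ∧ p x ≤ t ∧ j < q x} ∧ Sb p q x w} := by
          refine ⟨?_, fun hsub => ?_⟩
          · rintro v ⟨hv1, hv2⟩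
            refine ⟨hv1, ?_, ?_⟩
            · omega
            · have := hv1.2.2
              omega
          · have h5 := (hsub (show a ∈ ({w | w ∈ {x | s < p x ∧ p x ≤ t ∧ j < q x} ∧
                Sb p q x w} : Set V) from ⟨⟨ha1, ha2, ha3⟩, hx5, by omega⟩)).2
            omega
        have := Set.ncard_lt_ncard hsub (Set.toFinite _)
        omega
    intro x₁ x₂ h
    have a1 := C.hs.1 x₁ x₂ h
    have a2 := C.ht.1 x₁ x₂ h
    have a3 := hj.2 x₁ x₂ h
    simp only [Set.mem_ofPred_eq] at a1 a2 a3 ⊢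
    by_cases c1 : p x₁ ≤ s
    · have := a1.1 c1
      omega
    by_cases c2 : p x₁ ≤ t
    · by_cases c3 : q x₁ ≤ j
      · have e := cnt_bs S hF h (fun v hv hh => by have := hv.2.2; have := hh.2; omega)
          (fun v hv hh => by have := hv.2.2; have := hh.2; omega)
        rw [kN x₁ (by omega) c2 c3, kN x₂ (by omega) (by omega) (by omega), e]
      · have e := cnt_sb S hN h (fun v hv hh => by have := hv.2.2; have := hh.2; omega)
          (fun v hv hh => by have := hv.2.2; have := hh.2; omega)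
        rw [kF x₁ (by omega) c2 (by omega), kF x₂ (by omega) (by omega) (by omega), e]
    · omega
  · have key : ∀ x, q x ≤ p b ↔ q x ≤ s := by
      intro x
      constructor
      · intro h
        by_contra c1
        exact pure x ⟨not_le.1 c1, by omega⟩
      · intro h; omega
    intro x₁ x₂ h
    have := C.hs.2 x₁ x₂ h
    simp only [Set.mem_ofPred_eq] at this ⊢
    rw [key, key]
    exact this

end PCA38
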