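import Pool.Agent.Work.MP_38bec5_lc.T.J3
import Pool.Agent.Work.MP_38bec5_lc.T.J4

set_option autoImplicit false

/-!
# J5 (size M): every gap is definable; `r` separates the vertices.

`pure_false`.  Let `C : Cell s t` with `s + 2 ≤ t` and no `q`-event in the cell.
(1) There is `x` with `p x = s + 1`: otherwise `{p ≤ s+1} = {p ≤ s}`, `{q ≤ s+1} = {q ≤ s}` (purity) are
definable and `gD (s+1)`, contradicting `C.hno`.  There is `x'` with `p x' = t`: otherwise
`{p ≤ t-1} = {p ≤ t}` and `{q ≤ t-1} = {q ≤ t}`, so `gD (t-1)`, contradiction.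
(2) `p` is even, so `s + 1 = 2 a`, `t = 2 b`, `a < b`, `1 ≤ a` (`lo`), `b ≤ m` (`p x' < q x' ≤ 2m - 1`).  Every element
with `2 a ≤ p x ≤ 2 b` has `q x > 2 b` (purity and `p x < q x`).  `S.m2` gives `w, y, z` with `p w = 2 a = s + 1`,
`p y = 2 b = t`, `q w < p z`, `q z ≤ q y`.
(3) `cell_mk` for `u = q w` gives a cell `(s', t']` with `s' < q w ≤ t'`.  `t' ≥ q y`: otherwise `j = t'` satisfies
`gD j`, `q w ≤ j < q y`, contradicting `far_near`.  So `s' < q w < p z` and `q z ≤ q y ≤ t'`: `z` is an inner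
element of this cell, contradicting `no_inner`.
`pure_false'`: the mirror statement, by reflection (`sys_reflect`, `cell_reflect`, `gD_reflect`:
`gD' (2m - j₀)`).
`all_gD`: let `j` be arbitrary and suppose `¬ gD j`.  `cell_mk` for `u = j`: `s < j ≤ t`, and `j < t` since `gD t`; so
`s + 2 ≤ t`.  `purity` and `pure_false` / `pure_false'` give a contradiction.
`sys_discrete`: `Df r {x | p x ≤ j}` for all `j` gives `p z₁ = p z₂` (take `j = p z₁` and `j = p z₂`), the same
for `q`.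
-/

namespace PCA38

variable {V : Type} {m : ℤ} {p q : V → ℤ} {r : V → V → Prop}

theorem pure_false [Finite V] (S : Sys m p q r) {j₀ : ℤ} (h0 : gD p q r j₀) (hj : 2 ≤ j₀)
    (hj' : j₀ ≤ 2 * m - 2) {s t : ℤ} (C : Cell p q r s t) (hst : s + 2 ≤ t)
    (pure : ∀ x, ¬ (s < q x ∧ q x ≤ t)) : False := by
  -- (1)
  obtain ⟨x, hx⟩ : ∃ x, p x = s + 1 := by
    by_contra hno
    push Not at hno
    refine C.hno (s + 1) (by omega) (by omega) ⟨fun z₁ z₂ h => ?_, fun z₁ z₂ h => ?_⟩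
    · have a1 := C.hs.1 z₁ z₂ h
      have a2 := hno z₁
      have a3 := hno z₂
      simp only [Set.mem_ofPred_eq] at a1 ⊢
      omega
    · have a1 := C.hs.2 z₁ z₂ h
      have a2 := pure z₁
      have a3 := pure z₂
      simp only [Set.mem_ofPred_eq] at a1 ⊢
      omega
  obtain ⟨x', hx'⟩ : ∃ x, p x = t := by
    by_contra hno
    push Not at hno
    refine C.hno (t - 1) (by omega) (by omega) ⟨fun z₁ z₂ h => ?_, fun z₁ z₂ h => ?_⟩
    · have a1 := C.ht.1 z₁ z₂ h
      have a2 := hno z₁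
      have a3 := hno z₂
      simp only [Set.mem_ofPred_eq] at a1 ⊢
      omega
    · have a1 := C.ht.2 z₁ z₂ h
      have a2 := pure z₁
      have a3 := pure z₂
      simp only [Set.mem_ofPred_eq] at a1 ⊢
      omega
  -- (2)
  obtain ⟨a, ha⟩ := S.even x
  obtain ⟨b, hb⟩ := S.even x'
  have l1 := S.lo x
  have l2 := S.lt x'
  have l3 := S.hi x'
  obtain ⟨w, y, z, g1, g2, g3, g4⟩ := S.m2 a b (by omega) (by omega) (by omega)
    (fun v hv => pure v (by omega)) (fun v hv1 hv2 => by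
      have := S.lt v
      by_contra hv3
      exact pure v (by omega))
  -- (3)
  obtain ⟨s', t', k1, k2, C'⟩ := cell_mk S (q w)
  have k3 : q y ≤ t' := by
    by_contra k3
    exact far_near S C (by omega) pure w y (by omega) (by omega) t' C'.ht k2 (by omega)
  exact no_inner S h0 hj hj' C' z ⟨by omega, by omega⟩

theorem pure_false' [Finite V] (S : Sys m p q r) {j₀ : ℤ} (h0 : gD p q r j₀) (hj : 2 ≤ j₀)
    (hj' : j₀ ≤ 2 * m - 2) {s t : ℤ} (C : Cell p q r s t) (hst : s + 2 ≤ t)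
    (pure : ∀ x, ¬ (s < p x ∧ p x ≤ t)) : False := by
  have h0' : gD (fun x => 2 * m + 1 - q x) (fun x => 2 * m + 1 - p x) r (2 * m - j₀) := by
    rw [gD_reflect]
    have : 2 * m - (2 * m - j₀) = j₀ := by ring
    rw [this]
    exact h0
  exact pure_false (sys_reflect S) h0' (by omega) (by omega) (cell_reflect (m := m) C) (by omega)
    (fun x hx => pure x (by omega))

private theorem all_gD [Finite V] (S : Sys m p q r) {j₀ : ℤ} (h0 : gD p q r j₀) (hj : 2 ≤ j₀)
    (hj' : j₀ ≤ 2 * m - 2) (j : ℤ) : gD p q r j := by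
  by_contra hno
  obtain ⟨s, t, h1, h2, C⟩ := cell_mk S j
  have h3 : j ≠ t := by
    rintro rfl
    exact hno C.ht
  rcases purity S h0 hj hj' C with h | h
  · exact pure_false S h0 hj hj' C (by omega) h
  · exact pure_false' S h0 hj hj' C (by omega) h

theorem sys_discrete [Finite V] (S : Sys m p q r) {j₀ : ℤ} (h0 : gD p q r j₀) (hj : 2 ≤ j₀)
    (hj' : j₀ ≤ 2 * m - 2) {z₁ z₂ : V} (h : r z₁ z₂) : p z₁ = p z₂ ∧ q z₁ = q z₂ := by
  have a1 := (all_gD S h0 hj hj' (p z₁)).1 z₁ z₂ h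
  have a2 := (all_gD S h0 hj hj' (p z₂)).1 z₁ z₂ h
  have a3 := (all_gD S h0 hj hj' (q z₁)).2 z₁ z₂ h
  have a4 := (all_gD S h0 hj hj' (q z₂)).2 z₁ z₂ h
  simp only [Set.mem_ofPred_eq] at a1 a2 a3 a4
  omega

end PCA38
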