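import Pool.Agent.Work.MP_38bec5_lc.T.Defs

set_option autoImplicit false

/-!
# LinA (size M-L): linear flagged models, circular case and interval case.

PROOF of `lin_circ`.  Call a set `K ⊆ {0, ..., m-1}` good if every `A x ∩ K` is nonempty and, for adjacent
`x, y`, `A x ∩ A y ∩ K` is nonempty.  `{0, ..., m-1}` is good.  Let `K` be good with the least number `M` of
elements.  `M ≥ 2`: `M = 0` is impossible (`V` nonempty); if `K = {k}` then all arcs contain `k` and every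
vertex is universal, contradicting `hu`.
(1) For cyclically consecutive elements `k, k⁺` of `K` there is `x` with `k ∈ A x`, `k⁺ ∉ A x`, and there is `y`
with `k ∉ A y`, `k⁺ ∈ A y`: otherwise `K \ {k}` (resp. `K \ {k⁺}`) is good (wherever `k` was used, `k⁺` can be
used).
(2) Let `κ : Fin M → ℕ` be the increasing enumeration of `K` (`Finset.orderEmbOfFin`),
`B x = {j < M | κ j ∈ A x}`.  `B x` is an interval of `{0, ..., M-1}` or the complement of an interval (from
`Cyc m (A x)`, since `κ` is increasing), nonempty, and not everything: otherwise `x` is universal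
(every arc meets `K`).  Two arcs meet iff the `B`s meet (good set; converse clear).
`nb x ⊆ nb y → B x ⊆ B y` by `hn`.
(3) Put `c x : 0 ∈ B x`.  If `¬ c x`, then `B x = [P x, Q x)` with `1 ≤ P x < Q x ≤ M`.  (If `B x` is the
complement of an interval `[p, q)` and does not contain `0`, then `p = 0`, and `B x = [q, M)`.)  If `c x` then
the complement of `B x` is `[P x, Q x)`, `1 ≤ P x < Q x ≤ M`, in the same way.
(4) The axioms of `Lin` (with `m := M`) translate statements about the sets `B x`; e.g. `adj_ft`: `B x` and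
`B y` are disjoint iff `[P x, Q x) ⊆ [P y, Q y)`.  `ends k` for `2 ≤ k ≤ M`: by (1) with the points `k - 1` and `k`
(with `M - 1` and `0` if `k = M`) there is `x` with `k - 1 ∈ B x`, `k ∉ B x`; if `¬ c x` then `Q x = k`; if `c x` then
`P x = k` (and `k < M`).  `starts k` for `1 ≤ k ≤ M - 1`: `x` with `k - 1 ∉ B x`, `k ∈ B x`: `P x = k` resp. `Q x = k`.
The last two claims: (1) for the points `0, 1` gives `x` with `0 ∈ B x`, `1 ∉ B x`: `c x`, `P x = 1`; (1) for the
points `M - 1, 0` gives `x` with `M - 1 ∉ B x`, `0 ∈ B x`: `c x`, `Q x = M`.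

PROOF of `lin_iv`.  The same with good sets `K ⊆ {1, ..., m-1}` (`0` is in no arc), `K` minimal, `M = |K|`
(`M ≥ 1`), `K` enumerated as `κ_1 < ... < κ_M`, `B x = {j | κ_j ∈ A x} = [P x, Q x)`, `1 ≤ P x < Q x ≤ M + 1`, no flags,
new `m := M + 1`.  (1) now holds for `κ_{k-1}, κ_k`, `2 ≤ k ≤ M`, and every `κ_j` is in some arc, so
`ends (M+1)` and `starts 1` hold as well.
-/

namespace PCA38

variable {V : Type} {G : SimpleGraph V}

private theorem lowL (m : ℕ) (S : ℕ → Prop) (h : ∀ i j, i ≤ j → j < m → S j → S i) :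
    ∃ q, q ≤ m ∧ ∀ i, i < m → (S i ↔ i < q) := by
  classical
  induction m with
  | zero => exact ⟨0, le_refl _, fun i hi => absurd hi (Nat.not_lt_zero i)⟩
  | succ m ih =>
    obtain ⟨q, hq, hq'⟩ := ih (fun i j hij hj => h i j hij (Nat.lt_succ_of_lt hj))
    by_cases hm : S m
    · exact ⟨m + 1, le_refl _, fun i hi =>
        ⟨fun _ => hi, fun _ => h i m (Nat.le_of_lt_succ hi) (Nat.lt_succ_self m) hm⟩⟩
    · refine ⟨q, Nat.le_succ_of_le hq, fun i hi => ?_⟩
      rcases Nat.lt_or_ge i m with h1 | h1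
      · exact hq' i h1
      · have h2 : i = m := le_antisymm (Nat.le_of_lt_succ hi) h1
        subst h2
        exact ⟨fun h3 => absurd h3 hm, fun h3 => absurd h3 (by omega)⟩

private theorem preim (M : ℕ) (e : ℕ → ℕ) (he : ∀ i j, i ≤ j → j < M → e i ≤ e j) (p q : ℕ) :
    ∃ p' q' : ℕ, q' ≤ M ∧ ∀ j, j < M → ((p ≤ e j ∧ e j < q) ↔ (p' ≤ j ∧ j < q')) := by
  obtain ⟨p', hp, hp'⟩ := lowL M (fun j => e j < p)
    (fun i j hij hj h => lt_of_le_of_lt (he i j hij hj) h)
  obtain ⟨q', hq, hq'⟩ := lowL M (fun j => e j < q)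
    (fun i j hij hj h => lt_of_le_of_lt (he i j hij hj) h)
  refine ⟨p', q', hq, fun j hj => ?_⟩
  rw [← hq' j hj, ← not_lt, ← not_lt, ← hp' j hj]

/-- good sets of points -/
private def GoodK (G : SimpleGraph V) (A : V → Set ℕ) (K : Finset ℕ) : Prop :=
  (∀ x, ∃ k ∈ K, k ∈ A x) ∧ ∀ x y, G.Adj x y → ∃ k ∈ K, k ∈ A x ∧ k ∈ A y

private theorem compress [Nonempty V] {m : ℕ} {A : V → Set ℕ} (hF : Fam G m A) :
    ∃ (M : ℕ) (B : V → Set ℕ), Fam G M B ∧ (∀ x, ∀ j ∈ B x, j < M) ∧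
      (∀ j j', j < M → j' < M → j ≠ j' → ∃ x, j ∈ B x ∧ j' ∉ B x) ∧
      (∀ j, j < M → ∃ x, j ∈ B x) ∧
      (∀ x y, A x ⊆ A y → B x ⊆ B y) ∧
      (∀ x, (∃ p q : ℕ, q ≤ m ∧ A x = {i | p ≤ i ∧ i < q}) →
        ∃ p q : ℕ, q ≤ M ∧ B x = {i | p ≤ i ∧ i < q}) := by
  classical
  have hlt : ∀ x, ∀ k ∈ A x, k < m := by
    intro x k hk
    rcases hF.cyc x with ⟨p, q, hq, h⟩ | ⟨p, q, hq, h⟩
    · rw [h] at hk
      exact lt_of_lt_of_le hk.2 hq
    · rw [h] at hk
      exact hk.1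
  have hg0 : GoodK G A (Finset.range m) := by
    refine ⟨fun x => ?_, fun x y hxy => ?_⟩
    · obtain ⟨k, hk⟩ := hF.ne x
      exact ⟨k, Finset.mem_range.2 (hlt x k hk), hk⟩
    · obtain ⟨-, k, hk, hk'⟩ := (hF.adj x y).1 hxy
      exact ⟨k, Finset.mem_range.2 (hlt x k hk), hk, hk'⟩
  -- a smallest good set
  obtain ⟨K, hK, hmin⟩ : ∃ K : Finset ℕ, GoodK G A K ∧ ∀ K' : Finset ℕ, GoodK G A K' →
      K.card ≤ K'.card := by
    have h1 : ∃ N, ∃ K : Finset ℕ, GoodK G A K ∧ K.card = N := ⟨_, _, hg0, rfl⟩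
    obtain ⟨K, hK, hKc⟩ := Nat.find_spec h1
    refine ⟨K, hK, fun K' hK' => ?_⟩
    rw [hKc]
    exact Nat.find_min' h1 ⟨K', hK', rfl⟩
  have hsep : ∀ k ∈ K, ∀ k' ∈ K, k ≠ k' → ∃ x, k ∈ A x ∧ k' ∉ A x := by
    intro k hk k' hk' hne
    by_contra hcon
    push Not at hcon
    have h1 : GoodK G A (K.erase k) := by
      refine ⟨fun x => ?_, fun x y hxy => ?_⟩
      · obtain ⟨a, ha, hax⟩ := hK.1 x
        by_cases hak : a = k
        · subst hak
          exact ⟨k', Finset.mem_erase.2 ⟨Ne.symm hne, hk'⟩, hcon x hax⟩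
        · exact ⟨a, Finset.mem_erase.2 ⟨hak, ha⟩, hax⟩
      · obtain ⟨a, ha, hax, hay⟩ := hK.2 x y hxy
        by_cases hak : a = k
        · subst hak
          exact ⟨k', Finset.mem_erase.2 ⟨Ne.symm hne, hk'⟩, hcon x hax, hcon y hay⟩
        · exact ⟨a, Finset.mem_erase.2 ⟨hak, ha⟩, hax, hay⟩
    have h2 := hmin _ h1
    have h3 := Finset.card_erase_lt_of_mem hk
    omega
  have hcov : ∀ k ∈ K, ∃ x, k ∈ A x := by
    intro k hk
    by_cases h1 : ∃ k' ∈ K, k ≠ k'
    · obtain ⟨k', hk', hne⟩ := h1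
      obtain ⟨x, hx, -⟩ := hsep k hk k' hk' hne
      exact ⟨x, hx⟩
    · push Not at h1
      obtain ⟨x⟩ := (inferInstance : Nonempty V)
      obtain ⟨a, ha, hax⟩ := hK.1 x
      refine ⟨x, ?_⟩
      rw [h1 a ha]
      exact hax
  set M := K.card with hM
  set e : ℕ → ℕ := fun j => if h : j < M then K.orderEmbOfFin rfl ⟨j, h⟩ else 0 with he
  have hev : ∀ (j : ℕ) (h : j < M), e j = K.orderEmbOfFin rfl ⟨j, h⟩ := fun j h => by
    rw [he]
    simp only
    rw [dif_pos h]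
  have heK : ∀ j, j < M → e j ∈ K := fun j h => by
    rw [hev j h]
    exact Finset.orderEmbOfFin_mem K rfl _
  have hemono : ∀ i j, i ≤ j → j < M → e i ≤ e j := fun i j hij hj => by
    rw [hev i (by omega), hev j hj]
    exact (K.orderEmbOfFin rfl).monotone hij
  have heinj : ∀ i j, i < M → j < M → e i = e j → i = j := fun i j hi hj h => by
    rw [hev i hi, hev j hj] at h
    have := (K.orderEmbOfFin rfl).injective h
    simpa using this
  have hesur : ∀ k ∈ K, ∃ j, j < M ∧ e j = k := by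
    intro k hk
    have h1 := Finset.range_orderEmbOfFin K (rfl : K.card = K.card)
    have h2 : k ∈ Set.range (K.orderEmbOfFin (rfl : K.card = K.card)) := by
      rw [h1]
      exact hk
    obtain ⟨i, hi⟩ := h2
    exact ⟨i, i.isLt, by rw [hev i i.isLt]; exact hi⟩
  refine ⟨M, fun x => {j | j < M ∧ e j ∈ A x}, ⟨fun x => ?_, fun x => ?_, fun x y => ?_⟩,
    fun x j hj => hj.1, ?_, ?_, ?_, ?_⟩
  · rcases hF.cyc x with ⟨p, q, hq, h⟩ | ⟨p, q, hq, h⟩
    · left
      obtain ⟨p', q', hq', h'⟩ := preim M e hemono p q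
      refine ⟨p', q', hq', ?_⟩
      ext j
      constructor
      · rintro ⟨hj, hjA⟩
        rw [h] at hjA
        exact (h' j hj).1 hjA
      · rintro hj
        have hj' : j < M := lt_of_lt_of_le hj.2 hq'
        refine ⟨hj', ?_⟩
        rw [h]
        exact (h' j hj').2 hj
    · right
      obtain ⟨p', q', hq', h'⟩ := preim M e hemono p q
      refine ⟨p', q', hq', ?_⟩
      ext j
      constructor
      · rintro ⟨hj, hjA⟩
        rw [h] at hjA
        exact ⟨hj, fun h2 => hjA.2 ((h' j hj).2 h2)⟩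
      · rintro ⟨hj, h2⟩
        refine ⟨hj, ?_⟩
        rw [h]
        obtain ⟨y, hy⟩ := hcov _ (heK j hj)
        exact ⟨hlt y _ hy, fun h3 => h2 ((h' j hj).1 h3)⟩
  · obtain ⟨k, hk, hkx⟩ := hK.1 x
    obtain ⟨j, hj, hjk⟩ := hesur k hk
    exact ⟨j, hj, by rw [hjk]; exact hkx⟩
  · constructor
    · intro hxy
      refine ⟨hxy.ne, ?_⟩
      obtain ⟨k, hk, hkx, hky⟩ := hK.2 x y hxy
      obtain ⟨j, hj, hjk⟩ := hesur k hk
      exact ⟨j, ⟨hj, by rw [hjk]; exact hkx⟩, ⟨hj, by rw [hjk]; exact hky⟩⟩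
    · rintro ⟨hne, j, ⟨hj, hjx⟩, ⟨-, hjy⟩⟩
      exact (hF.adj x y).2 ⟨hne, e j, hjx, hjy⟩
  · intro j j' hj hj' hne
    obtain ⟨x, hx, hx'⟩ := hsep _ (heK j hj) _ (heK j' hj') (fun h => hne (heinj j j' hj hj' h))
    exact ⟨x, ⟨hj, hx⟩, fun h => hx' h.2⟩
  · intro j hj
    obtain ⟨x, hx⟩ := hcov _ (heK j hj)
    exact ⟨x, hj, hx⟩
  · rintro x y hxy j ⟨hj, hjx⟩
    exact ⟨hj, hxy hjx⟩
  · rintro x ⟨p, q, hq, h⟩
    obtain ⟨p', q', hq', h'⟩ := preim M e hemono p q
    refine ⟨p', q', hq', ?_⟩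
    ext j
    constructor
    · rintro ⟨hj, hjA⟩
      rw [h] at hjA
      exact (h' j hj).1 hjA
    · rintro hj
      have hj' : j < M := lt_of_lt_of_le hj.2 hq'
      refine ⟨hj', ?_⟩
      rw [h]
      exact (h' j hj').2 hj

theorem lin_circ [Finite V] [Nonempty V] {m : ℕ} {A : V → Set ℕ} (hF : Fam G m A)
    (hn : ∀ x y, nb G x ⊆ nb G y → A x ⊆ A y) (hu : ∀ x, ∃ z, z ∉ nb G x) :
    ∃ (M : ℤ) (P Q : V → ℤ) (c : V → Prop), Lin G M P Q c ∧ (∃ x, c x ∧ P x = 1) ∧
      (∃ x, c x ∧ Q x = M) := by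
  classical
  obtain ⟨M, B, hB, hBlt, hsep, -, hBsub, -⟩ := compress hF
  have hnB : ∀ x y, nb G x ⊆ nb G y → B x ⊆ B y := fun x y h => hBsub x y (hn x y h)
  -- no arc is everything
  have hne : ∀ x, ∃ j, j < M ∧ j ∉ B x := by
    intro x
    by_contra hcon
    push Not at hcon
    obtain ⟨z, hz⟩ := hu x
    apply hz
    by_cases hzx : z = x
    · exact Or.inl hzx
    · refine Or.inr ((hB.adj x z).2 ⟨fun h => hzx h.symm, ?_⟩)
      obtain ⟨j, hj⟩ := hB.ne z
      exact ⟨j, hcon j (hBlt z j hj), hj⟩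
  have hPQ : ∀ x, ∃ P Q : ℕ, 1 ≤ P ∧ P < Q ∧ Q ≤ M ∧
      (0 ∉ B x → ∀ j, j ∈ B x ↔ P ≤ j ∧ j < Q) ∧
      (0 ∈ B x → ∀ j, j ∈ B x ↔ j < M ∧ ¬ (P ≤ j ∧ j < Q)) := by
    intro x
    obtain ⟨j₀, hj₀⟩ := hB.ne x
    obtain ⟨j₁, hj₁, hj₁'⟩ := hne x
    rcases hB.cyc x with ⟨p, q, hq, h⟩ | ⟨p, q, hq, h⟩
    · have hm : ∀ j, j ∈ B x ↔ p ≤ j ∧ j < q := fun j => by rw [h]; rfl
      by_cases h0 : 0 ∈ B x
      · have h1 := (hm 0).1 h0
        have h2 : ¬ (p ≤ j₁ ∧ j₁ < q) := fun h3 => hj₁' ((hm j₁).2 h3)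
        refine ⟨q, M, by omega, by omega, le_refl _, fun h3 => absurd h0 h3, fun _ j => ?_⟩
        rw [hm j]
        constructor
        · intro h3
          exact ⟨by omega, by omega⟩
        · intro h3
          exact ⟨by omega, by omega⟩
      · have h1 := (hm j₀).1 hj₀
        have h2 : ¬ (p ≤ 0 ∧ 0 < q) := fun h3 => h0 ((hm 0).2 h3)
        exact ⟨p, q, by omega, by omega, hq, fun _ => hm, fun h3 => absurd h3 h0⟩
    · have hm : ∀ j, j ∈ B x ↔ j < M ∧ ¬ (p ≤ j ∧ j < q) := fun j => by rw [h]; rfl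
      by_cases h0 : 0 ∈ B x
      · have h1 := (hm 0).1 h0
        have h2 : p ≤ j₁ ∧ j₁ < q := by
          by_contra h3
          exact hj₁' ((hm j₁).2 ⟨hj₁, h3⟩)
        exact ⟨p, q, by omega, by omega, hq, fun h3 => absurd h0 h3, fun _ => hm⟩
      · have h1 := (hm j₀).1 hj₀
        have h2 : p ≤ 0 ∧ 0 < q := by
          by_contra h3
          exact h0 ((hm 0).2 ⟨by omega, h3⟩)
        refine ⟨q, M, by omega, by omega, le_refl _, fun _ j => ?_, fun h3 => absurd h3 h0⟩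
        rw [hm j]
        constructor
        · intro h3
          exact ⟨by omega, by omega⟩
        · intro h3
          exact ⟨by omega, by omega⟩
  choose P Q hP hPQ' hQ hf ht using hPQ
  have hM2 : 2 ≤ M := by
    obtain ⟨x⟩ := (inferInstance : Nonempty V)
    have h1 := hP x
    have h2 := hPQ' x
    have h3 := hQ x
    omega
  refine ⟨M, fun x => P x, fun x => Q x, fun x => 0 ∈ B x, ?_, ?_, ?_⟩
  · refine ⟨fun x => by exact_mod_cast hP x, fun x => by exact_mod_cast hPQ' x,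
      fun x => by exact_mod_cast hQ x, ?_, ?_, ?_, ?_, ?_, ?_, ?_, ?_, ?_⟩
    · -- adj_ff
      intro x y hxy hx hy
      have hfx := hf x hx
      have hfy := hf y hy
      have h1 := hPQ' x
      have h2 := hPQ' y
      rw [hB.adj]
      constructor
      · rintro ⟨-, j, hjx, hjy⟩
        have h3 := (hfx j).1 hjx
        have h4 := (hfy j).1 hjy
        constructor <;> exact_mod_cast (by omega)
      · rintro ⟨h3, h4⟩
        have h3' : P x < Q y := by exact_mod_cast h3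
        have h4' : P y < Q x := by exact_mod_cast h4
        exact ⟨hxy, max (P x) (P y), (hfx _).2 ⟨le_max_left _ _, by omega⟩,
          (hfy _).2 ⟨le_max_right _ _, by omega⟩⟩
    · -- adj_tt
      intro x y hxy hx hy
      exact (hB.adj x y).2 ⟨hxy, 0, hx, hy⟩
    · -- adj_ft
      intro x y hx hy
      have hfx := hf x hx
      have hty := ht y hy
      have h1 := hPQ' x
      have h2 := hPQ' y
      have h5 := hQ x
      rw [hB.adj]
      constructor
      · rintro ⟨-, j, hjx, hjy⟩ ⟨h3, h4⟩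
        have h3' : P y ≤ P x := by exact_mod_cast h3
        have h4' : Q x ≤ Q y := by exact_mod_cast h4
        have h6 := (hfx j).1 hjx
        have h7 := (hty j).1 hjy
        exact h7.2 ⟨by omega, by omega⟩
      · intro h3
        refine ⟨fun h => hx (by rw [h]; exact hy), ?_⟩
        by_cases h4 : P y ≤ P x
        · have h6 : Q y < Q x := by
            by_contra h7
            exact h3 ⟨by exact_mod_cast h4, by exact_mod_cast (not_lt.1 h7)⟩
          exact ⟨Q x - 1, (hfx _).2 ⟨by omega, by omega⟩, (hty _).2 ⟨by omega, by omega⟩⟩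
        · exact ⟨P x, (hfx _).2 ⟨le_refl _, h1⟩, (hty _).2 ⟨by omega, by omega⟩⟩
    · -- n_ff
      intro x y hx hy hxy
      have hfx := hf x hx
      have hfy := hf y hy
      have h1 := hPQ' x
      have hs := hnB x y hxy
      have h3 := (hfy _).1 (hs ((hfx (P x)).2 ⟨le_refl _, h1⟩))
      have h4 := (hfy _).1 (hs ((hfx (Q x - 1)).2 ⟨by omega, by omega⟩))
      constructor <;> exact_mod_cast (by omega)
    · -- n_tt
      intro x y hx hy hxy
      have htx := ht x hx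
      have hty := ht y hy
      have h1 := hPQ' y
      have h2 := hQ y
      have hs := hnB x y hxy
      have hout : ∀ j, j < M → (P y ≤ j ∧ j < Q y) → (P x ≤ j ∧ j < Q x) := by
        intro j hj hjy
        by_contra h5
        exact ((hty j).1 (hs ((htx j).2 ⟨hj, h5⟩))).2 hjy
      have h3 := hout (P y) (by omega) ⟨le_refl _, h1⟩
      have h4 := hout (Q y - 1) (by omega) ⟨by omega, by omega⟩
      constructor <;> exact_mod_cast (by omega)
    · -- n_ft
      intro x y hx hy hxy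
      have hfx := hf x hx
      have hty := ht y hy
      have h1 := hPQ' x
      have h2 := hPQ' y
      have hs := hnB x y hxy
      have h3 : Q x ≤ P y ∨ Q y ≤ P x := by
        by_contra h4
        push Not at h4
        have h5 := (hty _).1 (hs ((hfx (max (P x) (P y))).2 ⟨le_max_left _ _, by omega⟩))
        exact h5.2 ⟨le_max_right _ _, by omega⟩
      rcases h3 with h3 | h3
      · left
        exact_mod_cast h3
      · right
        exact_mod_cast h3
    · -- n_tf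
      intro x y hx hy hxy
      exact hy (hnB x y hxy hx)
    · -- ends
      intro k hk hkM
      obtain ⟨K, rfl⟩ : ∃ K : ℕ, k = (K : ℤ) := ⟨k.toNat, by omega⟩
      have hK2 : 2 ≤ K := by exact_mod_cast hk
      have hKM : K ≤ M := by exact_mod_cast hkM
      by_cases hKM' : K = M
      · obtain ⟨x, hx, hx'⟩ := hsep (K - 1) 0 (by omega) (by omega) (by omega)
        have h1 := (hf x hx' _).1 hx
        have h2 := hQ x
        exact ⟨x, Or.inl ⟨hx', by exact_mod_cast (by omega : Q x = K)⟩⟩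
      · obtain ⟨x, hx, hx'⟩ := hsep (K - 1) K (by omega) (by omega) (by omega)
        refine ⟨x, ?_⟩
        by_cases h0 : 0 ∈ B x
        · right
          have h1 := (ht x h0 _).1 hx
          have h2 : P x ≤ K ∧ K < Q x := by
            by_contra h3
            exact hx' ((ht x h0 K).2 ⟨by omega, h3⟩)
          exact ⟨h0, by exact_mod_cast (by omega : P x = K)⟩
        · left
          have h1 := (hf x h0 _).1 hx
          have h2 : ¬ (P x ≤ K ∧ K < Q x) := fun h3 => hx' ((hf x h0 K).2 h3)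
          exact ⟨h0, by exact_mod_cast (by omega : Q x = K)⟩
    · -- starts
      intro k hk hkM
      obtain ⟨K, rfl⟩ : ∃ K : ℕ, k = (K : ℤ) := ⟨k.toNat, by omega⟩
      have hK1 : 1 ≤ K := by exact_mod_cast hk
      have hKM : K + 1 ≤ M := by
        have : (K : ℤ) + 1 ≤ M := by linarith
        exact_mod_cast this
      obtain ⟨x, hx, hx'⟩ := hsep K (K - 1) (by omega) (by omega) (by omega)
      refine ⟨x, ?_⟩
      by_cases h0 : 0 ∈ B x
      · right
        have h1 := (ht x h0 _).1 hx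
        have h2 : P x ≤ K - 1 ∧ K - 1 < Q x := by
          by_contra h3
          exact hx' ((ht x h0 (K - 1)).2 ⟨by omega, h3⟩)
        exact ⟨h0, by exact_mod_cast (by omega : Q x = K)⟩
      · left
        have h1 := (hf x h0 _).1 hx
        have h2 : ¬ (P x ≤ K - 1 ∧ K - 1 < Q x) := fun h3 => hx' ((hf x h0 (K - 1)).2 h3)
        exact ⟨h0, by exact_mod_cast (by omega : P x = K)⟩
  · obtain ⟨x, hx, hx'⟩ := hsep 0 1 (by omega) (by omega) (by omega)
    have h1 : P x ≤ 1 ∧ 1 < Q x := by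
      by_contra h3
      exact hx' ((ht x hx 1).2 ⟨by omega, h3⟩)
    have h2 := hP x
    refine ⟨x, hx, ?_⟩
    show (P x : ℤ) = 1
    omega
  · obtain ⟨x, hx, hx'⟩ := hsep 0 (M - 1) (by omega) (by omega) (by omega)
    have h1 : P x ≤ M - 1 ∧ M - 1 < Q x := by
      by_contra h3
      exact hx' ((ht x hx (M - 1)).2 ⟨by omega, h3⟩)
    have h2 := hQ x
    refine ⟨x, hx, ?_⟩
    show (Q x : ℤ) = M
    omega

theorem lin_iv [Finite V] [Nonempty V] {m : ℕ} {A : V → Set ℕ} (hF : Fam G m A)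
    (hn : ∀ x y, nb G x ⊆ nb G y → A x ⊆ A y)
    (hi : ∀ x, 0 ∉ A x ∧ ∃ p q : ℕ, q ≤ m ∧ A x = {i | p ≤ i ∧ i < q}) :
    ∃ (M : ℤ) (P Q : V → ℤ) (c : V → Prop), Lin G M P Q c ∧ ∀ x, ¬ c x := by
  classical
  obtain ⟨M, B, hB, hBlt, hsep, hcov, hBsub, hBi⟩ := compress hF
  have hnB : ∀ x y, nb G x ⊆ nb G y → B x ⊆ B y := fun x y h => hBsub x y (hn x y h)
  have hPQ : ∀ x, ∃ P Q : ℕ, P < Q ∧ Q ≤ M ∧ ∀ j, j ∈ B x ↔ P ≤ j ∧ j < Q := by
    intro x
    obtain ⟨p, q, hq, h⟩ := hBi x (hi x).2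
    obtain ⟨j₀, hj₀⟩ := hB.ne x
    have hm : ∀ j, j ∈ B x ↔ p ≤ j ∧ j < q := fun j => by rw [h]; rfl
    have h1 := (hm j₀).1 hj₀
    exact ⟨p, q, by omega, hq, hm⟩
  choose P Q hPQ' hQ hf using hPQ
  refine ⟨(M : ℤ) + 1, fun x => (P x : ℤ) + 1, fun x => (Q x : ℤ) + 1, fun _ => False, ?_,
    fun x h => h⟩
  refine ⟨fun x => by omega, fun x => by have := hPQ' x; omega, fun x => by
    have := hQ x; omega, ?_, ?_, ?_, ?_, ?_, ?_, ?_, ?_, ?_⟩
  · intro x y hxy _ _
    have h1 := hPQ' x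
    have h2 := hPQ' y
    rw [hB.adj]
    constructor
    · rintro ⟨-, j, hjx, hjy⟩
      have h3 := (hf x j).1 hjx
      have h4 := (hf y j).1 hjy
      constructor <;> omega
    · rintro ⟨h3, h4⟩
      exact ⟨hxy, max (P x) (P y), (hf x _).2 ⟨le_max_left _ _, by omega⟩,
        (hf y _).2 ⟨le_max_right _ _, by omega⟩⟩
  · intro x y _ h
    exact absurd h id
  · intro x y _ h
    exact absurd h id
  · intro x y _ _ hxy
    have h1 := hPQ' x
    have hs := hnB x y hxy
    have h3 := (hf y _).1 (hs ((hf x (P x)).2 ⟨le_refl _, h1⟩))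
    have h4 := (hf y _).1 (hs ((hf x (Q x - 1)).2 ⟨by omega, by omega⟩))
    constructor <;> omega
  · intro x y h
    exact absurd h id
  · intro x y _ h
    exact absurd h id
  · intro x y h
    exact absurd h id
  · intro k hk hkM
    obtain ⟨K, rfl⟩ : ∃ K : ℕ, k = (K : ℤ) := ⟨k.toNat, by omega⟩
    by_cases hKM' : K = M + 1
    · obtain ⟨x, hx⟩ := hcov (K - 2) (by omega)
      have h1 := (hf x _).1 hx
      have h2 := hQ x
      exact ⟨x, Or.inl ⟨id, by omega⟩⟩
    · obtain ⟨x, hx, hx'⟩ := hsep (K - 2) (K - 1) (by omega) (by omega) (by omega)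
      have h1 := (hf x _).1 hx
      have h2 : ¬ (P x ≤ K - 1 ∧ K - 1 < Q x) := fun h3 => hx' ((hf x (K - 1)).2 h3)
      exact ⟨x, Or.inl ⟨id, by omega⟩⟩
  · intro k hk hkM
    obtain ⟨K, rfl⟩ : ∃ K : ℕ, k = (K : ℤ) := ⟨k.toNat, by omega⟩
    by_cases hK1 : K = 1
    · obtain ⟨x, hx⟩ := hcov 0 (by omega)
      have h1 := (hf x _).1 hx
      exact ⟨x, Or.inl ⟨id, by omega⟩⟩
    · obtain ⟨x, hx, hx'⟩ := hsep (K - 1) (K - 2) (by omega) (by omega) (by omega)
      have h1 := (hf x _).1 hx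
      have h2 : ¬ (P x ≤ K - 2 ∧ K - 2 < Q x) := fun h3 => hx' ((hf x (K - 2)).2 h3)
      exact ⟨x, Or.inl ⟨id, by omega⟩⟩

end PCA38
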