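import Pool.Agent.Work.MP_38bec5_lc.T.Flg

set_option autoImplicit false

/-!
# Non (size M-L): anchors, definable flags and a nontrivial definable gap.

Facts from `Prm G`: (u) no universal vertex: `∀ x, ∃ z, z ∉ nb G x` (`Gᶜ` connected, `V` nontrivial).
(t) `nb G x = nb G y → x = y`: `{x, y}` is a module (a vertex `z ≠ x, y` is adjacent to `x` iff to `y`); if
`x ≠ y` then `{x, y} = univ`; `x, y` are adjacent (`x ∈ nb x = nb y`), so `x` is universal, contradiction.
(n) every vertex has a neighbour (`G` connected, `V` nontrivial).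
Write `p x = 2 P x`, `q x = 2 Q x - 1`, `r` for the relation given by `E` and the anchors.

`anchors_iv` (all flags false).  By `starts 1` (`m ≥ 2` since some `1 ≤ P x < Q x ≤ m`) there is `b` with
`P b = 1`.  `Q b < m`: if `Q b = m` then `I b` contains all intervals and `b` is universal (`adj_ff`).  Take
`j = 2 Q b - 1`, `2 ≤ j ≤ 2m - 2`.  `{q ≤ j} = {x | I x ⊆ I b} = {x | nb x ⊆ nb b}` (`P b = 1`; `sb_iff`, or
`n_ff` and its converse; equal intervals give equal neighbourhoods) and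
`{p ≤ j} = {x | ¬ (Q b ≤ P x)} = {x | x ∈ nb b}` (`adj_ff`).  Both are definable over the anchors `b, b` by
`b4_sub`, `b4_mem`, `b4_inv`.

`anchors_circ`.  Take `a₀` with `c a₀`, `P a₀ = 1` and `b₀` with `c b₀`, `Q b₀ = m` (from `Circ`).
CASE A: some `a` has `c a`, `P a = 1`, `Q a < m`.  Anchors `a, b₀`.  Flags: `flags_def`.  `j = 2 Q a - 1`
(`3 ≤ j ≤ 2m - 3`).  `{q ≤ j} = {x | I x ⊆ I a}`: for `c x`: iff `nb a ⊆ nb x`; for `¬ c x`: iff not adjacent to
`a` (`adj_ft`).  `{p ≤ j} = {x | ¬ (Q a ≤ P x)}`, i.e. not `Dis x a`, for `x ≠ a`; `dis_iff`: for `¬ c x`: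
`Dis ↔ nb x ⊆ nb a`; for `c x`: never; for `x = a` also not `Dis`, and the formula `¬ c x` and
`nb x ⊆ nb a` is false for `x = a`.  All these sets are definable: flags definable, and the relations
to the anchor `a` are transferred by `b4_adj`, `b4_sub`, `b4_inv`.
CASE B: some `b` has `c b`, `Q b = m`, `P b > 1`.  Anchors `a₀, b`; flags by `flags_def`.  `j = 2 P b - 1`
(`3 ≤ j ≤ 2m - 3`, as `P b < Q b = m`).  `{p ≤ j}` is the complement of `{x | P b ≤ P x} = {x | I x ⊆ I b}`
(`Q b = m`), definable as in case A; `{q ≤ j} = {x | Q x ≤ P b}` `= {x | Dis x b}` `= {x | ¬ c x, nb x ⊆ nb b}`.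
CASE C: neither.  Then all `a` with `c a`, `P a = 1` have `I a = [1, m)`, so equal neighbourhoods
(`adj_tt`, `adj_ft`: same intervals and flags), so `a₀` is the only one by (t); the same for `b₀`; and
`a₀ = b₀`.  No vertex `x ≠ a₀` has `c x` and (`P x = 1` or `Q x = m`).  Here `c x ↔ x ∈ nb a₀`: `→` `adj_tt`;
`←`: if `¬ c x` then `I x ⊆ [1, m) = I a₀`, not adjacent (`adj_ft`).  By `starts 1` there is `b` with `¬ c b`,
`P b = 1` (`c b`, `Q b = 1` is impossible).  Anchors `a₀, b`.  Flags are definable (`b4_mem`).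
`Q b < m`: suppose `Q b = m`; then `I b = [1, m)`.  Let `x` be a neighbour of `a₀` (n); `c x`, `x ≠ a₀`, so
`P x > 1` (or `Q x < m`), hence `I x ≠ [1,m)` and `G.Adj b x` (`adj_ft`: `I b ⊆ I x` is false).  The edge `b x` is
dominating: every `z` with `¬ c z` meets `I b` (`adj_ff`) or equals `b`; every `z` with `c z` is in `nb x`.
Contradiction to `NoDE`.  So `j = 2 Q b - 1` satisfies `3 ≤ j ≤ 2m - 3`.
`{q ≤ j} = {x | I x ⊆ I b}` (`P b = 1`): for `¬ c x`: iff `nb x ⊆ nb b` (`sb_iff` / `n_ff`; equal intervals and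
flags give equal neighbourhoods); for `c x`: never: `I x ⊆ I b` and `≠` is excluded by `sb_iff`; `I x = I b` would
give `P x = 1`, `x = a₀`, `I x = [1, m)`, `Q b = m`.  `{p ≤ j}` `= {x | ¬ Dis x b}`: `dis_iff` for `x ≠ b`: for `¬ c x`:
`Dis ↔` not adjacent; for `c x`: `Dis ↔ nb b ⊆ nb x`.  So `{p ≤ j}` is the set of `x` with
(`¬ c x` and `x ∈ nb b`) or (`c x` and `¬ nb b ⊆ nb x`).  Definable as before.
-/

namespace PCA38

variable {V : Type} {G : SimpleGraph V} {m : ℤ} {P Q : V → ℤ} {c : V → Prop}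

private theorem first_step {K : SimpleGraph V} (hK : K.Connected) {x y : V} (hxy : x ≠ y) :
    ∃ u, K.Adj x u := by
  obtain ⟨p⟩ := hK.preconnected x y
  cases p with
  | nil => exact absurd rfl hxy
  | cons h _ => exact ⟨_, h⟩

theorem prm_univ (hp : Prm G) : ∀ x, ∃ z, z ∉ nb G x := by
  intro x
  have := hp.nt
  obtain ⟨y, hy⟩ := exists_ne x
  obtain ⟨u, hu⟩ := first_step hp.coconn (Ne.symm hy)
  rw [SimpleGraph.compl_adj] at hu
  refine ⟨u, ?_⟩
  rintro (h | h)
  · exact hu.1 h.symm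
  · exact hu.2 h

theorem prm_twin (hp : Prm G) {x y : V} (h : nb G x = nb G y) : x = y := by
  have key : ∀ z, z ≠ x → z ≠ y → (G.Adj z x ↔ G.Adj z y) := by
    intro z hx hy
    have h1 : z ∈ nb G x ↔ z ∈ nb G y := by rw [h]
    have h2 : z ∈ nb G x ↔ G.Adj x z := by
      constructor
      · rintro (h | h)
        · exact absurd h hx
        · exact h
      · exact Or.inr
    have h3 : z ∈ nb G y ↔ G.Adj y z := by
      constructor
      · rintro (h | h)
        · exact absurd h hy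
        · exact h
      · exact Or.inr
    rw [h2, h3] at h1
    rw [G.adj_comm z x, G.adj_comm z y]
    exact h1
  have hmod : IsMod G {z | z = x ∨ z = y} := by
    intro z hz u v hu hv
    have hz' : ¬ (z = x ∨ z = y) := hz
    push Not at hz'
    rcases hu with rfl | rfl <;> rcases hv with rfl | rfl
    · exact Iff.rfl
    · exact key z hz'.1 hz'.2
    · exact (key z hz'.1 hz'.2).symm
    · exact Iff.rfl
  rcases hp.mod _ hmod with h1 | h1
  · exact h1 (Or.inl rfl) (Or.inr rfl)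
  · by_contra hxy
    have h2 : x ∈ nb G y := by
      rw [← h]
      exact Or.inl rfl
    rcases h2 with h2 | h2
    · exact hxy h2
    · obtain ⟨z, hz⟩ := prm_univ hp y
      have h3 : z ∈ ({z | z = x ∨ z = y} : Set V) := by
        rw [h1]
        trivial
      rcases h3 with rfl | rfl
      · exact hz (Or.inr h2)
      · exact hz (Or.inl rfl)

private theorem flag_sub (L : Lin G m P Q c) {x y : V} (hx : c x) (hy : c y)
    (h : P y ≤ P x ∧ Q x ≤ Q y) : nb G y ⊆ nb G x := by
  intro z hz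
  have hz' : z = y ∨ G.Adj y z := hz
  show z = x ∨ G.Adj x z
  by_cases hzx : z = x
  · exact Or.inl hzx
  right
  by_cases hcz : c z
  · exact L.adj_tt x z (Ne.symm hzx) hx hcz
  · rcases hz' with rfl | hz'
    · exact absurd hy hcz
    · have h3 := (L.adj_ft z y hcz hy).1 hz'.symm
      exact ((L.adj_ft z x hcz hx).2 (by omega)).symm

private theorem unflag_sub (L : Lin G m P Q c) {x y : V} (hx : ¬ c x) (hy : ¬ c y)
    (h : P y ≤ P x ∧ Q x ≤ Q y) : nb G x ⊆ nb G y := by
  intro z hz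
  have lx := L.lt x
  have ly := L.lt y
  have hz' : z = x ∨ G.Adj x z := hz
  show z = y ∨ G.Adj y z
  by_cases hzy : z = y
  · exact Or.inl hzy
  right
  by_cases hcz : c z
  · rcases hz' with rfl | hz'
    · exact absurd hcz hx
    · have h3 := (L.adj_ft x z hx hcz).1 hz'
      exact (L.adj_ft y z hy hcz).2 (by omega)
  · rcases hz' with rfl | hz'
    · exact (L.adj_ff y z (Ne.symm hzy) hy hcz).2 (by omega)
    · have h3 := (L.adj_ff x z hz'.ne hx hcz).1 hz'
      exact (L.adj_ff y z (Ne.symm hzy) hy hcz).2 (by omega)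

private theorem m_ge (L : Lin G m P Q c) (hp : Prm G) : 2 ≤ m := by
  have := hp.nt
  obtain ⟨x, -⟩ := exists_pair_ne V
  have := L.one_le x
  have := L.lt x
  have := L.le x
  omega

theorem anchors_iv (L : Lin G m P Q c) (hp : Prm G) (hc : ∀ x, ¬ c x) :
    ∃ a b : V, ∀ E : V → V → V → V → V → V → Prop, Bis4 G G E →
      Df (fun z₁ z₂ => E a b z₁ a b z₂) {x | c x} ∧ ∃ j : ℤ, 2 ≤ j ∧ j ≤ 2 * m - 2 ∧
        gD (fun x => 2 * P x) (fun x => 2 * Q x - 1) (fun z₁ z₂ => E a b z₁ a b z₂) j := by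
  have hm := m_ge L hp
  obtain ⟨b, hb⟩ := L.starts 1 (le_refl _) (by omega)
  have hb1 : P b = 1 := by
    rcases hb with h | h
    · exact h.2
    · exact absurd h.1 (hc b)
  have lb := L.lt b
  have hb2 : Q b < m := by
    by_contra hcon
    obtain ⟨z, hz⟩ := prm_univ hp b
    have hz' : ¬ (z = b ∨ G.Adj b z) := hz
    push Not at hz'
    have := L.lt z
    have := L.le z
    have := L.one_le z
    exact hz'.2 ((L.adj_ff b z (Ne.symm hz'.1) (hc b) (hc z)).2 (by omega))
  refine ⟨b, b, fun E hE => ⟨?_, 2 * Q b - 1, by omega, by omega, ?_, ?_⟩⟩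
  · intro z₁ z₂ _
    exact iff_of_false (hc z₁) (hc z₂)
  · have key : ∀ x, 2 * P x ≤ 2 * Q b - 1 ↔ x ∈ nb G b := by
      intro x
      have lx := L.lt x
      have ox := L.one_le x
      constructor
      · intro h
        by_cases hxb : x = b
        · exact Or.inl hxb
        · exact Or.inr ((L.adj_ff b x (Ne.symm hxb) (hc b) (hc x)).2 (by omega))
      · rintro (rfl | h)
        · omega
        · have := (L.adj_ff b x h.ne (hc b) (hc x)).1 h
          omega
    intro z₁ z₂ h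
    show 2 * P z₁ ≤ 2 * Q b - 1 ↔ 2 * P z₂ ≤ 2 * Q b - 1
    rw [key, key]
    exact (b4_inv hE (b4_mem hE) h).2.2.1
  · have key : ∀ x, 2 * Q x - 1 ≤ 2 * Q b - 1 ↔ nb G x ⊆ nb G b := by
      intro x
      have ox := L.one_le x
      constructor
      · intro h
        exact unflag_sub L (hc x) (hc b) (by omega)
      · intro h
        have := L.n_ff x b (hc x) (hc b) h
        omega
    intro z₁ z₂ h
    show 2 * Q z₁ - 1 ≤ 2 * Q b - 1 ↔ 2 * Q z₂ - 1 ≤ 2 * Q b - 1
    rw [key, key]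
    exact (b4_inv hE (b4_sub hE) h).2.2.2.1

/-- `I x ⊆ I a` for a flagged vertex `a`, in terms of the graph. -/
private theorem in_flag (L : Lin G m P Q c) {a : V} (ha : c a) (x : V) :
    (P a ≤ P x ∧ Q x ≤ Q a) ↔ ((c x ∧ nb G a ⊆ nb G x) ∨ (¬ c x ∧ ¬ G.Adj x a)) := by
  by_cases hx : c x
  · constructor
    · intro h
      exact Or.inl ⟨hx, flag_sub L hx ha h⟩
    · rintro (⟨-, h⟩ | ⟨h, -⟩)
      · exact L.n_tt a x ha hx h
      · exact absurd hx h
  · have h1 := L.adj_ft x a hx ha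
    constructor
    · intro h
      exact Or.inr ⟨hx, fun h2 => (h1.1 h2) h⟩
    · rintro (⟨h, -⟩ | ⟨-, h⟩)
      · exact absurd h hx
      · by_contra h2
        exact h (h1.2 h2)

/-- Disjointness from a flagged vertex. -/
private theorem dis_flag (L : Lin G m P Q c) (hN : NoDE G) {a : V} (ha : c a) (x : V) :
    (Q x ≤ P a ∨ Q a ≤ P x) ↔ (¬ c x ∧ nb G x ⊆ nb G a) := by
  by_cases hx : c x
  · constructor
    · intro h
      exfalso
      have hne : x ≠ a := by
        rintro rfl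
        have := L.lt x
        omega
      have hD : Dis (fun x => 2 * P x) (fun x => 2 * Q x - 1) x a := by
        rcases h with h | h
        · left
          dsimp only
          omega
        · right
          dsimp only
          omega
      rcases (dis_iff L (Or.inl hN) hne).1 hD with ⟨g, -⟩ | ⟨g, -⟩ | ⟨-, g, -⟩
      · exact g hx
      · exact g hx
      · exact g ha
    · rintro ⟨h, -⟩
      exact absurd hx h
  · constructor
    · intro h
      exact ⟨hx, lin_nb L hx ha h⟩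
    · rintro ⟨-, h⟩
      exact L.n_ft x a hx ha h

private theorem caseC (L : Lin G m P Q c) (hp : Prm G) (hC : Circ G m P Q c)
    (hA : ¬ ∃ a, c a ∧ P a = 1 ∧ Q a < m) (hB : ¬ ∃ b, c b ∧ Q b = m ∧ 1 < P b) :
    ∃ a b : V, ∀ E : V → V → V → V → V → V → Prop, Bis4 G G E →
      Df (fun z₁ z₂ => E a b z₁ a b z₂) {x | c x} ∧ ∃ j : ℤ, 2 ≤ j ∧ j ≤ 2 * m - 2 ∧
        gD (fun x => 2 * P x) (fun x => 2 * Q x - 1) (fun z₁ z₂ => E a b z₁ a b z₂) j := by
  have hm := m_ge L hp
  obtain ⟨hN, ⟨a, ha1, ha2⟩, -⟩ := hC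
  have ha3 : Q a = m := by
    by_contra h
    have := L.le a
    exact hA ⟨a, ha1, ha2, by omega⟩
  have huniq : ∀ x, c x → P x = 1 → x = a := by
    intro x hx h1
    have h2 : Q x = m := by
      by_contra h
      have := L.le x
      exact hA ⟨x, hx, h1, by omega⟩
    exact prm_twin hp (Set.Subset.antisymm (flag_sub L ha1 hx (by omega))
      (flag_sub L hx ha1 (by omega)))
  have hflag : ∀ x, c x ↔ x ∈ nb G a := by
    intro x
    have ox := L.one_le x
    have mx := L.le x
    constructor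
    · intro hx
      by_cases h : x = a
      · exact Or.inl h
      · exact Or.inr (L.adj_tt a x (Ne.symm h) ha1 hx)
    · intro h
      by_contra hx
      rcases h with rfl | h
      · exact hx ha1
      · exact (L.adj_ft x a hx ha1).1 h.symm (by omega)
  obtain ⟨b, hb⟩ := L.starts 1 (le_refl _) (by omega)
  have lb := L.lt b
  have ob := L.one_le b
  have hb' : ¬ c b ∧ P b = 1 := by
    rcases hb with h | h
    · exact h
    · omega
  obtain ⟨hb1, hb2⟩ := hb'
  have hb3 : Q b < m := by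
    by_contra hcon
    have := hp.nt
    obtain ⟨y, hy⟩ := exists_ne a
    obtain ⟨u, hu⟩ := first_step hp.conn (Ne.symm hy)
    have hcu : c u := (hflag u).2 (Or.inr hu)
    have hPu : P u ≠ 1 := fun h => hu.ne (huniq u hcu h).symm
    have ou := L.one_le u
    have hadj : G.Adj b u := (L.adj_ft b u hb1 hcu).2 (by omega)
    obtain ⟨z, hz1, hz2⟩ := hN b u hadj
    have hz3 : ¬ (z = b ∨ G.Adj b z) := hz1
    have hz4 : ¬ (z = u ∨ G.Adj u z) := hz2
    push Not at hz3 hz4
    have hcz : ¬ c z := fun hcz => hz4.2 (L.adj_tt u z (Ne.symm hz4.1) hcu hcz)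
    have := L.lt z
    have := L.le z
    have := L.one_le z
    exact hz3.2 ((L.adj_ff b z (Ne.symm hz3.1) hb1 hcz).2 (by omega))
  refine ⟨a, b, fun E hE => ⟨?_, 2 * Q b - 1, by omega, by omega, ?_, ?_⟩⟩
  · intro z₁ z₂ h
    show c z₁ ↔ c z₂
    rw [hflag, hflag]
    exact (b4_inv hE (b4_mem hE) h).2.2.1
  · have key : ∀ x, 2 * P x ≤ 2 * Q b - 1 ↔
        ((¬ x ∈ nb G a ∧ x ∈ nb G b) ∨ (x ∈ nb G a ∧ ¬ nb G b ⊆ nb G x)) := by
      intro x
      have lx := L.lt x
      have ox := L.one_le x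
      rw [← hflag]
      by_cases hx : c x
      · constructor
        · intro h
          refine Or.inr ⟨hx, fun h2 => ?_⟩
          have := L.n_ft b x hb1 hx h2
          omega
        · rintro (⟨h, -⟩ | ⟨-, h⟩)
          · exact absurd hx h
          · by_contra h2
            exact h (lin_nb L hb1 hx (by omega))
      · constructor
        · intro h
          refine Or.inl ⟨hx, ?_⟩
          by_cases hxb : x = b
          · exact Or.inl hxb
          · exact Or.inr ((L.adj_ff b x (Ne.symm hxb) hb1 hx).2 (by omega))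
        · rintro (⟨-, h⟩ | ⟨h, -⟩)
          · rcases h with rfl | h
            · omega
            · have := (L.adj_ff b x h.ne hb1 hx).1 h
              omega
          · exact absurd h hx
    intro z₁ z₂ h
    show 2 * P z₁ ≤ 2 * Q b - 1 ↔ 2 * P z₂ ≤ 2 * Q b - 1
    rw [key, key]
    have m1 := b4_inv hE (b4_mem hE) h
    have s1 := b4_inv hE (b4_sub hE) h
    rw [m1.2.2.1, m1.2.2.2.2.1, s1.2.2.2.2.1]
  · have key : ∀ x, 2 * Q x - 1 ≤ 2 * Q b - 1 ↔ (¬ x ∈ nb G a ∧ nb G x ⊆ nb G b) := by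
      intro x
      have ox := L.one_le x
      rw [← hflag]
      by_cases hx : c x
      · constructor
        · intro h
          exfalso
          have hne : ¬ Eq2 (fun x => 2 * P x) (fun x => 2 * Q x - 1) x b := by
            intro hE2
            unfold Eq2 at hE2
            dsimp only at hE2
            have : x = a := huniq x hx (by omega)
            subst this
            omega
          have hS : Sb (fun x => 2 * P x) (fun x => 2 * Q x - 1) x b := by
            constructor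
            · dsimp only
              omega
            · dsimp only
              omega
          rcases (sb_iff L (Or.inl hN) hne).1 hS with ⟨g, -⟩ | ⟨-, g, -⟩ | ⟨g, -⟩
          · exact g hx
          · exact hb1 g
          · exact g hx
        · rintro ⟨h, -⟩
          exact absurd hx h
      · constructor
        · intro h
          exact ⟨hx, unflag_sub L hx hb1 (by omega)⟩
        · rintro ⟨-, h⟩
          have := L.n_ff x b hx hb1 h
          omega
    intro z₁ z₂ h
    show 2 * Q z₁ - 1 ≤ 2 * Q b - 1 ↔ 2 * Q z₂ - 1 ≤ 2 * Q b - 1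
    rw [key, key]
    have m1 := b4_inv hE (b4_mem hE) h
    have s1 := b4_inv hE (b4_sub hE) h
    rw [m1.2.2.1, s1.2.2.2.2.2]

theorem anchors_circ (L : Lin G m P Q c) (hp : Prm G) (hC : Circ G m P Q c) :
    ∃ a b : V, ∀ E : V → V → V → V → V → V → Prop, Bis4 G G E →
      Df (fun z₁ z₂ => E a b z₁ a b z₂) {x | c x} ∧ ∃ j : ℤ, 2 ≤ j ∧ j ≤ 2 * m - 2 ∧
        gD (fun x => 2 * P x) (fun x => 2 * Q x - 1) (fun z₁ z₂ => E a b z₁ a b z₂) j := by
  by_cases hA : ∃ a, c a ∧ P a = 1 ∧ Q a < m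
  · obtain ⟨a, ha1, ha2, ha3⟩ := hA
    obtain ⟨hN, -, ⟨b, hb1, hb2⟩⟩ := hC
    have la := L.lt a
    refine ⟨a, b, fun E hE => ?_⟩
    have hfl := flags_def L hN (prm_univ hp) ⟨ha1, ha2⟩ ⟨hb1, hb2⟩ hE
    refine ⟨hfl, 2 * Q a - 1, by omega, by omega, ?_, ?_⟩
    · have key : ∀ x, 2 * P x ≤ 2 * Q a - 1 ↔ ¬ (¬ c x ∧ nb G x ⊆ nb G a) := by
        intro x
        have := L.one_le x
        have := L.lt x
        rw [← dis_flag L hN ha1 x]
        omega
      intro z₁ z₂ h
      show 2 * P z₁ ≤ 2 * Q a - 1 ↔ 2 * P z₂ ≤ 2 * Q a - 1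
      have hc : c z₁ ↔ c z₂ := hfl z₁ z₂ h
      have s1 := b4_inv hE (b4_sub hE) h
      rw [key, key, hc, s1.2.2.2.1]
    · have key : ∀ x, 2 * Q x - 1 ≤ 2 * Q a - 1 ↔
          ((c x ∧ nb G a ⊆ nb G x) ∨ (¬ c x ∧ ¬ G.Adj x a)) := by
        intro x
        have := L.one_le x
        rw [← in_flag L ha1 x]
        omega
      intro z₁ z₂ h
      show 2 * Q z₁ - 1 ≤ 2 * Q a - 1 ↔ 2 * Q z₂ - 1 ≤ 2 * Q a - 1
      have hc : c z₁ ↔ c z₂ := hfl z₁ z₂ h
      have s1 := b4_inv hE (b4_sub hE) h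
      have a1 := b4_inv hE (b4_adj hE) h
      rw [key, key, hc, s1.2.2.1, a1.2.2.2.1]
  by_cases hB : ∃ b, c b ∧ Q b = m ∧ 1 < P b
  · obtain ⟨b, hb1, hb2, hb3⟩ := hB
    obtain ⟨hN, ⟨a, ha1, ha2⟩, -⟩ := hC
    have lb := L.lt b
    refine ⟨a, b, fun E hE => ?_⟩
    have hfl := flags_def L hN (prm_univ hp) ⟨ha1, ha2⟩ ⟨hb1, hb2⟩ hE
    refine ⟨hfl, 2 * P b - 1, by omega, by omega, ?_, ?_⟩
    · have key : ∀ x, 2 * P x ≤ 2 * P b - 1 ↔
          ¬ ((c x ∧ nb G b ⊆ nb G x) ∨ (¬ c x ∧ ¬ G.Adj x b)) := by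
        intro x
        have := L.le x
        rw [← in_flag L hb1 x]
        omega
      intro z₁ z₂ h
      show 2 * P z₁ ≤ 2 * P b - 1 ↔ 2 * P z₂ ≤ 2 * P b - 1
      have hc : c z₁ ↔ c z₂ := hfl z₁ z₂ h
      have s1 := b4_inv hE (b4_sub hE) h
      have a1 := b4_inv hE (b4_adj hE) h
      rw [key, key, hc, s1.2.2.2.2.1, a1.2.2.2.2.2]
    · have key : ∀ x, 2 * Q x - 1 ≤ 2 * P b - 1 ↔ (¬ c x ∧ nb G x ⊆ nb G b) := by
        intro x
        have := L.le x
        have := L.lt x
        rw [← dis_flag L hN hb1 x]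
        omega
      intro z₁ z₂ h
      show 2 * Q z₁ - 1 ≤ 2 * P b - 1 ↔ 2 * Q z₂ - 1 ≤ 2 * P b - 1
      have hc : c z₁ ↔ c z₂ := hfl z₁ z₂ h
      have s1 := b4_inv hE (b4_sub hE) h
      rw [key, key, hc, s1.2.2.2.2.2]
  · exact caseC L hp hC hA hB

end PCA38
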