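import Pool.Agent.Work.MP_38bec5_lc.T.TL
import Pool.Agent.Work.MP_38bec5_lc.T.J5
import Pool.Agent.Work.MP_38bec5_lc.T.Non
import Pool.Agent.Work.MP_38bec5_lc.T.FamA
import Pool.Agent.Work.MP_38bec5_lc.T.FamB
import Pool.Agent.Work.MP_38bec5_lc.T.LinA

set_option autoImplicit false

/-!
# Core (size S-M): prime graphs: two anchors make all vertices different.

PROOF.  `V` is nonempty.  `prm_univ hp` gives `hu`.
Circular case (`IsCA G`, `NoDE G`): `fam_of_ca`, `fam_norm`, `lin_circ` give `L : Lin G m P Q c` and `Circ`.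
`anchors_circ` gives `a, b`.  Let `F` be a `Bis4 G G` and `F a b z₁ a b z₂`.  `sys_of_lin` gives the system
`Sys`, `sys_discrete` gives `P z₁ = P z₂`, `Q z₁ = Q z₂`, and `c z₁ ↔ c z₂` by the definability of the flags.
Hence `nb z₁ = nb z₂`: by the adjacency rules (`adj_ff`, `adj_tt`, `adj_ft`) a third vertex `u` is adjacent
to `z₁` iff to `z₂`; and `z₁, z₂` are equal or adjacent (both flagged: `adj_tt`; both unflagged: the same
nonempty interval, `adj_ff`).  So `z₁ = z₂` by `prm_twin`.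
Interval case: `fam_of_iv`, `fam_norm_iv`, `lin_iv`, `anchors_iv`, the same end.
-/

namespace PCA38

private theorem same_nb {V : Type} {G : SimpleGraph V} {m : ℤ} {P Q : V → ℤ} {c : V → Prop}
    (L : Lin G m P Q c) {z₁ z₂ : V} (hc : c z₁ ↔ c z₂) (hP : P z₁ = P z₂) (hQ : Q z₁ = Q z₂) :
    nb G z₁ ⊆ nb G z₂ := by
  intro u hu
  have hz : z₁ = z₂ ∨ G.Adj z₂ z₁ := by
    by_cases h : z₁ = z₂
    · exact Or.inl h
    right
    by_cases h1 : c z₁
    · exact L.adj_tt z₂ z₁ (Ne.symm h) (hc.1 h1) h1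
    · have h2 : ¬ c z₂ := fun h2 => h1 (hc.2 h2)
      rw [L.adj_ff z₂ z₁ (Ne.symm h) h2 h1]
      have := L.lt z₁
      have := L.lt z₂
      constructor <;> omega
  have hu' : u = z₁ ∨ G.Adj z₁ u := hu
  show u = z₂ ∨ G.Adj z₂ u
  rcases hu' with rfl | hu'
  · exact hz
  by_cases hu2 : u = z₂
  · exact Or.inl hu2
  right
  have hne1 : z₁ ≠ u := hu'.ne
  have hne2 : z₂ ≠ u := fun h => hu2 h.symm
  by_cases hcu : c u
  · by_cases h1 : c z₁
    · exact L.adj_tt z₂ u hne2 (hc.1 h1) hcu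
    · have h2 : ¬ c z₂ := fun h2 => h1 (hc.2 h2)
      have := (L.adj_ft z₁ u h1 hcu).1 hu'
      rw [L.adj_ft z₂ u h2 hcu, ← hP, ← hQ]
      exact this
  · by_cases h1 : c z₁
    · have h2 := hc.1 h1
      have := (L.adj_ft u z₁ hcu h1).1 hu'.symm
      apply SimpleGraph.Adj.symm
      rw [L.adj_ft u z₂ hcu h2, ← hP, ← hQ]
      exact this
    · have h2 : ¬ c z₂ := fun h2 => h1 (hc.2 h2)
      have := (L.adj_ff z₁ u hne1 h1 hcu).1 hu'
      rw [L.adj_ff z₂ u hne2 h2 hcu, ← hP, ← hQ]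
      exact this

private theorem fin_core {V : Type} [Finite V] {G : SimpleGraph V} (hp : Prm G) {m : ℤ}
    {P Q : V → ℤ} {c : V → Prop} (L : Lin G m P Q c) (hC : Circ G m P Q c ∨ ∀ x, ¬ c x)
    (h : ∃ a b : V, ∀ E : V → V → V → V → V → V → Prop, Bis4 G G E →
      Df (fun z₁ z₂ => E a b z₁ a b z₂) {x | c x} ∧ ∃ j : ℤ, 2 ≤ j ∧ j ≤ 2 * m - 2 ∧
        gD (fun x => 2 * P x) (fun x => 2 * Q x - 1) (fun z₁ z₂ => E a b z₁ a b z₂) j) :
    ∃ a b : V, ∀ F : V → V → V → V → V → V → Prop, Bis4 G G F →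
      ∀ z₁ z₂, F a b z₁ a b z₂ → z₁ = z₂ := by
  obtain ⟨a, b, hab⟩ := h
  refine ⟨a, b, fun F hF z₁ z₂ hz => ?_⟩
  obtain ⟨hfl, j, hj1, hj2, hg⟩ := hab F hF
  have S := sys_of_lin L hp hC hF a b hfl
  have h3 := sys_discrete S hg hj1 hj2 (z₁ := z₁) (z₂ := z₂) hz
  have hP : P z₁ = P z₂ := by
    have := h3.1
    omega
  have hQ : Q z₁ = Q z₂ := by
    have := h3.2
    omega
  have hc : c z₁ ↔ c z₂ := hfl z₁ z₂ hz
  exact prm_twin hp (Set.Subset.antisymm (same_nb L hc hP hQ) (same_nb L hc.symm hP.symm hQ.symm))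

theorem rows_discrete {V : Type} [Finite V] {G : SimpleGraph V} (hp : Prm G)
    (h : IsIv G ∨ (IsCA G ∧ NoDE G)) :
    ∃ a b : V, ∀ F : V → V → V → V → V → V → Prop, Bis4 G G F →
      ∀ z₁ z₂, F a b z₁ a b z₂ → z₁ = z₂ := by
  have := hp.nt
  have hu := prm_univ hp
  rcases h with h | ⟨h, hN⟩
  · obtain ⟨m, A, hF, hi⟩ := fam_of_iv h
    obtain ⟨A', hF', hn, hi'⟩ := fam_norm_iv hF hi
    obtain ⟨M, P, Q, c, L, hc⟩ := lin_iv hF' hn hi'
    exact fin_core hp L (Or.inr hc) (anchors_iv L hp hc)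
  · obtain ⟨m, A, hF⟩ := fam_of_ca h
    obtain ⟨A', hF', hn⟩ := fam_norm hF hu
    obtain ⟨M, P, Q, c, L, h1, h2⟩ := lin_circ hF' hn hu
    have hC : Circ G M P Q c := ⟨hN, h1, h2⟩
    exact fin_core hp L (Or.inl hC) (anchors_circ L hp hC)

end PCA38
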