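import Pool.Agent.Work.MP_38bec5_lc.P.Defs

set_option autoImplicit false

/-!
# Circular-arc graphs without a dominating edge: definitions (FIXED, do not edit)

Goal of part T: every circular-arc graph in which no edge is dominating (and every interval graph)
is defined by one sentence of `C^4` among all finite graphs (`W^# ≤ 4`).
-/

namespace PCA38

/-! ## The four pebble game -/

/-- A back-and-forth system for the bijective 4-pebble game (equivalence for `C^4`). -/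
structure Bis4 {V W : Type} (G : SimpleGraph V) (H : SimpleGraph W)
    (E : V → V → V → W → W → W → Prop) : Prop where
  start : ∃ f : V ≃ W, ∀ z, E z z z (f z) (f z) (f z)
  eq : ∀ x y z x' y' z', E x y z x' y' z' → (x = y ↔ x' = y')
  adj : ∀ x y z x' y' z', E x y z x' y' z' → (G.Adj x y ↔ H.Adj x' y')
  swap : ∀ x y z x' y' z', E x y z x' y' z' → E y x z y' x' z' ∧ E x z y x' z' y'
  ext : ∀ x y z x' y' z', E x y z x' y' z' → ∃ f : V ≃ W, ∀ w,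
    E x y w x' y' (f w) ∧ E x w z x' (f w) z' ∧ E w y z (f w) y' z'

/-- `G` is identified by the 4-pebble game. -/
def Idf4 {V : Type} (G : SimpleGraph V) : Prop :=
  ∀ (W : Type) [Finite W] (H : SimpleGraph W) (E : V → V → V → W → W → W → Prop),
    Bis4 G H E → Nonempty (G ≃g H)

/-- A pair of binary relations invariant under the game. -/
def Inv2 {V W : Type} (E : V → V → V → W → W → W → Prop) (ρ : V → V → Prop)
    (ρ' : W → W → Prop) : Prop :=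
  ∀ x y z x' y' z', E x y z x' y' z' → (ρ x y ↔ ρ' x' y')

/-! ## Circular-arc graphs -/

/-- Interval graph, in circle form: the arcs do not cover the point `p`. -/
def IsIv {V : Type} (G : SimpleGraph V) : Prop :=
  ∃ s l : V → ℝ, (∀ v, 0 ≤ l v) ∧ (∃ p : AddCircle (1 : ℝ), ∀ v, p ∉ arc (s v) (l v)) ∧
    ∀ u v, G.Adj u v ↔ u ≠ v ∧ (arc (s u) (l u) ∩ arc (s v) (l v)).Nonempty

/-- No edge of `G` is dominating. -/
def NoDE {V : Type} (G : SimpleGraph V) : Prop :=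
  ∀ x y, G.Adj x y → ∃ z, z ∉ nb G x ∧ z ∉ nb G y

/-! ## Modules -/

/-- Module. -/
def IsMod {V : Type} (G : SimpleGraph V) (M : Set V) : Prop :=
  ∀ z, z ∉ M → ∀ x y, x ∈ M → y ∈ M → (G.Adj z x ↔ G.Adj z y)

/-- `x, y` lie in a common proper module. -/
def SM {V : Type} (G : SimpleGraph V) (x y : V) : Prop :=
  ∃ M : Set V, IsMod G M ∧ M ≠ Set.univ ∧ x ∈ M ∧ y ∈ M

/-- Quotient graph. -/
def quo {V : Type} (G : SimpleGraph V) (s : Setoid V) : SimpleGraph (Quotient s) where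
  Adj X Y := X ≠ Y ∧ ∃ x y, (Quotient.mk s x = X) ∧ (Quotient.mk s y = Y) ∧ G.Adj x y
  symm := ⟨fun X Y h => ⟨h.1.symm, by obtain ⟨x, y, hx, hy, ha⟩ := h.2; exact ⟨y, x, hy, hx, ha.symm⟩⟩⟩
  loopless := ⟨fun X h => h.1 rfl⟩

/-- The classes of `s` are modules (pairs in different classes). -/
def Cong {V : Type} (G : SimpleGraph V) (s : Setoid V) : Prop :=
  ∀ x y x₂ y₂, s.r x x₂ → s.r y y₂ → ¬ s.r x y → (G.Adj x y ↔ G.Adj x₂ y₂)

/-- Prime in the weak sense used here: connected, co-connected, only trivial modules. -/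
structure Prm {V : Type} (G : SimpleGraph V) : Prop where
  nt : Nontrivial V
  conn : G.Connected
  coconn : Gᶜ.Connected
  mod : ∀ M : Set V, IsMod G M → M.Subsingleton ∨ M = Set.univ

/-! ## Discrete models -/

/-- Cyclic interval of the points `0, ..., m-1`: an interval or the complement of an interval. -/
def Cyc (m : ℕ) (B : Set ℕ) : Prop :=
  (∃ p q : ℕ, q ≤ m ∧ B = {i | p ≤ i ∧ i < q}) ∨
    (∃ p q : ℕ, q ≤ m ∧ B = {i | i < m ∧ ¬ (p ≤ i ∧ i < q)})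

/-- A family of cyclic intervals representing `G`. -/
structure Fam {V : Type} (G : SimpleGraph V) (m : ℕ) (A : V → Set ℕ) : Prop where
  cyc : ∀ x, Cyc m (A x)
  ne : ∀ x, (A x).Nonempty
  adj : ∀ x y, G.Adj x y ↔ x ≠ y ∧ (A x ∩ A y).Nonempty

/-- Linear flagged model.  The circle is cut at the point `0`; there are points `0, ..., m-1` and
cuts `1, ..., m`, cut `k` lies between the points `k-1` and `k` (modulo `m`).  The arc of `x` consists
of the points `j` with `P x ≤ j < Q x` if `¬ c x`, and of all other points if `c x`. -/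
structure Lin {V : Type} (G : SimpleGraph V) (m : ℤ) (P Q : V → ℤ) (c : V → Prop) : Prop where
  one_le : ∀ x, 1 ≤ P x
  lt : ∀ x, P x < Q x
  le : ∀ x, Q x ≤ m
  adj_ff : ∀ x y, x ≠ y → ¬ c x → ¬ c y → (G.Adj x y ↔ P x < Q y ∧ P y < Q x)
  adj_tt : ∀ x y, x ≠ y → c x → c y → G.Adj x y
  adj_ft : ∀ x y, ¬ c x → c y → (G.Adj x y ↔ ¬ (P y ≤ P x ∧ Q x ≤ Q y))
  n_ff : ∀ x y, ¬ c x → ¬ c y → nb G x ⊆ nb G y → P y ≤ P x ∧ Q x ≤ Q y
  n_tt : ∀ x y, c x → c y → nb G x ⊆ nb G y → P x ≤ P y ∧ Q y ≤ Q x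
  n_ft : ∀ x y, ¬ c x → c y → nb G x ⊆ nb G y → Q x ≤ P y ∨ Q y ≤ P x
  n_tf : ∀ x y, c x → ¬ c y → ¬ nb G x ⊆ nb G y
  ends : ∀ k : ℤ, 2 ≤ k → k ≤ m → ∃ x, (¬ c x ∧ Q x = k) ∨ (c x ∧ P x = k)
  starts : ∀ k : ℤ, 1 ≤ k → k ≤ m - 1 → ∃ x, (¬ c x ∧ P x = k) ∨ (c x ∧ Q x = k)

/-- The circular case: cuts `1` and `m` also carry an end and a start, no dominating edge. -/
def Circ {V : Type} (G : SimpleGraph V) (m : ℤ) (P Q : V → ℤ) (c : V → Prop) : Prop :=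
  NoDE G ∧ (∃ x, c x ∧ P x = 1) ∧ (∃ x, c x ∧ Q x = m)

/-! ## The abstract cell system -/

/-- The intervals `[p x, q x]`, `[p y, q y]` are disjoint. -/
def Dis {V : Type} (p q : V → ℤ) (x y : V) : Prop := q x < p y ∨ q y < p x

/-- `[p x, q x] ⊆ [p y, q y]`. -/
def Sb {V : Type} (p q : V → ℤ) (x y : V) : Prop := p y ≤ p x ∧ q x ≤ q y

/-- Equal intervals. -/
def Eq2 {V : Type} (p q : V → ℤ) (x y : V) : Prop := p x = p y ∧ q x = q y

/-- A set is definable if it is a union of classes of `r`. -/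
def Df {V : Type} (r : V → V → Prop) (X : Set V) : Prop := ∀ z₁ z₂, r z₁ z₂ → (z₁ ∈ X ↔ z₂ ∈ X)

/-- The gap after position `j` is definable. -/
def gD {V : Type} (p q : V → ℤ) (r : V → V → Prop) (j : ℤ) : Prop :=
  Df r {x | p x ≤ j} ∧ Df r {x | q x ≤ j}

/-- The abstract cell system: positions `1, ..., 2m`; starts are even, ends are odd. -/
structure Sys {V : Type} (m : ℤ) (p q : V → ℤ) (r : V → V → Prop) : Prop where
  even : ∀ x, Even (p x)
  odd : ∀ x, Odd (q x)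
  lt : ∀ x, p x < q x
  lo : ∀ x, 2 ≤ p x
  hi : ∀ x, q x ≤ 2 * m - 1
  tl : ∀ z₁ z₂, r z₁ z₂ → ∃ f : V ≃ V, ∀ w, r w (f w) ∧ (w = z₁ ↔ f w = z₂) ∧
    (w ≠ z₁ → (Dis p q w z₁ ↔ Dis p q (f w) z₂)) ∧
    (¬ Eq2 p q w z₁ → ¬ Eq2 p q (f w) z₂ →
      (Sb p q w z₁ ↔ Sb p q (f w) z₂) ∧ (Sb p q z₁ w ↔ Sb p q z₂ (f w)))
  m1 : ∀ s t : ℤ, (2 ≤ s ∨ t ≤ 2 * m - 2) →
    (∀ w, ¬ (s < p w ∧ q w ≤ t) →
      (∀ z, s < p z → q z ≤ t → Dis p q w z) ∨ (∀ z, s < p z → q z ≤ t → Sb p q z w)) →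
    ∀ z z', s < p z → q z ≤ t → s < p z' → q z' ≤ t → z = z'
  m2 : ∀ a b : ℤ, 1 ≤ a → a < b → b ≤ m → (∀ x, ¬ (2 * a ≤ q x ∧ q x ≤ 2 * b)) →
    (∀ x, 2 * a ≤ p x → p x ≤ 2 * b → 2 * b < q x) →
    ∃ w y z, p w = 2 * a ∧ p y = 2 * b ∧ q w < p z ∧ q z ≤ q y
  m2' : ∀ a b : ℤ, 1 ≤ a → a < b → b ≤ m → (∀ x, ¬ (2 * a - 1 ≤ p x ∧ p x ≤ 2 * b - 1)) →
    (∀ x, 2 * a - 1 ≤ q x → q x ≤ 2 * b - 1 → p x < 2 * a - 1) →
    ∃ w y z, q w = 2 * b - 1 ∧ q y = 2 * a - 1 ∧ q z < p w ∧ p y ≤ p z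

/-- `g_s, g_t` are consecutive definable gaps. -/
structure Cell {V : Type} (p q : V → ℤ) (r : V → V → Prop) (s t : ℤ) : Prop where
  hs : gD p q r s
  ht : gD p q r t
  hno : ∀ j, s < j → j < t → ¬ gD p q r j

end PCA38
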