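import Pool.Agent.Work.MP_38bec5_lc.T.Defs

set_option autoImplicit false

/-!
# Inv4 (size M): basic facts about `Bis4`.

* `b4_perm`: the two transpositions of `swap` generate all permutations.
* `b4_yy`: `ext` with `w = y`: `E x y y x' y' (f y)` and `E y y z (f y) y' z'`; `eq` for the latter gives
  `f y = y'`.
* `b4_xx`: from `b4_yy` (after permutations) `E y x x y' x' x'`; `ext` for it with `w = x` in the first
  place: `E x x x (f x) x' x'`, and `eq` gives `f x = x'`.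
* `b4_inv` (all pairs): apply `Inv2` to the permutations of `b4_perm`.
* `b4_adj`, `b4_mem`, `b4_sub` are pairs of invariant relations (`Inv2`): `G.Adj`; `y ∈ nb G x`
  (`eq`, `adj`); `nb G x ⊆ nb G y` (take `f` from `ext` for `E x y y x' y' y'` (`b4_yy`):
  `E x y w x' y' (f w)` for all `w`, so `w ∈ nb G x ↔ f w ∈ nb H x'` and `w ∈ nb G y ↔ f w ∈ nb H y'`).
* `b4_tri'`: `w = f⁻¹ w'`.
* `b4_surj'`: `start` for `x`, then `ext` twice.  `b4_surj`: the same with inverses (or `b4_symm`).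
* `b4_symm`: use the inverse bijections.  `b4_comp`: compose the bijections.
-/

namespace PCA38

variable {V W : Type} {G : SimpleGraph V} {H : SimpleGraph W}
  {E : V → V → V → W → W → W → Prop}

theorem b4_perm (hE : Bis4 G H E) {x y z : V} {x' y' z' : W} (h : E x y z x' y' z') :
    E y x z y' x' z' ∧ E x z y x' z' y' ∧ E z y x z' y' x' ∧ E y z x y' z' x' ∧
      E z x y z' x' y' := by
  have h1 := (hE.swap _ _ _ _ _ _ h).1
  have h2 := (hE.swap _ _ _ _ _ _ h).2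
  have h3 := (hE.swap _ _ _ _ _ _ h2).1
  have h4 := (hE.swap _ _ _ _ _ _ h3).2
  have h5 := (hE.swap _ _ _ _ _ _ h1).2
  exact ⟨h1, h2, h4, h5, h3⟩

theorem b4_yy (hE : Bis4 G H E) {x y z : V} {x' y' z' : W} (h : E x y z x' y' z') :
    E x y y x' y' y' := by
  obtain ⟨f, hf⟩ := hE.ext _ _ _ _ _ _ h
  obtain ⟨h1, -, h3⟩ := hf y
  have h4 : f y = y' := (hE.eq _ _ _ _ _ _ h3).1 rfl
  rw [h4] at h1
  exact h1

theorem b4_xx (hE : Bis4 G H E) {x y z : V} {x' y' z' : W} (h : E x y z x' y' z') :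
    E x x x x' x' x' := by
  have h1 := b4_yy hE (b4_perm hE h).1
  obtain ⟨f, hf⟩ := hE.ext _ _ _ _ _ _ h1
  obtain ⟨-, -, h3⟩ := hf x
  have h4 : f x = x' := (hE.eq _ _ _ _ _ _ h3).1 rfl
  rw [h4] at h3
  exact h3

theorem b4_inv (hE : Bis4 G H E) {ρ : V → V → Prop} {ρ' : W → W → Prop} (hρ : Inv2 E ρ ρ')
    {x y z : V} {x' y' z' : W} (h : E x y z x' y' z') :
    (ρ x y ↔ ρ' x' y') ∧ (ρ y x ↔ ρ' y' x') ∧ (ρ x z ↔ ρ' x' z') ∧ (ρ z x ↔ ρ' z' x') ∧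
      (ρ y z ↔ ρ' y' z') ∧ (ρ z y ↔ ρ' z' y') := by
  obtain ⟨h1, h2, h3, h4, h5⟩ := b4_perm hE h
  exact ⟨hρ _ _ _ _ _ _ h, hρ _ _ _ _ _ _ h1, hρ _ _ _ _ _ _ h2, hρ _ _ _ _ _ _ h5,
    hρ _ _ _ _ _ _ h4, hρ _ _ _ _ _ _ h3⟩

theorem b4_adj (hE : Bis4 G H E) : Inv2 E G.Adj H.Adj :=
  fun _ _ _ _ _ _ h => hE.adj _ _ _ _ _ _ h

theorem b4_eq (hE : Bis4 G H E) : Inv2 E (fun x y => x = y) (fun x y => x = y) :=
  fun _ _ _ _ _ _ h => hE.eq _ _ _ _ _ _ h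

theorem b4_mem (hE : Bis4 G H E) : Inv2 E (fun x y => y ∈ nb G x) (fun x y => y ∈ nb H x) := by
  intro x y z x' y' z' h
  have h1 := hE.eq _ _ _ _ _ _ (b4_perm hE h).1
  have h2 := hE.adj _ _ _ _ _ _ h
  exact or_congr h1 h2

theorem b4_sub (hE : Bis4 G H E) :
    Inv2 E (fun x y => nb G x ⊆ nb G y) (fun x y => nb H x ⊆ nb H y) := by
  intro x y z x' y' z' h
  obtain ⟨f, hf⟩ := hE.ext _ _ _ _ _ _ h
  have key : ∀ w, (w ∈ nb G x ↔ f w ∈ nb H x') ∧ (w ∈ nb G y ↔ f w ∈ nb H y') := by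
    intro w
    have := b4_inv hE (b4_mem hE) (hf w).1
    exact ⟨this.2.2.1, this.2.2.2.2.1⟩
  constructor
  · intro hs w' hw'
    have e : f (f.symm w') = w' := f.apply_symm_apply w'
    have k := key (f.symm w')
    rw [e] at k
    exact k.2.1 (hs (k.1.2 hw'))
  · intro hs w hw
    exact (key w).2.2 (hs ((key w).1.1 hw))

theorem b4_tri' (hE : Bis4 G H E) {x y z : V} {x' y' z' : W} (h : E x y z x' y' z') (w' : W) :
    ∃ w, E x y w x' y' w' ∧ E x w z x' w' z' ∧ E w y z w' y' z' := by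
  obtain ⟨f, hf⟩ := hE.ext _ _ _ _ _ _ h
  have e : f (f.symm w') = w' := f.apply_symm_apply w'
  have k := hf (f.symm w')
  rw [e] at k
  exact ⟨f.symm w', k⟩

theorem b4_surj' (hE : Bis4 G H E) (x y z : V) : ∃ x' y' z', E x y z x' y' z' := by
  obtain ⟨f, hf⟩ := hE.start
  obtain ⟨g, hg⟩ := hE.ext _ _ _ _ _ _ (hf x)
  obtain ⟨k, hk⟩ := hE.ext _ _ _ _ _ _ (hg y).2.1
  exact ⟨f x, g y, k z, (hk z).1⟩

theorem b4_surj (hE : Bis4 G H E) (x' y' z' : W) : ∃ x y z, E x y z x' y' z' := by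
  obtain ⟨f, hf⟩ := hE.start
  have e : f (f.symm x') = x' := f.apply_symm_apply x'
  have h := hf (f.symm x')
  rw [e] at h
  obtain ⟨y, -, hy, -⟩ := b4_tri' hE h y'
  obtain ⟨z, hz, -, -⟩ := b4_tri' hE hy z'
  exact ⟨_, _, _, hz⟩

theorem b4_symm (hE : Bis4 G H E) : Bis4 H G (fun x' y' z' x y z => E x y z x' y' z') where
  start := by
    obtain ⟨f, hf⟩ := hE.start
    refine ⟨f.symm, fun z' => ?_⟩
    have e : f (f.symm z') = z' := f.apply_symm_apply z'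
    have h := hf (f.symm z')
    rw [e] at h
    exact h
  eq := fun x y z x' y' z' h => (hE.eq _ _ _ _ _ _ h).symm
  adj := fun x y z x' y' z' h => (hE.adj _ _ _ _ _ _ h).symm
  swap := fun x y z x' y' z' h => hE.swap _ _ _ _ _ _ h
  ext := by
    intro x y z x' y' z' h
    obtain ⟨f, hf⟩ := hE.ext _ _ _ _ _ _ h
    refine ⟨f.symm, fun w' => ?_⟩
    have e : f (f.symm w') = w' := f.apply_symm_apply w'
    have k := hf (f.symm w')
    rw [e] at k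
    exact k

theorem b4_comp {U : Type} {K : SimpleGraph U} {F : W → W → W → U → U → U → Prop}
    (hE : Bis4 G H E) (hF : Bis4 H K F) :
    Bis4 G K (fun x y z x₂ y₂ z₂ => ∃ x' y' z', E x y z x' y' z' ∧ F x' y' z' x₂ y₂ z₂) where
  start := by
    obtain ⟨f, hf⟩ := hE.start
    obtain ⟨g, hg⟩ := hF.start
    exact ⟨f.trans g, fun z => ⟨f z, f z, f z, hf z, hg (f z)⟩⟩
  eq := by
    rintro x y z x₂ y₂ z₂ ⟨x', y', z', h1, h2⟩
    exact (hE.eq _ _ _ _ _ _ h1).trans (hF.eq _ _ _ _ _ _ h2)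
  adj := by
    rintro x y z x₂ y₂ z₂ ⟨x', y', z', h1, h2⟩
    exact (hE.adj _ _ _ _ _ _ h1).trans (hF.adj _ _ _ _ _ _ h2)
  swap := by
    rintro x y z x₂ y₂ z₂ ⟨x', y', z', h1, h2⟩
    have k1 := hE.swap _ _ _ _ _ _ h1
    have k2 := hF.swap _ _ _ _ _ _ h2
    exact ⟨⟨_, _, _, k1.1, k2.1⟩, ⟨_, _, _, k1.2, k2.2⟩⟩
  ext := by
    rintro x y z x₂ y₂ z₂ ⟨x', y', z', h1, h2⟩
    obtain ⟨f, hf⟩ := hE.ext _ _ _ _ _ _ h1
    obtain ⟨g, hg⟩ := hF.ext _ _ _ _ _ _ h2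
    refine ⟨f.trans g, fun w => ?_⟩
    have k1 := hf w
    have k2 := hg (f w)
    exact ⟨⟨_, _, _, k1.1, k2.1⟩, ⟨_, _, _, k1.2.1, k2.2.1⟩, ⟨_, _, _, k1.2.2, k2.2.2⟩⟩

end PCA38
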