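import Pool.Agent.Work.MP_38bec5_lc.T.Rec
import Pool.Agent.Work.MP_38bec5_lc.T.Inv4

set_option autoImplicit false

/-!
# Flg (size M): the flags are definable from two anchors.

Let `r z₁ z₂ : E a b z₁ a b z₂`, `c a`, `P a = 1`, `c b`, `Q b = m` (possibly `a = b`).  There is a vertex
`d₀ ∉ nb a ∪ nb b`: if `a = b` by `hu`; otherwise `G.Adj a b` (`adj_tt`) and `NoDE`.
CLAIM: `c x` iff (i) `x ∈ nb a` and `x ∈ nb b`, and (ii) `nb x ⊆ nb a` or `nb a ⊆ nb x` or `nb x ⊆ nb b` or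
`nb b ⊆ nb x` or `x` is in the neighbourhood of no `d ∉ nb a ∪ nb b`.
(→) Let `c x`.  (i) by `adj_tt` (or equality).  Suppose none of the four inclusions holds.  Then
`¬ (I x ⊆ I a)` and `¬ (I a ⊆ I x)` (for flagged vertices `I y ⊆ I z` implies `nb z ⊆ nb y`: a vertex
`u ∈ nb z`: `c u` clear; `¬ c u`: `I u ⊆ I y` would give `I u ⊆ I z`).  As `P a = 1 ≤ P x`: `Q a < Q x` and
`1 < P x`; in the same way (with `Q b = m ≥ Q x`): `P x < P b`.  Let `d ∉ nb a ∪ nb b`; `¬ c d`, so by `adj_ft`: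
`I d ⊆ I a`, `I d ⊆ I b`: `P b ≤ P d`, `Q d ≤ Q a`.  So `P x < P d`, `Q d < Q x`: `I d ⊆ I x`, not adjacent
(`adj_ft`), and `d ≠ x`.
(←) Let `¬ c x` and (i).  By `adj_ft`: `¬ (I x ⊆ I a)`, so `Q a < Q x` (`P a = 1`); `¬ (I x ⊆ I b)`, so `P x < P b`.
For `d₀`: `P b ≤ P d₀ < Q d₀ ≤ Q a` as above.  So `P x < P b < Q a < Q x`.  `nb x ⊆ nb a` is false: `n_ft` would give
`Q x ≤ P a = 1` or `Q a ≤ P x`; similarly `nb x ⊆ nb b` (`Q x ≤ P b` or `Q b = m ≤ P x`, but `P x < Q x ≤ m`).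
`nb a ⊆ nb x`, `nb b ⊆ nb x` are false by `n_tf`.  And `x` is adjacent to `d₀` (`adj_ff`: `P x < Q d₀`, `P d₀ < Q x`)
`∉ nb a ∪ nb b`.  So (ii) fails.
DEFINABILITY: let `E a b z₁ a b z₂`.  The conditions `x ∈ nb a`, `x ∈ nb b` and the four inclusions are
transferred from `z₁` to `z₂` by `b4_mem`, `b4_sub`, `b4_inv`.  The last condition: take `f` from `ext`:
`E a b w a b (f w)` (so `w ∉ nb a ∪ nb b ↔ f w ∉ nb a ∪ nb b`) and `E w b z₁ (f w) b z₂` (so
`z₁ ∈ nb w ↔ z₂ ∈ nb (f w)`).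
-/

namespace PCA38

variable {V : Type} {G : SimpleGraph V} {m : ℤ} {P Q : V → ℤ} {c : V → Prop}

private theorem flag_sub (L : Lin G m P Q c) {x y : V} (hx : c x) (hy : c y)
    (h : P y ≤ P x ∧ Q x ≤ Q y) : nb G y ⊆ nb G x := by
  intro z hz
  have hz' : z = y ∨ G.Adj y z := hz
  show z = x ∨ G.Adj x z
  by_cases hzx : z = x
  · exact Or.inl hzx
  right
  by_cases hcz : c z
  · exact L.adj_tt x z (Ne.symm hzx) hx hcz
  · rcases hz' with rfl | hz'
    · exact absurd hy hcz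
    · have h3 := (L.adj_ft z y hcz hy).1 hz'.symm
      exact ((L.adj_ft z x hcz hx).2 (by omega)).symm

/-- A vertex outside the neighbourhood of a flagged vertex. -/
private theorem outside (L : Lin G m P Q c) {a d : V} (ha : c a) (hd : d ∉ nb G a) :
    ¬ c d ∧ (P a ≤ P d ∧ Q d ≤ Q a) := by
  have hd' : ¬ (d = a ∨ G.Adj a d) := hd
  push Not at hd'
  have hcd : ¬ c d := fun hcd => hd'.2 (L.adj_tt a d (Ne.symm hd'.1) ha hcd)
  refine ⟨hcd, ?_⟩
  by_contra h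
  exact hd'.2 ((L.adj_ft d a hcd ha).2 h).symm

theorem flags_def (L : Lin G m P Q c) (hN : NoDE G) (hu : ∀ x, ∃ z, z ∉ nb G x) {a b : V}
    (ha : c a ∧ P a = 1) (hb : c b ∧ Q b = m)
    {E : V → V → V → V → V → V → Prop} (hE : Bis4 G G E) :
    Df (fun z₁ z₂ => E a b z₁ a b z₂) {x | c x} := by
  obtain ⟨ha1, ha2⟩ := ha
  obtain ⟨hb1, hb2⟩ := hb
  have hd₀ : ∃ d₀, d₀ ∉ nb G a ∧ d₀ ∉ nb G b := by
    by_cases hab : a = b
    · subst hab
      obtain ⟨z, hz⟩ := hu a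
      exact ⟨z, hz, hz⟩
    · exact hN a b (L.adj_tt a b hab ha1 hb1)
  have char : ∀ x, c x ↔ ((x ∈ nb G a ∧ x ∈ nb G b) ∧ (nb G x ⊆ nb G a ∨ nb G a ⊆ nb G x ∨
      nb G x ⊆ nb G b ∨ nb G b ⊆ nb G x ∨ ∀ d, d ∉ nb G a → d ∉ nb G b → x ∉ nb G d)) := by
    intro x
    have lx := L.lt x
    have ox := L.one_le x
    have mx := L.le x
    constructor
    · intro hx
      refine ⟨⟨?_, ?_⟩, ?_⟩
      · by_cases h : x = a
        · exact Or.inl h
        · exact Or.inr (L.adj_tt a x (Ne.symm h) ha1 hx)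
      · by_cases h : x = b
        · exact Or.inl h
        · exact Or.inr (L.adj_tt b x (Ne.symm h) hb1 hx)
      · by_contra hcon
        push Not at hcon
        obtain ⟨n1, n2, n3, n4, d, hd1, hd2, hd3⟩ := hcon
        have e1 : ¬ (P x ≤ P a ∧ Q a ≤ Q x) := fun h => n1 (flag_sub L ha1 hx h)
        have e2 : ¬ (P a ≤ P x ∧ Q x ≤ Q a) := fun h => n2 (flag_sub L hx ha1 h)
        have e3 : ¬ (P x ≤ P b ∧ Q b ≤ Q x) := fun h => n3 (flag_sub L hb1 hx h)
        have e4 : ¬ (P b ≤ P x ∧ Q x ≤ Q b) := fun h => n4 (flag_sub L hx hb1 h)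
        obtain ⟨hcd, h5⟩ := outside L ha1 hd1
        obtain ⟨-, h6⟩ := outside L hb1 hd2
        have hd3' : x = d ∨ G.Adj d x := hd3
        rcases hd3' with rfl | hd3'
        · exact hcd hx
        · have := (L.adj_ft d x hcd hx).1 hd3'
          omega
    · rintro ⟨⟨h1, h2⟩, h3⟩
      by_contra hx
      have h1' : x = a ∨ G.Adj a x := h1
      have h2' : x = b ∨ G.Adj b x := h2
      have k1 : G.Adj x a := by
        rcases h1' with rfl | h
        · exact absurd ha1 hx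
        · exact h.symm
      have k2 : G.Adj x b := by
        rcases h2' with rfl | h
        · exact absurd hb1 hx
        · exact h.symm
      have j1 := (L.adj_ft x a hx ha1).1 k1
      have j2 := (L.adj_ft x b hx hb1).1 k2
      obtain ⟨d, hd1, hd2⟩ := hd₀
      obtain ⟨hcd, h5⟩ := outside L ha1 hd1
      obtain ⟨-, h6⟩ := outside L hb1 hd2
      have ld := L.lt d
      rcases h3 with h | h | h | h | h
      · have := L.n_ft x a hx ha1 h
        omega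
      · exact L.n_tf a x ha1 hx h
      · have := L.n_ft x b hx hb1 h
        omega
      · exact L.n_tf b x hb1 hx h
      · apply h d hd1 hd2
        show x = d ∨ G.Adj d x
        by_cases hxd : x = d
        · exact Or.inl hxd
        · exact Or.inr ((L.adj_ff d x (Ne.symm hxd) hcd hx).2 (by omega))
  intro z₁ z₂ h
  show c z₁ ↔ c z₂
  rw [char z₁, char z₂]
  have m1 := b4_inv hE (b4_mem hE) h
  have s1 := b4_inv hE (b4_sub hE) h
  obtain ⟨-, -, ma, -, mb, -⟩ := m1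
  obtain ⟨-, -, s2, s3, s4, s5⟩ := s1
  have hlast : (∀ d, d ∉ nb G a → d ∉ nb G b → z₁ ∉ nb G d) ↔
      (∀ d, d ∉ nb G a → d ∉ nb G b → z₂ ∉ nb G d) := by
    obtain ⟨f, hf⟩ := hE.ext _ _ _ _ _ _ h
    have key : ∀ w, (w ∈ nb G a ↔ f w ∈ nb G a) ∧ (w ∈ nb G b ↔ f w ∈ nb G b) ∧
        (z₁ ∈ nb G w ↔ z₂ ∈ nb G (f w)) := by
      intro w
      have k1 := b4_inv hE (b4_mem hE) (hf w).1
      have k2 := b4_inv hE (b4_mem hE) (hf w).2.2
      exact ⟨k1.2.2.1, k1.2.2.2.2.1, k2.2.2.1⟩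
    constructor
    · intro hall d hd1 hd2 hd3
      have e : f (f.symm d) = d := f.apply_symm_apply d
      have k := key (f.symm d)
      rw [e] at k
      exact hall (f.symm d) (fun h => hd1 (k.1.1 h)) (fun h => hd2 (k.2.1.1 h)) (k.2.2.2 hd3)
    · intro hall d hd1 hd2 hd3
      have k := key d
      exact hall (f d) (fun h => hd1 (k.1.2 h)) (fun h => hd2 (k.2.1.2 h)) (k.2.2.1 hd3)
  rw [ma, mb, s2, s3, s4, s5, hlast]

end PCA38
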