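import Pool.Agent.Work.MP_38bec5_lc.T.Defs

set_option autoImplicit false

/-!
# Her (size S-M): hereditary properties.

* `ca_induce`, `iv_induce`: restrict the arcs.  `ca_of_iv`: forget the point.
* `iv_of_component`: let `z` be a vertex outside the component `c` (`c.supp ≠ univ`).  The arc of `z` is
  nonempty (it contains its starting point, `0 ≤ l z`); a point `p` of it is in no arc of a vertex
  `x` of `c`, since otherwise `x = z` or `G.Adj x z`, and `z` would be in the component.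
* `iv_of_module`: if `M` is empty, any point `p` works (e.g. `0`).  Otherwise suppose that the arcs of `M`
  cover the circle.  Let `w ∉ M`; a point of its (nonempty) arc lies in the arc of some `x ∈ M`, so
  `G.Adj w x`, hence `G.Adj w y` for all `y ∈ M` (module).  So all pairs between `M` and its complement are
  adjacent, and `Gᶜ` has no edge between `M` and its complement (both nonempty), contradicting that
  `Gᶜ` is connected.
* `quo_ca`, `quo_iv`: give the class `X` the arc of `X.out`.  By `hG`,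
  `(quo G s).Adj X Y ↔ X ≠ Y ∧ G.Adj X.out Y.out`.
* `quo_node`: let `(quo G s).Adj X Y`; `x = X.out`, `y = Y.out` are adjacent; take `z ∉ nb x ∪ nb y`.
  `Z = ⟦z⟧`: `Z ≠ X`, otherwise `z` is adjacent to `y` by `hG` (as `X ≠ Y`); similarly `Z ≠ Y`; and `Z` is not
  adjacent to `X` or `Y` (by `hG` this would give `z ∈ nb x` or `z ∈ nb y`).
-/

namespace PCA38

variable {V : Type} {G : SimpleGraph V}

private theorem cut {H : SimpleGraph V} (hc : H.Connected) (S : Set V) {a b : V} (ha : a ∉ S)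
    (hb : b ∈ S) (h : ∀ x, x ∉ S → ∀ y ∈ S, ¬ H.Adj x y) : False := by
  obtain ⟨p⟩ := hc.preconnected b a
  obtain ⟨d, _, hd1, hd2⟩ := p.exists_boundary_dart S hb ha
  exact h d.snd hd2 d.fst hd1 d.adj.symm

private theorem start_mem {s l : ℝ} (hl : 0 ≤ l) : (s : AddCircle (1 : ℝ)) ∈ arc s l :=
  ⟨0, le_rfl, hl, by rw [add_zero]⟩

theorem ca_induce (h : IsCA G) (A : Set V) : IsCA (G.induce A) := by
  obtain ⟨s, l, hl, hadj⟩ := h
  refine ⟨fun x => s x, fun x => l x, fun x => hl x, fun u v => ?_⟩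
  have h1 : (G.induce A).Adj u v ↔ G.Adj (u : V) (v : V) := Iff.rfl
  rw [h1, hadj, Ne, Ne, Subtype.ext_iff]

theorem iv_induce (h : IsIv G) (A : Set V) : IsIv (G.induce A) := by
  obtain ⟨s, l, hl, ⟨p, hp⟩, hadj⟩ := h
  refine ⟨fun x => s x, fun x => l x, fun x => hl x, ⟨p, fun x => hp x⟩, fun u v => ?_⟩
  have h1 : (G.induce A).Adj u v ↔ G.Adj (u : V) (v : V) := Iff.rfl
  rw [h1, hadj, Ne, Ne, Subtype.ext_iff]

theorem ca_of_iv (h : IsIv G) : IsCA G := by
  obtain ⟨s, l, hl, _, hadj⟩ := h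
  exact ⟨s, l, hl, hadj⟩

private theorem iv_of_pt {s l : V → ℝ} (hl : ∀ v, 0 ≤ l v)
    (hadj : ∀ u v, G.Adj u v ↔ u ≠ v ∧ (arc (s u) (l u) ∩ arc (s v) (l v)).Nonempty)
    (A : Set V) (p : AddCircle (1 : ℝ)) (hp : ∀ x ∈ A, p ∉ arc (s x) (l x)) :
    IsIv (G.induce A) := by
  refine ⟨fun x => s x, fun x => l x, fun x => hl x, ⟨p, fun x => hp x x.2⟩, fun u v => ?_⟩
  have h1 : (G.induce A).Adj u v ↔ G.Adj (u : V) (v : V) := Iff.rfl
  rw [h1, hadj, Ne, Ne, Subtype.ext_iff]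

theorem iv_of_component (h : IsCA G) (c : G.ConnectedComponent) (hc : c.supp ≠ Set.univ) :
    IsIv (G.induce c.supp) := by
  obtain ⟨s, l, hl, hadj⟩ := h
  obtain ⟨z, hz⟩ := (Set.ne_univ_iff_exists_notMem _).1 hc
  refine iv_of_pt hl hadj c.supp (s z : AddCircle (1 : ℝ)) (fun x hx hp => hz ?_)
  have hne : x ≠ z := fun he => hz (he ▸ hx)
  have ha : G.Adj x z := (hadj x z).2 ⟨hne, _, hp, start_mem (hl z)⟩
  rw [SimpleGraph.ConnectedComponent.mem_supp_iff] at hx ⊢
  rw [← hx]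
  exact SimpleGraph.ConnectedComponent.sound ha.symm.reachable

theorem iv_of_module (h : IsCA G) (hcc : Gᶜ.Connected) (M : Set V) (hM : IsMod G M)
    (hM' : M ≠ Set.univ) : IsIv (G.induce M) := by
  obtain ⟨s, l, hl, hadj⟩ := h
  by_cases hcov : ∃ p : AddCircle (1 : ℝ), ∀ x ∈ M, p ∉ arc (s x) (l x)
  · obtain ⟨p, hp⟩ := hcov
    exact iv_of_pt hl hadj M p hp
  · exfalso
    push Not at hcov
    obtain ⟨b, hb, _⟩ := hcov 0
    obtain ⟨a, ha⟩ := (Set.ne_univ_iff_exists_notMem _).1 hM'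
    refine cut hcc M ha hb (fun w hw y hy => ?_)
    obtain ⟨x, hx, hpx⟩ := hcov (s w : AddCircle (1 : ℝ))
    have hne : w ≠ x := fun he => hw (he ▸ hx)
    have h1 : G.Adj w x := (hadj w x).2 ⟨hne, _, start_mem (hl w), hpx⟩
    rw [SimpleGraph.compl_adj]
    exact fun h => h.2 ((hM w hw x y hx hy).1 h1)

private theorem out_adj (s : Setoid V) (hG : Cong G s) (X Y : Quotient s) :
    (quo G s).Adj X Y ↔ X ≠ Y ∧ G.Adj X.out Y.out := by
  constructor
  · rintro ⟨hne, x, y, hx, hy, ha⟩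
    refine ⟨hne, (hG x y X.out Y.out ?_ ?_ ?_).1 ha⟩
    · exact Quotient.exact (hx.trans (Quotient.out_eq X).symm)
    · exact Quotient.exact (hy.trans (Quotient.out_eq Y).symm)
    · intro hr
      exact hne (hx.symm.trans ((Quotient.sound hr).trans hy))
  · rintro ⟨hne, ha⟩
    exact ⟨hne, X.out, Y.out, Quotient.out_eq X, Quotient.out_eq Y, ha⟩

private theorem out_ne (s : Setoid V) (X Y : Quotient s) (h : X ≠ Y) : X.out ≠ Y.out :=
  fun he => h ((Quotient.out_eq X).symm.trans ((congrArg (Quotient.mk s) he).trans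
    (Quotient.out_eq Y)))

theorem quo_ca (h : IsCA G) (s : Setoid V) (hG : Cong G s) : IsCA (quo G s) := by
  obtain ⟨a, l, hl, hadj⟩ := h
  refine ⟨fun X => a X.out, fun X => l X.out, fun X => hl _, fun X Y => ?_⟩
  rw [out_adj s hG, hadj]
  constructor
  · rintro ⟨h1, _, h3⟩
    exact ⟨h1, h3⟩
  · rintro ⟨h1, h3⟩
    exact ⟨h1, out_ne s X Y h1, h3⟩

theorem quo_iv (h : IsIv G) (s : Setoid V) (hG : Cong G s) : IsIv (quo G s) := by
  obtain ⟨a, l, hl, ⟨p, hp⟩, hadj⟩ := h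
  refine ⟨fun X => a X.out, fun X => l X.out, fun X => hl _, ⟨p, fun X => hp _⟩, fun X Y => ?_⟩
  rw [out_adj s hG, hadj]
  constructor
  · rintro ⟨h1, _, h3⟩
    exact ⟨h1, h3⟩
  · rintro ⟨h1, h3⟩
    exact ⟨h1, out_ne s X Y h1, h3⟩

theorem quo_node (h : NoDE G) (s : Setoid V) (hG : Cong G s) : NoDE (quo G s) := by
  intro X Y hXY
  obtain ⟨hne, ha⟩ := (out_adj s hG X Y).1 hXY
  obtain ⟨z, hz1, hz2⟩ := h X.out Y.out ha
  have key : ∀ X' Y' : Quotient s, X' ≠ Y' → G.Adj X'.out Y'.out → z ∉ nb G Y'.out →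
      Quotient.mk s z ≠ X' := by
    intro X' Y' hne' ha' hz he
    apply hz
    refine Or.inr (G.adj_symm ?_)
    refine (hG X'.out Y'.out z Y'.out ?_ (s.iseqv.refl _) ?_).1 ha'
    · exact Quotient.exact ((Quotient.out_eq X').trans he.symm)
    · intro hr
      exact hne' ((Quotient.out_eq X').symm.trans ((Quotient.sound hr).trans (Quotient.out_eq Y')))
  have key2 : ∀ X' : Quotient s, Quotient.mk s z ≠ X' → z ∉ nb G X'.out →
      ¬ (quo G s).Adj X' (Quotient.mk s z) := by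
    rintro X' hne' hz ⟨_, x, y, hx, hy, hxy⟩
    apply hz
    refine Or.inr ((hG x y X'.out z ?_ ?_ ?_).1 hxy)
    · exact Quotient.exact (hx.trans (Quotient.out_eq X').symm)
    · exact Quotient.exact hy
    · intro hr
      exact hne' (hy.symm.trans ((Quotient.sound hr).symm.trans hx))
  have hX := key X Y hne ha hz2
  have hY := key Y X hne.symm ha.symm hz1
  refine ⟨Quotient.mk s z, ?_, ?_⟩
  · rintro (h1 | h1)
    · exact hX h1
    · exact key2 X hX hz1 h1
  · rintro (h1 | h1)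
    · exact hY h1
    · exact key2 Y hY hz2 h1

end PCA38
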