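import Pool.Agent.Work.MP_38bec5_lc.T.Cnt

set_option autoImplicit false

/-!
# J1 (size M-L): the junction lemma.

Let `C : Cell s t`.  In the cell (positions `s+1, ..., t`) put `R = {y | s < p y ≤ t < q y}`,
`Lf = {x | p x ≤ s < q x ≤ t}`, `I = {z | s < p z, q z ≤ t}`; these three sets are definable (`hs`, `ht`,
Boolean combinations).  EVENTS of the cell other than those of `R`: the numbers `q x` (`x ∈ Lf`), `p z`,
`q z` (`z ∈ I`).  Assume `y₀ ∈ R`.
For `y ∈ R` and `x ∈ Lf`: `Dis x y ↔ q x < p y`.  For `z ∈ I`: `Dis z y ↔ q z < p y`, and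
`Sb z y ↔ p y ≤ p z` (as `q z ≤ t < q y`), and `¬ Eq2`.
Let `e(y)` be the number of events `< p y`, i.e. the sum of `#{x ∈ Lf ∪ I | Dis x y}` and of
`#{z ∈ I | ¬ Sb z y}`; by `cnt_dis`, `cnt_sb` both numbers are equal for `y, y' ∈ R` with `r y y'` (as `R` is
definable, `r y y'`, `y ∈ R` imply `y' ∈ R`).

STEP 1: no event is `< p y` for any `y ∈ R`.  Suppose the contrary; let `u` be the least `p y`, `y ∈ R`, such
that some event is `< p y`, and `e₀` the largest event `< u`.  So `s < e₀ < u ≤ t`.  CLAIM `gD e₀`, a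
contradiction to `hno`.  Need: `{p ≤ e₀}` and `{q ≤ e₀}` definable.  Elements with `p ≤ s`, `q ≤ s` are
controlled by `hs`, elements with `p > t` or `q > t` by `ht`.
 - `y ∈ R`: `p y ≤ e₀` iff no event is `< p y`: if `p y > e₀` then `e₀` is an event `< p y`; if `p y ≤ e₀ < u` and
   some event were `< p y`, then `p y ≥ u` by the choice of `u`.  No event `< p y` is definable on `R`
   (both counts zero).
 - For an event `e` put `N(e) = #{y ∈ R | e < p y}` for `e = q x`, `x ∈ Lf ∪ I`
   (`= #{y ∈ R | Dis y x}`, here `Dis y x ↔ q x < p y`); let `N₁ = #{y ∈ R | u ≤ p y} ≥ 1`.  If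
   `q x ≤ e₀` then `N ≥ N₁` (`p y ≥ u > e₀ ≥ q x`).  If `q x > e₀` then `q x ≥ u`, even `q x > u` or `= u`; in any
   case `{y ∈ R | q x < p y} ⊆ {y ∈ R | u < p y}`, which has less than `N₁` elements.  So `q x ≤ e₀` is definable
   on `Lf` and on `I`.
 - For `z ∈ I`: `M(z) = #{y ∈ R | p y ≤ p z} = #{y ∈ R | Sb z y}` (`cnt_bs`).  Let `M₀ = #{y ∈ R | p y ≤ e₀}`.  If
   `p z ≤ e₀` then `M ≤ M₀`.  If `p z > e₀` then `p z ≥ u` (no event strictly between `e₀` and `u`), and
   `M ≥ #{p y ≤ u} > M₀` (an element with `p y = u` is new).  So `p z ≤ e₀` is definable on `I`.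
This proves (a): for `y ∈ R`, `p y ≤` every event; for events `q x` even `<` by parity (`even`, `odd`).

STEP 2 (b): suppose there is an event and `I` is empty; so all events are `q x`, `x ∈ Lf`.  Let
`u = max {p y | y ∈ R}` (`≤ t`).  By STEP 1 and parity `u < q x` for all `x ∈ Lf`, and such `x` exists, so
`s < u < t`.  CLAIM `gD u`: `{p ≤ u}` = elements with `p ≤ s`, and `R` (and `I = ∅`); i.e. all elements with
`p ≤ t`, definable by `ht`; `{q ≤ u}` = elements with `q ≤ s`, definable by `hs` (no `q`-event in `(s, u]`).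
Contradiction to `hno`.
-/

namespace PCA38

variable {V : Type} {m : ℤ} {p q : V → ℤ} {r : V → V → Prop}

/-- Some event of the cell (not of `R`) is smaller than `k`. -/
private def Low (p q : V → ℤ) (s t k : ℤ) : Prop :=
  (∃ x, s < q x ∧ q x ≤ t ∧ q x < k) ∨ (∃ z, s < p z ∧ q z ≤ t ∧ p z < k)

private theorem low_transfer [Finite V] (S : Sys m p q r) {s t : ℤ} (C : Cell p q r s t)
    {y y' : V} (hr : r y y') (h1 : s < p y) (h2 : p y ≤ t) (h3 : t < q y)
    (h1' : s < p y') (h2' : p y' ≤ t) (h3' : t < q y') :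
    Low p q s t (p y) ↔ Low p q s t (p y') := by
  have key : ∀ y, s < p y → p y ≤ t → t < q y → (Low p q s t (p y) ↔
      ¬ ({w | w ∈ {x | s < q x ∧ q x ≤ t} ∧ Dis p q w y}.ncard = 0 ∧
        {w | w ∈ {z | s < p z ∧ q z ≤ t} ∧ Sb p q w y}.ncard =
          {z | s < p z ∧ q z ≤ t}.ncard)) := by
    intro y h1 h2 h3
    constructor
    · rintro (⟨x, hx1, hx2, hx3⟩ | ⟨z, hz1, hz2, hz3⟩)
      · rintro ⟨h4, -⟩
        rw [Set.ncard_eq_zero (Set.toFinite _)] at h4
        have : x ∈ ({w | w ∈ {x | s < q x ∧ q x ≤ t} ∧ Dis p q w y} : Set V) :=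
          ⟨⟨hx1, hx2⟩, Or.inl hx3⟩
        rw [h4] at this
        exact this
      · rintro ⟨-, h4⟩
        have hsub : ({w | w ∈ {z | s < p z ∧ q z ≤ t} ∧ Sb p q w y} : Set V) ⊂
            {z | s < p z ∧ q z ≤ t} := by
          refine ⟨fun w hw => hw.1, fun hsub => ?_⟩
          have h5 := (hsub (show z ∈ ({z | s < p z ∧ q z ≤ t} : Set V) from ⟨hz1, hz2⟩)).2
          have h6 : p y ≤ p z := h5.1
          omega
        have := Set.ncard_lt_ncard hsub (Set.toFinite _)
        omega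
    · intro h4
      by_contra hlow
      apply h4
      constructor
      · rw [Set.ncard_eq_zero (Set.toFinite _)]
        rw [Set.eq_empty_iff_forall_notMem]
        rintro w ⟨⟨hw1, hw2⟩, hw3⟩
        rcases hw3 with hw3 | hw3
        · exact hlow (Or.inl ⟨w, hw1, hw2, hw3⟩)
        · have := S.lt w
          omega
      · congr 1
        ext w
        constructor
        · exact fun hw => hw.1
        · intro hw
          refine ⟨hw, ?_, ?_⟩
          · by_contra hlt
            exact hlow (Or.inr ⟨w, hw.1, hw.2, not_le.1 hlt⟩)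
          · have := hw.2
            omega
  have hA : Df r ({x | s < q x ∧ q x ≤ t} : Set V) := by
    intro z₁ z₂ h
    have a1 := C.hs.2 z₁ z₂ h
    have a2 := C.ht.2 z₁ z₂ h
    simp only [Set.mem_setOf_eq] at a1 a2 ⊢
    omega
  have hI : Df r ({z | s < p z ∧ q z ≤ t} : Set V) := by
    intro z₁ z₂ h
    have a1 := C.hs.1 z₁ z₂ h
    have a2 := C.ht.2 z₁ z₂ h
    simp only [Set.mem_setOf_eq] at a1 a2 ⊢
    omega
  rw [key y h1 h2 h3, key y' h1' h2' h3']
  have e1 := cnt_dis S hA hr (fun h => by have := h.2; omega)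
  have e2 := cnt_sb S hI hr (fun w hw h => by have := hw.2; have := h.2; omega)
    (fun w hw h => by have := hw.2; have := h.2; omega)
  rw [e1, e2]

private theorem step1 [Finite V] (S : Sys m p q r) {s t : ℤ} (C : Cell p q r s t) :
    ∀ y, s < p y → p y ≤ t → t < q y → ¬ Low p q s t (p y) := by
  by_contra hcon
  push Not at hcon
  -- the least bad start
  obtain ⟨y₁, ⟨hy1, hy2, hy3, hy4⟩, hmin⟩ := Set.exists_min_image
    ({y | s < p y ∧ p y ≤ t ∧ t < q y ∧ Low p q s t (p y)} : Set V) p (Set.toFinite _)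
    (by obtain ⟨y, h1, h2, h3, h4⟩ := hcon; exact ⟨y, h1, h2, h3, h4⟩)
  -- the largest event before it
  obtain ⟨e₀, ⟨he1, he2, he3⟩, hmax⟩ := Set.exists_max_image
    ({e | s < e ∧ e < p y₁ ∧ ((∃ x, s < q x ∧ q x ≤ t ∧ q x = e) ∨
      (∃ z, s < p z ∧ q z ≤ t ∧ p z = e))} : Set ℤ) id
    ((Set.finite_Ioo s (p y₁)).subset (fun e he => ⟨he.1, he.2.1⟩))
    (by
      rcases hy4 with ⟨x, h1, h2, h3⟩ | ⟨z, h1, h2, h3⟩
      · exact ⟨q x, h1, h3, Or.inl ⟨x, h1, h2, rfl⟩⟩
      · exact ⟨p z, h1, h3, Or.inr ⟨z, h1, h2, rfl⟩⟩)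
  simp only [id] at hmax
  have hR : Df r ({y | s < p y ∧ p y ≤ t ∧ t < q y} : Set V) := by
    intro z₁ z₂ h
    have a1 := C.hs.1 z₁ z₂ h
    have a2 := C.ht.2 z₁ z₂ h
    have a3 := C.ht.1 z₁ z₂ h
    simp only [Set.mem_setOf_eq] at a1 a2 a3 ⊢
    omega
  have hq_ge : ∀ x, s < q x → q x ≤ t → e₀ < q x → p y₁ ≤ q x := by
    intro x h1 h2 h3
    by_contra h4
    have := hmax (q x) ⟨h1, not_le.1 h4, Or.inl ⟨x, h1, h2, rfl⟩⟩
    omega
  have hp_ge : ∀ x, s < p x → q x ≤ t → e₀ < p x → p y₁ ≤ p x := by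
    intro x h1 h2 h3
    by_contra h4
    have := hmax (p x) ⟨h1, not_le.1 h4, Or.inr ⟨x, h1, h2, rfl⟩⟩
    omega
  refine C.hno e₀ he1 (by omega) ⟨?_, ?_⟩
  · intro x₁ x₂ h
    have a1 := C.hs.1 x₁ x₂ h
    have a2 := C.ht.1 x₁ x₂ h
    have a3 := C.hs.2 x₁ x₂ h
    have a4 := C.ht.2 x₁ x₂ h
    simp only [Set.mem_setOf_eq] at a1 a2 a3 a4 ⊢
    have b1 := S.lt x₁
    have b2 := S.lt x₂
    by_cases c1 : p x₁ ≤ s
    · have := a1.1 c1
      omega
    by_cases c2 : p x₁ ≤ t
    · by_cases c3 : q x₁ ≤ t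
      · -- inner elements
        have d1 : ∀ z, s < p z → q z ≤ t → (p z ≤ e₀ ↔
            {w | w ∈ {y | s < p y ∧ p y ≤ t ∧ t < q y} ∧ Sb p q z w}.ncard ≤
              {w | w ∈ {y | s < p y ∧ p y ≤ t ∧ t < q y} ∧ p w ≤ e₀}.ncard) := by
          intro z hz1 hz2
          constructor
          · intro hz3
            apply Set.ncard_le_ncard _ (Set.toFinite _)
            rintro w ⟨hw1, hw2⟩
            exact ⟨hw1, hw2.1.trans hz3⟩
          · intro hle
            by_contra hz3
            have hz4 := hp_ge z hz1 hz2 (not_le.1 hz3)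
            have hsub : ({w | w ∈ {y | s < p y ∧ p y ≤ t ∧ t < q y} ∧ p w ≤ e₀} : Set V) ⊂
                {w | w ∈ {y | s < p y ∧ p y ≤ t ∧ t < q y} ∧ Sb p q z w} := by
              refine ⟨?_, fun hsub => ?_⟩
              · rintro w ⟨hw1, hw2⟩
                refine ⟨hw1, ?_, ?_⟩
                · omega
                · have := hw1.2.2
                  omega
              · have h5 := (hsub (show y₁ ∈ ({w | w ∈ {y | s < p y ∧ p y ≤ t ∧ t < q y} ∧
                    Sb p q z w} : Set V) from ⟨⟨hy1, hy2, hy3⟩, hz4, by omega⟩)).2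
                omega
            have := Set.ncard_lt_ncard hsub (Set.toFinite _)
            omega
        have e2 := cnt_bs S hR h (fun w hw h => by have := hw.2.2; have := h.2; omega)
          (fun w hw h => by have := hw.2.2; have := h.2; omega)
        rw [d1 x₁ (by omega) c3, d1 x₂ (by omega) (by omega), e2]
      · -- elements of R
        have d1 : ∀ y, s < p y → p y ≤ t → t < q y → (p y ≤ e₀ ↔ ¬ Low p q s t (p y)) := by
          intro y h1 h2 h3
          constructor
          · intro h4 h5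
            have := hmin y ⟨h1, h2, h3, h5⟩
            omega
          · intro h4
            by_contra h5
            apply h4
            rcases he3 with ⟨x, g1, g2, g3⟩ | ⟨z, g1, g2, g3⟩
            · exact Or.inl ⟨x, g1, g2, by omega⟩
            · exact Or.inr ⟨z, g1, g2, by omega⟩
        rw [d1 x₁ (by omega) c2 (by omega), d1 x₂ (by omega) (by omega) (by omega),
          low_transfer S C h (by omega) c2 (by omega) (by omega) (by omega) (by omega)]
    · omega
  · intro x₁ x₂ h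
    have a3 := C.hs.2 x₁ x₂ h
    have a4 := C.ht.2 x₁ x₂ h
    simp only [Set.mem_setOf_eq] at a3 a4 ⊢
    by_cases c1 : q x₁ ≤ s
    · have := a3.1 c1
      omega
    by_cases c2 : q x₁ ≤ t
    · have d1 : ∀ x, s < q x → q x ≤ t → (q x ≤ e₀ ↔
          {w | w ∈ {y | s < p y ∧ p y ≤ t ∧ t < q y} ∧ p y₁ ≤ p w}.ncard ≤
          {w | w ∈ {y | s < p y ∧ p y ≤ t ∧ t < q y} ∧ Dis p q w x}.ncard) := by
        intro x hx1 hx2
        constructor
        · intro hx3
          apply Set.ncard_le_ncard _ (Set.toFinite _)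
          rintro w ⟨hw1, hw2⟩
          exact ⟨hw1, Or.inr (by omega)⟩
        · intro hle
          by_contra hx3
          have hx4 := hq_ge x hx1 hx2 (not_le.1 hx3)
          have hsub : ({w | w ∈ {y | s < p y ∧ p y ≤ t ∧ t < q y} ∧ Dis p q w x} : Set V) ⊂
              {w | w ∈ {y | s < p y ∧ p y ≤ t ∧ t < q y} ∧ p y₁ ≤ p w} := by
            refine ⟨?_, fun hsub => ?_⟩
            · rintro w ⟨hw1, hw2⟩
              refine ⟨hw1, ?_⟩
              have := hw1.2.2
              have := S.lt x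
              rcases hw2 with hw2 | hw2
              · omega
              · omega
            · have h5 := (hsub (show y₁ ∈ ({w | w ∈ {y | s < p y ∧ p y ≤ t ∧ t < q y} ∧
                  p y₁ ≤ p w} : Set V) from ⟨⟨hy1, hy2, hy3⟩, le_refl _⟩)).2
              have := S.lt x
              rcases h5 with h5 | h5
              · omega
              · omega
          have := Set.ncard_lt_ncard hsub (Set.toFinite _)
          omega
      have e1 := cnt_dis S hR h (fun h => by have := h.2.2; omega)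
      rw [d1 x₁ (by omega) c2, d1 x₂ (by omega) (by omega), e1]
    · omega

theorem junction [Finite V] (S : Sys m p q r) {s t : ℤ} (C : Cell p q r s t) (y₀ : V)
    (h0 : s < p y₀) (h0' : p y₀ ≤ t) (h0'' : t < q y₀) :
    (∀ y, s < p y → p y ≤ t → t < q y → ∀ x, (s < q x → q x ≤ t → p y < q x) ∧
      (s < p x → q x ≤ t → p y ≤ p x)) ∧
    ((∃ x, s < q x ∧ q x ≤ t) → ∃ z, s < p z ∧ q z ≤ t) := by
  have hs1 := step1 S C
  have hfirst : ∀ y, s < p y → p y ≤ t → t < q y → ∀ x, (s < q x → q x ≤ t → p y < q x) ∧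
      (s < p x → q x ≤ t → p y ≤ p x) := by
    intro y h1 h2 h3 x
    have h4 := hs1 y h1 h2 h3
    constructor
    · intro h5 h6
      have h7 : ¬ q x < p y := fun h7 => h4 (Or.inl ⟨x, h5, h6, h7⟩)
      obtain ⟨a, ha⟩ := S.even y
      obtain ⟨b, hb⟩ := S.odd x
      omega
    · intro h5 h6
      by_contra h7
      exact h4 (Or.inr ⟨x, h5, h6, not_le.1 h7⟩)
  refine ⟨hfirst, ?_⟩
  rintro ⟨x₀, hx1, hx2⟩
  by_contra hI
  push Not at hI
  obtain ⟨y₁, ⟨hy1, hy2, hy3⟩, hmax⟩ := Set.exists_max_image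
    ({y | s < p y ∧ p y ≤ t ∧ t < q y} : Set V) p (Set.toFinite _) ⟨y₀, h0, h0', h0''⟩
  have h5 := (hfirst y₁ hy1 hy2 hy3 x₀).1 hx1 hx2
  refine C.hno (p y₁) hy1 (by omega) ⟨?_, ?_⟩
  · have key : ∀ x, p x ≤ p y₁ ↔ p x ≤ t := by
      intro x
      constructor
      · intro h; omega
      · intro h
        by_cases h6 : p x ≤ s
        · omega
        · exact hmax x ⟨not_le.1 h6, h, hI x (not_le.1 h6)⟩
    intro x₁ x₂ h
    have := C.ht.1 x₁ x₂ h
    simp only [Set.mem_setOf_eq] at this ⊢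
    rw [key, key]
    exact this
  · have key : ∀ x, q x ≤ p y₁ ↔ q x ≤ s := by
      intro x
      constructor
      · intro h
        by_contra h6
        have := (hfirst y₁ hy1 hy2 hy3 x).1 (not_le.1 h6) (by omega)
        omega
      · intro h; omega
    intro x₁ x₂ h
    have := C.hs.2 x₁ x₂ h
    simp only [Set.mem_setOf_eq] at this ⊢
    rw [key, key]
    exact this

end PCA38
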