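import Pool.Agent.Work.MP_38bec5_lc.T.Defs

set_option autoImplicit false

/-!
# Ref (size S-M): reflection of a cell system.

`p' x = 2m + 1 - q x`, `q' x = 2m + 1 - p x`.
`sys_reflect`: parity: `2m + 1 - odd` is even, `2m + 1 - even` is odd.  `Dis`, `Sb`, `Eq2` are unchanged
(`Dis p' q' x y ↔ Dis p q y x`-type inequalities: `q' x < p' y ↔ q y < p x`; so `Dis p' q' x y ↔ Dis p q x y`;
`Sb p' q' x y ↔ Sb p q x y`).  `m1` for `(s, t)` is `m1` for `(2m - t, 2m - s)`:
`s < p' x ↔ q x ≤ 2m - s`, `q' x ≤ t ↔ 2m - t < p x`.  `m2` for `(a, b)` is `m2'` for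
`(m + 1 - b, m + 1 - a)` and vice versa (all translations are linear: omega).
`gD_reflect`: `{x | p' x ≤ j}` is the complement of `{x | q x ≤ 2m - j}` and `{x | q' x ≤ j}` is the complement of
`{x | p x ≤ 2m - j}`.
`cell_reflect` follows.
-/

namespace PCA38

variable {V : Type} {m : ℤ} {p q : V → ℤ} {r : V → V → Prop}

private theorem dis_refl_iff (x y : V) :
    Dis (fun x => 2 * m + 1 - q x) (fun x => 2 * m + 1 - p x) x y ↔ Dis p q x y := by
  unfold Dis
  dsimp only
  omega

private theorem sb_refl_iff (x y : V) :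
    Sb (fun x => 2 * m + 1 - q x) (fun x => 2 * m + 1 - p x) x y ↔ Sb p q x y := by
  unfold Sb
  dsimp only
  omega

private theorem eq2_refl_iff (x y : V) :
    Eq2 (fun x => 2 * m + 1 - q x) (fun x => 2 * m + 1 - p x) x y ↔ Eq2 p q x y := by
  unfold Eq2
  dsimp only
  omega

theorem sys_reflect (S : Sys m p q r) :
    Sys m (fun x => 2 * m + 1 - q x) (fun x => 2 * m + 1 - p x) r := by
  constructor
  · intro x
    obtain ⟨k, hk⟩ := S.odd x
    exact ⟨m - k, by omega⟩
  · intro x
    obtain ⟨k, hk⟩ := S.even x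
    exact ⟨m - k, by omega⟩
  · intro x
    have := S.lt x
    omega
  · intro x
    have := S.hi x
    omega
  · intro x
    have := S.lo x
    omega
  · intro z₁ z₂ h
    obtain ⟨f, hf⟩ := S.tl z₁ z₂ h
    refine ⟨f, fun w => ⟨(hf w).1, (hf w).2.1, ?_, ?_⟩⟩
    · rw [dis_refl_iff, dis_refl_iff]
      exact (hf w).2.2.1
    · rw [sb_refl_iff, sb_refl_iff, sb_refl_iff, sb_refl_iff, eq2_refl_iff, eq2_refl_iff]
      exact (hf w).2.2.2
  · intro s t hst hw z z' h1 h2 h3 h4
    refine S.m1 (2 * m - t) (2 * m - s) (by omega) ?_ z z' (by omega) (by omega) (by omega)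
      (by omega)
    intro w hw'
    rcases hw w (fun h => hw' ⟨by omega, by omega⟩) with h | h
    · left
      intro z h1 h2
      exact (dis_refl_iff (m := m) w z).1 (h z (by omega) (by omega))
    · right
      intro z h1 h2
      exact (sb_refl_iff (m := m) z w).1 (h z (by omega) (by omega))
  · intro a b ha hab hb h1 h2
    obtain ⟨w, y, z, g1, g2, g3, g4⟩ := S.m2' (m + 1 - b) (m + 1 - a) (by omega) (by omega)
      (by omega) (fun x hx => h1 x (by omega)) (fun x hx1 hx2 => by
        have := h2 x (by omega) (by omega)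
        omega)
    exact ⟨w, y, z, by omega, by omega, by omega, by omega⟩
  · intro a b ha hab hb h1 h2
    obtain ⟨w, y, z, g1, g2, g3, g4⟩ := S.m2 (m + 1 - b) (m + 1 - a) (by omega) (by omega)
      (by omega) (fun x hx => h1 x (by omega)) (fun x hx1 hx2 => by
        have := h2 x (by omega) (by omega)
        omega)
    exact ⟨w, y, z, by omega, by omega, by omega, by omega⟩

theorem gD_reflect (j : ℤ) :
    gD (fun x => 2 * m + 1 - q x) (fun x => 2 * m + 1 - p x) r j ↔ gD p q r (2 * m - j) := by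
  constructor
  · rintro ⟨h1, h2⟩
    refine ⟨fun z₁ z₂ h => ?_, fun z₁ z₂ h => ?_⟩
    · have := h2 z₁ z₂ h
      simp only [Set.mem_ofPred_eq] at this ⊢
      omega
    · have := h1 z₁ z₂ h
      simp only [Set.mem_ofPred_eq] at this ⊢
      omega
  · rintro ⟨h1, h2⟩
    refine ⟨fun z₁ z₂ h => ?_, fun z₁ z₂ h => ?_⟩
    · have := h2 z₁ z₂ h
      simp only [Set.mem_ofPred_eq] at this ⊢
      omega
    · have := h1 z₁ z₂ h
      simp only [Set.mem_ofPred_eq] at this ⊢
      omega

theorem cell_reflect {s t : ℤ} (C : Cell p q r s t) :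
    Cell (fun x => 2 * m + 1 - q x) (fun x => 2 * m + 1 - p x) r (2 * m - t) (2 * m - s) := by
  refine ⟨?_, ?_, ?_⟩
  · rw [gD_reflect]
    have : 2 * m - (2 * m - t) = t := by ring
    rw [this]
    exact C.ht
  · rw [gD_reflect]
    have : 2 * m - (2 * m - s) = s := by ring
    rw [this]
    exact C.hs
  · intro j h1 h2
    rw [gD_reflect]
    exact C.hno (2 * m - j) (by omega) (by omega)

end PCA38
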