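import Pool.Agent.Work.MP_38bec5_lc.T.J1
import Pool.Agent.Work.MP_38bec5_lc.T.Ref

set_option autoImplicit false

/-!
# J3 (size M): cells with at least two positions are pure.

`junction'` is `junction` for the reflected system (`sys_reflect`, `cell_reflect`): cell
`(2m - t, 2m - s)`; `R' = {x | p x ≤ s < q x ≤ t} = Lf`.

`no_inner`: suppose `z₀ ∈ I = {z | s < p z, q z ≤ t}`.  CLAIM: every `w ∉ I` has `Dis w z` for all
`z ∈ I` or `Sb z w` for all `z ∈ I`.
 - `w ∈ R` (`s < p w ≤ t < q w`): `junction` with `y₀ = w`: `p w ≤ p z` for all `z ∈ I`, and `q z ≤ t < q w`.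
 - `w ∈ Lf` (`p w ≤ s < q w ≤ t`): `junction'`: `q z ≤ q w`, `p w ≤ s < p z`.
 - otherwise `p w` and `q w` are not in `(s, t]`: `q w ≤ s` or `p w > t`: `Dis`; `p w ≤ s`, `q w > t`: `Sb z w`.
By hypothesis `h0` (`gD j₀`, `2 ≤ j₀ ≤ 2m - 2`) and `C.hno`, `j₀ ≤ s` or `t ≤ j₀`, so `2 ≤ s` or `t ≤ 2m - 2`.  `S.m1`
gives `I = {z₀}`.  Put `u = p z₀`, `s < u < q z₀ ≤ t`.  CLAIM `gD u`, a contradiction to `C.hno`.
`{p ≤ u}`: for elements with `p` in `(s, t]`: `y ∈ R`: `p y ≤ p z₀` by `junction`; `I = {z₀}`.  So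
`{p ≤ u} = {p ≤ t}`, definable.  `{q ≤ u} = {q ≤ s}`: `x ∈ Lf`: `q x ≥ q z₀ > u` by `junction'`; `z₀`:
`q z₀ > u`.
`purity`: suppose `x` has `s < q x ≤ t` and `y` has `s < p y ≤ t`.  By `no_inner` (applied to `x` and `y`)
`p x ≤ s` and `t < q y`; `junction` with `y₀ = y` and the event `q x` gives an element of `I`, contradicting
`no_inner`.
-/

namespace PCA38

variable {V : Type} {m : ℤ} {p q : V → ℤ} {r : V → V → Prop}

theorem junction' [Finite V] (S : Sys m p q r) {s t : ℤ} (C : Cell p q r s t) (x₀ : V)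
    (h0 : p x₀ ≤ s) (h0' : s < q x₀) (h0'' : q x₀ ≤ t) :
    ∀ x, p x ≤ s → s < q x → q x ≤ t → ∀ z, s < p z → q z ≤ t → q z ≤ q x := by
  intro x h1 h2 h3 z h4 h5
  have hJ := junction (sys_reflect S) (cell_reflect (m := m) C) x₀ (by omega) (by omega)
    (by omega)
  have := (hJ.1 x (by omega) (by omega) (by omega) z).2 (by omega) (by omega)
  omega

theorem no_inner [Finite V] (S : Sys m p q r) {j₀ : ℤ} (h0 : gD p q r j₀) (hj : 2 ≤ j₀)
    (hj' : j₀ ≤ 2 * m - 2) {s t : ℤ} (C : Cell p q r s t) (z : V) :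
    ¬ (s < p z ∧ q z ≤ t) := by
  rintro ⟨hz1, hz2⟩
  have hlt := S.lt z
  have claim : ∀ w, ¬ (s < p w ∧ q w ≤ t) →
      (∀ z, s < p z → q z ≤ t → Dis p q w z) ∨ (∀ z, s < p z → q z ≤ t → Sb p q z w) := by
    intro w hw
    have hw' := S.lt w
    by_cases c1 : q w ≤ s
    · left
      intro z h1 h2
      exact Or.inl (by omega)
    by_cases c2 : t < p w
    · left
      intro z h1 h2
      exact Or.inr (by omega)
    right
    intro z h1 h2
    by_cases c3 : p w ≤ s
    · by_cases c4 : q w ≤ t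
      · have := junction' S C w c3 (by omega) c4 w c3 (by omega) c4 z h1 h2
        exact ⟨by omega, this⟩
      · exact ⟨by omega, by omega⟩
    · have c4 : t < q w := by omega
      have := ((junction S C w (by omega) (by omega) c4).1 w (by omega) (by omega) c4 z).2 h1 h2
      exact ⟨this, by omega⟩
  have hst : 2 ≤ s ∨ t ≤ 2 * m - 2 := by
    by_contra h
    push Not at h
    exact C.hno j₀ (by omega) (by omega) h0
  have huniq := S.m1 s t hst claim
  refine C.hno (p z) hz1 (by omega) ⟨?_, ?_⟩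
  · have key : ∀ x, p x ≤ p z ↔ p x ≤ t := by
      intro x
      constructor
      · intro h; omega
      · intro h
        by_cases c1 : p x ≤ s
        · omega
        by_cases c2 : q x ≤ t
        · rw [huniq x z (by omega) c2 hz1 hz2]
        · exact ((junction S C x (by omega) h (by omega)).1 x (by omega) h (by omega) z).2 hz1 hz2
    intro x₁ x₂ h
    have := C.ht.1 x₁ x₂ h
    simp only [Set.mem_ofPred_eq] at this ⊢
    rw [key, key]
    exact this
  · have key : ∀ x, q x ≤ p z ↔ q x ≤ s := by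
      intro x
      constructor
      · intro h
        by_contra c1
        by_cases c2 : p x ≤ s
        · have := junction' S C x c2 (by omega) (by omega) x c2 (by omega) (by omega) z hz1 hz2
          omega
        · have := huniq x z (by omega) (by omega) hz1 hz2
          subst this
          omega
      · intro h; omega
    intro x₁ x₂ h
    have := C.hs.2 x₁ x₂ h
    simp only [Set.mem_ofPred_eq] at this ⊢
    rw [key, key]
    exact this

theorem purity [Finite V] (S : Sys m p q r) {j₀ : ℤ} (h0 : gD p q r j₀) (hj : 2 ≤ j₀)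
    (hj' : j₀ ≤ 2 * m - 2) {s t : ℤ} (C : Cell p q r s t) :
    (∀ x, ¬ (s < q x ∧ q x ≤ t)) ∨ (∀ x, ¬ (s < p x ∧ p x ≤ t)) := by
  by_contra hcon
  push Not at hcon
  obtain ⟨⟨x, hx1, hx2⟩, ⟨y, hy1, hy2⟩⟩ := hcon
  have h2 := no_inner S h0 hj hj' C y
  obtain ⟨z, hz⟩ := (junction S C y hy1 hy2 (by
    by_contra h
    exact h2 ⟨hy1, not_lt.1 h⟩)).2 ⟨x, hx1, hx2⟩
  exact no_inner S h0 hj hj' C z hz

end PCA38
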