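import Pool.Agent.Work.MP_38bec5_lc.T.Defs
import Pool.Agent.Work.MP_38bec5_lc.P.LRen

set_option autoImplicit false

/-!
# LB (size M-L): the logic `C^4` and the 4-pebble game.

This is the analogue for four variables of `P/LTyp.lean` and `P/LDef.lean` (read their headers; if they
are already proved, adapt their proofs).

`bis4_of_equiv`.  Put `E x y z x' y' z' : ∀ φ : Fml 4, φ.free ⊆ {0, 1, 2} →
(Sat G φ ![x, y, z, x] ↔ Sat H φ ![x', y', z', x'])`.
`ext`: the type lemma of `P/LTyp.lean` for the formulas with all four variables,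
`p w φ = Sat G φ ![x, y, z, w]`; the hypothesis is `E` for `ex m 3 φ`.  From `f` we get
`E x y w x' y' (f w)` (rename by `swap 2 3`), `E x w z x' (f w) z'` (`swap 1 3`), `E w y z (f w) y' z'`
(`swap 0 3`), each time using `sat_ren` and `sat_congr` (the fourth coordinate is irrelevant).
`start`: types of one element `![z, z, z, z]` for formulas with `free ⊆ {0}`; to get
`E z z z (f z) (f z) (f z)` use `ex 0 1 (and (eq 0 1) (ex 0 2 (and (eq 0 2) φ)))`.
`eq`, `adj`: the formulas `eq 0 1`, `adj 0 1`.  `swap`: renaming by `swap 0 1` and `swap 1 2`.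

`definable_of_idf4`: word for word as `definable_of_idf` with `Fml 4`.
-/

namespace PCA38

private theorem lb_sep {X Φ : Type} [Nonempty Φ] (P : X → Φ → Prop) (neg : Φ → Φ)
    (and : Φ → Φ → Φ) (hneg : ∀ a φ, P a (neg φ) ↔ ¬ P a φ)
    (hand : ∀ a φ ψ, P a (and φ ψ) ↔ P a φ ∧ P a ψ) (c : X) (S : Finset X) :
    ∃ χ, P c χ ∧ ∀ d ∈ S, P d χ → ∀ φ, P c φ ↔ P d φ := by
  classical
  induction S using Finset.induction_on with
  | empty =>
    obtain ⟨φ⟩ := (inferInstance : Nonempty Φ)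
    by_cases h : P c φ
    · exact ⟨φ, h, by simp⟩
    · exact ⟨neg φ, (hneg c φ).2 h, by simp⟩
  | insert d S hd ih =>
    obtain ⟨χ, hχ, hS⟩ := ih
    by_cases hcd : ∀ φ, P c φ ↔ P d φ
    · refine ⟨χ, hχ, fun e he hPe => ?_⟩
      rcases Finset.mem_insert.1 he with rfl | he
      · exact hcd
      · exact hS e he hPe
    · obtain ⟨φ, h1, h2⟩ : ∃ φ, P c φ ∧ ¬ P d φ := by
        push Not at hcd
        obtain ⟨φ, ⟨h1, h2⟩ | ⟨h1, h2⟩⟩ := hcd
        · exact ⟨φ, h1, h2⟩
        · exact ⟨neg φ, (hneg c φ).2 h1, fun h => (hneg d φ).1 h h2⟩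
      refine ⟨and χ φ, (hand c χ φ).2 ⟨hχ, h1⟩, fun e he hPe => ?_⟩
      rcases Finset.mem_insert.1 he with rfl | he
      · exact absurd ((hand e χ φ).1 hPe).2 h2
      · exact hS e he ((hand e χ φ).1 hPe).1

private theorem lb_type {V W Φ : Type} [Finite V] [Finite W] [Nonempty Φ] (p : V → Φ → Prop)
    (p' : W → Φ → Prop) (neg : Φ → Φ) (and : Φ → Φ → Φ)
    (hneg : ∀ a φ, p a (neg φ) ↔ ¬ p a φ) (hneg' : ∀ a φ, p' a (neg φ) ↔ ¬ p' a φ)
    (hand : ∀ a φ ψ, p a (and φ ψ) ↔ p a φ ∧ p a ψ)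
    (hand' : ∀ a φ ψ, p' a (and φ ψ) ↔ p' a φ ∧ p' a ψ)
    (hcnt : ∀ φ, {a | p a φ}.ncard = {b | p' b φ}.ncard) :
    ∃ f : V ≃ W, ∀ a φ, p a φ ↔ p' (f a) φ := by
  classical
  have _ := Fintype.ofFinite V
  have _ := Fintype.ofFinite W
  obtain ⟨P, hPl, hPr⟩ : ∃ P : V ⊕ W → Φ → Prop, (∀ a, P (Sum.inl a) = p a) ∧
      ∀ b, P (Sum.inr b) = p' b := ⟨Sum.elim p p', fun _ => rfl, fun _ => rfl⟩
  have hN : ∀ c φ, P c (neg φ) ↔ ¬ P c φ := by
    rintro (a | b) φ
    · rw [hPl]; exact hneg a φ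
    · rw [hPr]; exact hneg' b φ
  have hA : ∀ c φ ψ, P c (and φ ψ) ↔ P c φ ∧ P c ψ := by
    rintro (a | b) φ ψ
    · rw [hPl]; exact hand a φ ψ
    · rw [hPr]; exact hand' b φ ψ
  obtain ⟨tV, htV⟩ : ∃ t : V → Set Φ, ∀ a, t a = {φ | p a φ} := ⟨fun a => {φ | p a φ}, fun _ => rfl⟩
  obtain ⟨tW, htW⟩ : ∃ t : W → Set Φ, ∀ b, t b = {φ | p' b φ} :=
    ⟨fun b => {φ | p' b φ}, fun _ => rfl⟩
  have hK : ∀ K : Set Φ, Nonempty ({a // tV a = K} ≃ {b // tW b = K}) := by
    intro K
    have key : ∀ c : V ⊕ W, K = {φ | P c φ} → Nonempty ({a // tV a = K} ≃ {b // tW b = K}) := by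
      intro c hc
      obtain ⟨χ, h1, h2⟩ := lb_sep P neg and hN hA c Finset.univ
      have e1 : ∀ a, tV a = K ↔ a ∈ {a | p a χ} := by
        intro a
        constructor
        · intro h
          have h3 : χ ∈ tV a := by rw [h, hc]; exact h1
          rw [htV] at h3
          exact h3
        · intro h
          have h3 := h2 (Sum.inl a) (Finset.mem_univ _) (by rw [hPl]; exact h)
          rw [htV, hc]
          ext φ
          have h4 := h3 φ
          rw [hPl] at h4
          exact h4.symm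
      have e2 : ∀ b, tW b = K ↔ b ∈ {b | p' b χ} := by
        intro b
        constructor
        · intro h
          have h3 : χ ∈ tW b := by rw [h, hc]; exact h1
          rw [htW] at h3
          exact h3
        · intro h
          have h3 := h2 (Sum.inr b) (Finset.mem_univ _) (by rw [hPr]; exact h)
          rw [htW, hc]
          ext φ
          have h4 := h3 φ
          rw [hPr] at h4
          exact h4.symm
      have e3 : Nat.card {a | p a χ} = Nat.card {b | p' b χ} := hcnt χ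
      obtain ⟨e4⟩ := Finite.card_eq.1 e3
      exact ⟨(Equiv.subtypeEquivRight e1).trans
        (e4.trans (Equiv.subtypeEquivRight e2).symm)⟩
    by_cases h1 : ∃ a, tV a = K
    · obtain ⟨a, ha⟩ := h1
      refine key (Sum.inl a) ?_
      rw [hPl, ← ha, htV]
    by_cases h2 : ∃ b, tW b = K
    · obtain ⟨b, hb⟩ := h2
      refine key (Sum.inr b) ?_
      rw [hPr, ← hb, htW]
    have i1 : IsEmpty {a // tV a = K} := ⟨fun a => h1 ⟨a.1, a.2⟩⟩
    have i2 : IsEmpty {b // tW b = K} := ⟨fun b => h2 ⟨b.1, b.2⟩⟩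
    exact ⟨Equiv.equivOfIsEmpty _ _⟩
  obtain ⟨e⟩ : Nonempty (∀ K : Set Φ, {a // tV a = K} ≃ {b // tW b = K}) :=
    ⟨fun K => (hK K).some⟩
  refine ⟨(Equiv.sigmaFiberEquiv tV).symm.trans
    ((Equiv.sigmaCongrRight e).trans (Equiv.sigmaFiberEquiv tW)), fun a φ => ?_⟩
  have h1 : ((Equiv.sigmaFiberEquiv tV).symm.trans
    ((Equiv.sigmaCongrRight e).trans (Equiv.sigmaFiberEquiv tW))) a =
      ((e (tV a)) ⟨a, rfl⟩).1 := rfl
  rw [h1]
  have h2 := ((e (tV a)) ⟨a, rfl⟩).2
  generalize ((e (tV a)) ⟨a, rfl⟩).1 = b at h2 ⊢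
  have h3 : φ ∈ tW b ↔ φ ∈ tV a := by rw [h2]
  rw [htW, htV] at h3
  exact h3.symm

private theorem lb_cnt_le {V W : Type} [Finite V] [Finite W] {q : V → Prop} {q' : W → Prop}
    (h : ∀ m : ℕ, (∃ A : Finset V, m + 1 ≤ A.card ∧ ∀ a ∈ A, q a) →
      ∃ A : Finset W, m + 1 ≤ A.card ∧ ∀ a ∈ A, q' a) : {a | q a}.ncard ≤ {b | q' b}.ncard := by
  classical
  have _ := Fintype.ofFinite V
  have _ := Fintype.ofFinite W
  rcases hn : {a | q a}.ncard with _ | m
  · exact Nat.zero_le _
  · obtain ⟨B, hB, hB'⟩ := h m ⟨Finset.univ.filter q, by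
      rw [Set.ncard_eq_toFinset_card'] at hn
      have : Finset.univ.filter q = {a | q a}.toFinset := by ext; simp
      rw [this, hn], by simp⟩
    refine hB.trans ?_
    have h1 : (B : Set W) ⊆ {b | q' b} := fun b hb => hB' b hb
    have h2 := Set.ncard_le_ncard h1 (Set.toFinite _)
    rwa [Set.ncard_coe_finset] at h2

private theorem lb_cnt {V W : Type} [Finite V] [Finite W] {q : V → Prop} {q' : W → Prop}
    (h : ∀ m : ℕ, (∃ A : Finset V, m + 1 ≤ A.card ∧ ∀ a ∈ A, q a) ↔
      ∃ A : Finset W, m + 1 ≤ A.card ∧ ∀ a ∈ A, q' a) : {a | q a}.ncard = {b | q' b}.ncard :=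
  le_antisymm (lb_cnt_le fun m => (h m).1) (lb_cnt_le fun m => (h m).2)

private theorem lb_models {V : Type} [Nonempty V] (G : SimpleGraph V) {φ : Fml 4}
    (hφ : φ.IsSentence) (s : Fin 4 → V) : Models G φ ↔ Sat G φ s := by
  constructor
  · intro h
    exact h s
  · intro h t
    rw [sat_congr G φ t s (fun i hi => by
      have h0 : φ.free = ∅ := hφ
      rw [h0] at hi
      exact absurd hi (Set.notMem_empty i))]
    exact h

/-- the game relation -/
private def lbE {V W : Type} (G : SimpleGraph V) (H : SimpleGraph W) (x y z : V)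
    (x' y' z' : W) : Prop :=
  ∀ φ : Fml 4, φ.free ⊆ {0, 1, 2} → (Sat G φ ![x, y, z, x] ↔ Sat H φ ![x', y', z', x'])

private theorem lb_upd {V : Type} (x y z u w : V) :
    Function.update ![x, y, z, u] 3 w = ![x, y, z, w] := by
  funext i
  fin_cases i <;> rfl

private theorem lb_ext {V W : Type} [Finite V] [Finite W] (G : SimpleGraph V)
    (H : SimpleGraph W) {x y z : V} {x' y' z' : W} (hE : lbE G H x y z x' y' z') :
    ∃ f : V ≃ W, ∀ w, lbE G H x y w x' y' (f w) ∧ lbE G H x w z x' (f w) z' ∧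
      lbE G H w y z (f w) y' z' := by
  have hne : Nonempty (Fml 4) := ⟨.eq 0 0⟩
  obtain ⟨f, hf⟩ := lb_type (Φ := Fml 4) (fun w φ => Sat G φ ![x, y, z, w])
    (fun w φ => Sat H φ ![x', y', z', w]) Fml.neg Fml.and (fun _ _ => Iff.rfl)
    (fun _ _ => Iff.rfl) (fun _ _ _ => Iff.rfl) (fun _ _ _ => Iff.rfl) (fun φ => by
      refine lb_cnt fun m => ?_
      have h1 := hE (Fml.ex m 3 φ) (by
        intro i hi
        have h2 : i ≠ 3 := fun h => hi.2 h
        fin_cases i
        · exact Or.inl rfl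
        · exact Or.inr (Or.inl rfl)
        · exact Or.inr (Or.inr rfl)
        · exact absurd rfl h2)
      simp only [Sat, lb_upd] at h1
      exact h1)
  refine ⟨f, fun w => ⟨fun φ hφ => ?_, fun φ hφ => ?_, fun φ hφ => ?_⟩⟩
  · have h1 := hf w (φ.ren (Equiv.swap 2 3))
    simp only [sat_ren] at h1
    have e1 : ∀ {X : Type} (G' : SimpleGraph X) (a b c d : X),
        Sat G' φ (![a, b, c, d] ∘ (Equiv.swap (2 : Fin 4) 3)) ↔ Sat G' φ ![a, b, d, a] := by
      intro X G' a b c d
      refine sat_congr G' φ _ _ fun i hi => ?_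
      rcases hφ hi with h | h | h
      · rw [h]; rfl
      · rw [h]; rfl
      · rw [h]; rfl
    rw [e1, e1] at h1
    exact h1
  · have h1 := hf w (φ.ren (Equiv.swap 1 3))
    simp only [sat_ren] at h1
    have e1 : ∀ {X : Type} (G' : SimpleGraph X) (a b c d : X),
        Sat G' φ (![a, b, c, d] ∘ (Equiv.swap (1 : Fin 4) 3)) ↔ Sat G' φ ![a, d, c, a] := by
      intro X G' a b c d
      refine sat_congr G' φ _ _ fun i hi => ?_
      rcases hφ hi with h | h | h
      · rw [h]; rfl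
      · rw [h]; rfl
      · rw [h]; rfl
    rw [e1, e1] at h1
    exact h1
  · have h1 := hf w (φ.ren (Equiv.swap 0 3))
    simp only [sat_ren] at h1
    have e1 : ∀ {X : Type} (G' : SimpleGraph X) (a b c d : X),
        Sat G' φ (![a, b, c, d] ∘ (Equiv.swap (0 : Fin 4) 3)) ↔ Sat G' φ ![d, b, c, d] := by
      intro X G' a b c d
      refine sat_congr G' φ _ _ fun i hi => ?_
      rcases hφ hi with h | h | h
      · rw [h]; rfl
      · rw [h]; rfl
      · rw [h]; rfl
    rw [e1, e1] at h1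
    exact h1

private theorem lb_diag1 {V : Type} (G : SimpleGraph V) (φ : Fml 4) (z : V) :
    Sat G (Fml.ex 0 1 (Fml.and (Fml.eq 0 1) φ)) ![z, z, z, z] ↔ Sat G φ ![z, z, z, z] := by
  have e : ∀ a : V, Function.update ![z, z, z, z] 1 a = ![z, a, z, z] := by
    intro a
    funext i
    fin_cases i <;> rfl
  simp only [Sat, e]
  constructor
  · rintro ⟨A, hA, hA'⟩
    obtain ⟨a, ha⟩ := Finset.card_pos.1 (by omega : 0 < A.card)
    obtain ⟨h1, h2⟩ := hA' a ha
    have h3 : z = a := h1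
    rw [← h3] at h2
    exact h2
  · intro h
    refine ⟨{z}, by simp, fun a ha => ?_⟩
    rw [Finset.mem_singleton] at ha
    rw [ha]
    exact ⟨rfl, h⟩

private theorem lb_diag2 {V : Type} (G : SimpleGraph V) (φ : Fml 4) (z : V) :
    Sat G (Fml.ex 0 2 (Fml.and (Fml.eq 0 2) φ)) ![z, z, z, z] ↔ Sat G φ ![z, z, z, z] := by
  have e : ∀ a : V, Function.update ![z, z, z, z] 2 a = ![z, z, a, z] := by
    intro a
    funext i
    fin_cases i <;> rfl
  simp only [Sat, e]
  constructor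
  · rintro ⟨A, hA, hA'⟩
    obtain ⟨a, ha⟩ := Finset.card_pos.1 (by omega : 0 < A.card)
    obtain ⟨h1, h2⟩ := hA' a ha
    have h3 : z = a := h1
    rw [← h3] at h2
    exact h2
  · intro h
    refine ⟨{z}, by simp, fun a ha => ?_⟩
    rw [Finset.mem_singleton] at ha
    rw [ha]
    exact ⟨rfl, h⟩

private theorem lb_start {V W : Type} [Finite V] [Nonempty V] [Finite W] [Nonempty W]
    (G : SimpleGraph V) (H : SimpleGraph W)
    (h : ∀ φ : Fml 4, φ.IsSentence → (Models G φ ↔ Models H φ)) :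
    ∃ f : V ≃ W, ∀ z, lbE G H z z z (f z) (f z) (f z) := by
  have hne : Nonempty {φ : Fml 4 // φ.free ⊆ {0}} := ⟨⟨.eq 0 0, by
    intro i hi
    rcases hi with hi | hi
    · exact hi
    · exact hi⟩⟩
  obtain ⟨v₀⟩ := (inferInstance : Nonempty V)
  obtain ⟨w₀⟩ := (inferInstance : Nonempty W)
  have hsat : ∀ {X : Type} (G' : SimpleGraph X) (φ : Fml 4), φ.free ⊆ {0} → ∀ (s : Fin 4 → X)
      (a : X), Sat G' φ (Function.update s 0 a) ↔ Sat G' φ ![a, a, a, a] := by
    intro X G' φ hφ s a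
    refine sat_congr G' φ _ _ fun i hi => ?_
    have h1 : i = 0 := hφ hi
    rw [h1, Function.update_self]
    rfl
  obtain ⟨f, hf⟩ := lb_type (Φ := {φ : Fml 4 // φ.free ⊆ {0}})
    (fun z φ => Sat G φ.1 ![z, z, z, z]) (fun z φ => Sat H φ.1 ![z, z, z, z])
    (fun φ => ⟨Fml.neg φ.1, φ.2⟩) (fun φ ψ => ⟨Fml.and φ.1 ψ.1, Set.union_subset φ.2 ψ.2⟩)
    (fun _ _ => Iff.rfl) (fun _ _ => Iff.rfl)
    (fun _ _ _ => Iff.rfl) (fun _ _ _ => Iff.rfl) (fun φ => by
      refine lb_cnt fun m => ?_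
      have hs : (Fml.ex m 0 φ.1).IsSentence := by
        change φ.1.free \ {0} = ∅
        exact Set.sdiff_eq_empty.2 φ.2
      have h1 := h _ hs
      rw [lb_models G hs (fun _ => v₀), lb_models H hs (fun _ => w₀)] at h1
      simp only [Sat, hsat _ φ.1 φ.2] at h1
      exact h1)
  refine ⟨f, fun z φ hφ => ?_⟩
  have h1 := hf z ⟨Fml.ex 0 1 (Fml.and (Fml.eq 0 1) (Fml.ex 0 2 (Fml.and (Fml.eq 0 2) φ))), by
    intro i hi
    obtain ⟨hi1, hi2⟩ := hi
    have hi3 : i ≠ 1 := fun h => hi2 h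
    rcases hi1 with h5 | h5
    · rcases h5 with h5 | h5
      · exact h5
      · exact absurd h5 hi3
    · obtain ⟨hi4, hi5⟩ := h5
      have hi6 : i ≠ 2 := fun h => hi5 h
      rcases hi4 with h6 | h6
      · rcases h6 with h6 | h6
        · exact h6
        · exact absurd h6 hi6
      · rcases hφ h6 with h7 | h7 | h7
        · exact h7
        · exact absurd h7 hi3
        · exact absurd h7 hi6⟩
  simp only [lb_diag1, lb_diag2] at h1
  exact h1

theorem bis4_of_equiv {V W : Type} [Finite V] [Nonempty V] [Finite W] [Nonempty W]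
    (G : SimpleGraph V) (H : SimpleGraph W)
    (h : ∀ φ : Fml 4, φ.IsSentence → (Models G φ ↔ Models H φ)) :
    ∃ E : V → V → V → W → W → W → Prop, Bis4 G H E := by
  refine ⟨lbE G H, lb_start G H h, ?_, ?_, ?_,
    fun x y z x' y' z' hE => lb_ext G H hE⟩
  · intro x y z x' y' z' hE
    exact hE (Fml.eq 0 1) (by
      intro i hi
      rcases hi with h | h
      · exact Or.inl h
      · exact Or.inr (Or.inl h))
  · intro x y z x' y' z' hE
    exact hE (Fml.adj 0 1) (by
      intro i hi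
      rcases hi with h | h
      · exact Or.inl h
      · exact Or.inr (Or.inl h))
  · intro x y z x' y' z' hE
    constructor
    · intro φ hφ
      have h1 := hE (φ.ren (Equiv.swap 0 1)) (by
        rw [free_ren]
        rintro _ ⟨i, hi, rfl⟩
        rcases hφ hi with h | h | h
        · rw [h]; exact Or.inr (Or.inl rfl)
        · rw [h]; exact Or.inl rfl
        · rw [h]; exact Or.inr (Or.inr rfl))
      rw [sat_ren, sat_ren] at h1
      have e1 : ∀ {X : Type} (G' : SimpleGraph X) (a b c : X),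
          Sat G' φ (![a, b, c, a] ∘ (Equiv.swap (0 : Fin 4) 1)) ↔ Sat G' φ ![b, a, c, b] := by
        intro X G' a b c
        refine sat_congr G' φ _ _ fun i hi => ?_
        rcases hφ hi with h | h | h
        · rw [h]; rfl
        · rw [h]; rfl
        · rw [h]; rfl
      rw [e1, e1] at h1
      exact h1
    · intro φ hφ
      have h1 := hE (φ.ren (Equiv.swap 1 2)) (by
        rw [free_ren]
        rintro _ ⟨i, hi, rfl⟩
        rcases hφ hi with h | h | h
        · rw [h]; exact Or.inl rfl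
        · rw [h]; exact Or.inr (Or.inr rfl)
        · rw [h]; exact Or.inr (Or.inl rfl))
      rw [sat_ren, sat_ren] at h1
      have e1 : ∀ {X : Type} (G' : SimpleGraph X) (a b c : X),
          Sat G' φ (![a, b, c, a] ∘ (Equiv.swap (1 : Fin 4) 2)) ↔ Sat G' φ ![a, c, b, a] := by
        intro X G' a b c
        refine sat_congr G' φ _ _ fun i hi => ?_
        rcases hφ hi with h | h | h
        · rw [h]; rfl
        · rw [h]; rfl
        · rw [h]; rfl
      rw [e1, e1] at h1
      exact h1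

private theorem lbd_models {V : Type} [Nonempty V] (G : SimpleGraph V) {φ : Fml 4}
    (hφ : φ.IsSentence) (s : Fin 4 → V) : Models G φ ↔ Sat G φ s := by
  constructor
  · intro h
    exact h s
  · intro h t
    rw [sat_congr G φ t s (fun i hi => by
      have h0 : φ.free = ∅ := hφ
      rw [h0] at hi
      exact absurd hi (Set.notMem_empty i))]
    exact h

private theorem lbd_ex {W : Type} [Finite W] (H : SimpleGraph W) (m : ℕ) (s : Fin 4 → W) :
    Sat H (Fml.ex m 0 (Fml.eq 0 0)) s ↔ m + 1 ≤ Nat.card W := by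
  have _ := Fintype.ofFinite W
  simp only [Sat]
  constructor
  · rintro ⟨A, hA, -⟩
    refine hA.trans ?_
    rw [Nat.card_eq_fintype_card]
    exact Finset.card_le_univ A
  · intro h
    refine ⟨Finset.univ, ?_, fun a _ => trivial⟩
    rwa [Finset.card_univ, ← Nat.card_eq_fintype_card]

private theorem lbd_free : (Fml.eq 0 0 : Fml 4).free \ {0} = ∅ := by
  change ({0, 0} : Set (Fin 4)) \ {0} = ∅
  simp

/-- the sentence which says that there are `n` elements -/
private def lbC (n : ℕ) : Fml 4 :=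
  Fml.and (Fml.ex (n - 1) 0 (Fml.eq 0 0)) (Fml.neg (Fml.ex n 0 (Fml.eq 0 0)))

private theorem lbC_sent (n : ℕ) : (lbC n).IsSentence := by
  change (Fml.eq 0 0 : Fml 4).free \ {0} ∪ (Fml.eq 0 0 : Fml 4).free \ {0} = ∅
  rw [lbd_free, Set.union_empty]

private theorem lbC_models {W : Type} [Finite W] [Nonempty W] (H : SimpleGraph W) {n : ℕ}
    (hn : 0 < n) : Models H (lbC n) ↔ Nat.card W = n := by
  obtain ⟨w⟩ := (inferInstance : Nonempty W)
  rw [lbd_models H (lbC_sent n) (fun _ => w)]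
  change (Sat H (Fml.ex (n - 1) 0 (Fml.eq 0 0)) _ ∧ ¬ Sat H (Fml.ex n 0 (Fml.eq 0 0)) _) ↔ _
  rw [lbd_ex, lbd_ex]
  omega

private theorem lbd_sep {V : Type} [Finite V] [Nonempty V] (G : SimpleGraph V) (h : Idf4 G)
    {n : ℕ} (hn : 0 < n) (S : Finset (SimpleGraph (Fin n))) :
    ∃ Φ : Fml 4, Φ.IsSentence ∧ Models G Φ ∧ ∀ K ∈ S, Models K Φ → Nonempty (G ≃g K) := by
  classical
  have hne : Nonempty (Fin n) := ⟨⟨0, hn⟩⟩
  induction S using Finset.induction_on with
  | empty =>
    have h1 : 0 < Nat.card V := Nat.card_pos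
    exact ⟨lbC (Nat.card V), lbC_sent _, (lbC_models G h1).2 rfl, by simp⟩
  | insert K S hK ih =>
    obtain ⟨Φ, h1, h2, h3⟩ := ih
    by_cases hiso : Nonempty (G ≃g K)
    · refine ⟨Φ, h1, h2, fun L hL hM => ?_⟩
      rcases Finset.mem_insert.1 hL with rfl | hL
      · exact hiso
      · exact h3 L hL hM
    · obtain ⟨φ, h4, h5, h6⟩ : ∃ φ : Fml 4, φ.IsSentence ∧ Models G φ ∧ ¬ Models K φ := by
        by_contra hcon
        push Not at hcon
        obtain ⟨v⟩ := (inferInstance : Nonempty V)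
        obtain ⟨w⟩ := hne
        have hne : Nonempty (Fin n) := ⟨w⟩
        obtain ⟨E, hE⟩ := bis4_of_equiv G K (fun φ hφ => ⟨hcon φ hφ, fun hK => by
          by_contra hG
          have hs : (Fml.neg φ).IsSentence := hφ
          have h7 : Models G (Fml.neg φ) := by
            rw [lbd_models G hs (fun _ => v)]
            rw [lbd_models G hφ (fun _ => v)] at hG
            exact hG
          have h8 := hcon _ hs h7
          rw [lbd_models K hs (fun _ => w)] at h8
          rw [lbd_models K hφ (fun _ => w)] at hK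
          exact h8 hK⟩)
        exact hiso (h (Fin n) K E hE)
      refine ⟨Fml.and Φ φ, ?_, fun s => ⟨h2 s, h5 s⟩, fun L hL hM => ?_⟩
      · change Φ.free ∪ φ.free = ∅
        have e1 : Φ.free = ∅ := h1
        have e2 : φ.free = ∅ := h4
        rw [e1, e2, Set.union_empty]
      rcases Finset.mem_insert.1 hL with rfl | hL
      · exact absurd (fun s => (hM s).2) h6
      · exact h3 L hL fun s => (hM s).1

theorem definable_of_idf4 {V : Type} [Finite V] [Nonempty V] (G : SimpleGraph V) (h : Idf4 G) :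
    DefinableIn 4 G := by
  classical
  have hn : 0 < Nat.card V := Nat.card_pos
  have _ := Fintype.ofFinite (SimpleGraph (Fin (Nat.card V)))
  obtain ⟨Φ, h1, h2, h3⟩ := lbd_sep G h hn Finset.univ
  refine ⟨Fml.and (lbC (Nat.card V)) Φ, ?_, fun s => ⟨(lbC_models G hn).2 rfl s, h2 s⟩, ?_⟩
  · change (lbC (Nat.card V)).free ∪ Φ.free = ∅
    have e1 : (lbC (Nat.card V)).free = ∅ := lbC_sent _
    have e2 : Φ.free = ∅ := h1
    rw [e1, e2, Set.union_empty]
  · intro W _ _ H hM
    have hc : Nat.card W = Nat.card V := (lbC_models H hn).1 fun s => (hM s).1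
    obtain ⟨e⟩ : Nonempty (W ≃ Fin (Nat.card V)) := Finite.card_eq.1 (by simpa using hc)
    have iso : H ≃g H.comap e.symm :=
      { toEquiv := e
        map_rel_iff' := by
          intro a b
          simp [SimpleGraph.comap_adj] }
    obtain ⟨f⟩ := h3 (H.comap e.symm) (Finset.mem_univ _) (fun t => by
      have h4 := (sat_iso iso Φ (iso.symm ∘ t)).1 ((hM (iso.symm ∘ t)).2)
      have h5 : iso ∘ (iso.symm ∘ t) = t := by
        funext i
        simp
      rw [h5] at h4
      exact h4)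
    exact ⟨f.trans iso.symm⟩

end PCA38
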