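import Pool.Agent.Work.MP_38bec5_lc.T.Rec

set_option autoImplicit false

/-!
# MA (size M): the axiom `m1` for linear models of prime graphs.

Notation: `I x = [P x, Q x)`; the arc `A x` of `x` is `I x` if `¬ c x` and the complement of `I x` if `c x`.
Let `S = {z | s < p z ∧ q z ≤ t}`.  Suppose `S` has two different elements.
(0) Two vertices are not both outside... precisely: there are two different vertices outside `S` in
case `Circ`, and at least one in the other case.  If `2 ≤ s`: case `Circ`: `x` with `c x`, `P x = 1`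
(`p x = 2 ≤ s`, so `x ∉ S`), and `y` from `starts 1` (`m ≥ 2` because `1 ≤ P x < Q x ≤ m`): `¬ c y, P y = 1`
(so `y ≠ x`, `y ∉ S`), or `c y, Q y = 1`, impossible.  If all flags are false: `y` from `starts 1`.
If `t ≤ 2m - 2`: case `Circ`: `x` with `c x`, `Q x = m` (`q x = 2m - 1 > t`) and `y` from `ends m`: `¬ c y`,
`Q y = m`, or `c y`, `P y = m`, impossible; if all flags are false: `y` from `ends m`.
(1) Suppose no element of `S` has flag `c`.  Then `S` is a module: let `w ∉ S`; by hypothesis either `I w` is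
disjoint from all `I z`, `z ∈ S`, or contains all of them.  `¬ c w`: `Adj w z ↔ I w` meets `I z`: the same for
all `z ∈ S`.  `c w`: `Adj z w ↔ ¬ (I z ⊆ I w)`: in the first case true for all `z`, in the second false for all.
By primality (`hp.mod`) `S` is a subsingleton (contradiction) or everything, contradicting (0).
(2) Suppose `z₁ ∈ S` has `c z₁` (so the case is `Circ`, `NoDE`).  Let `w ∉ S`.  CLAIM: either `c w` and `I w`
contains all `I z`, or `¬ c w` and `I w` is disjoint from all `I z` (`z ∈ S`).  Otherwise: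
 - `¬ c w` and `I w ⊇ I z` for all `z ∈ S`, in particular `I z₁ ⊆ I w`, i.e. `Sb z₁ w`; `I z₁ ≠ I w` since
   `w ∉ S`; `sb_iff` for `z₁, w` (`c z₁, ¬ c w`) gives a contradiction (all three alternatives are false).
 - `c w` and `I w` disjoint from `I z₁`: `dis_iff` for `w ≠ z₁` gives a contradiction.
Now `univ \ S` is a module: for `z ∈ S` with `¬ c z`: `z` is adjacent to no `w ∉ S` (`adj_ft`, resp. `adj_ff`); for
`z ∈ S` with `c z`: adjacent to all `w ∉ S` (`c w`: `adj_tt`; `¬ c w`: `adj_ft`, `I w ⊆ I z` is impossible as the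
intervals are disjoint and nonempty).  By `hp.mod` the complement of `S` is a subsingleton or
everything (then `S` is empty): both contradict (0) resp. `z₁ ∈ S`.
-/

namespace PCA38

variable {V : Type} {G : SimpleGraph V} {m : ℤ} {P Q : V → ℤ} {c : V → Prop}

theorem lin_m1 (L : Lin G m P Q c) (hp : Prm G) (hC : Circ G m P Q c ∨ ∀ x, ¬ c x) (s t : ℤ)
    (hst : 2 ≤ s ∨ t ≤ 2 * m - 2)
    (hw : ∀ w, ¬ (s < 2 * P w ∧ 2 * Q w - 1 ≤ t) →
      (∀ z, s < 2 * P z → 2 * Q z - 1 ≤ t →
        Dis (fun x => 2 * P x) (fun x => 2 * Q x - 1) w z) ∨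
      (∀ z, s < 2 * P z → 2 * Q z - 1 ≤ t →
        Sb (fun x => 2 * P x) (fun x => 2 * Q x - 1) z w)) :
    ∀ z z', s < 2 * P z → 2 * Q z - 1 ≤ t → s < 2 * P z' → 2 * Q z' - 1 ≤ t → z = z' := by
  by_contra hcon
  push Not at hcon
  obtain ⟨z₀, z₀', a1, a2, a3, a4, hne⟩ := hcon
  have hN : NoDE G ∨ ∀ x, ¬ c x := hC.imp (fun h => h.1) id
  have hm : 2 ≤ m := by
    have := L.one_le z₀
    have := L.lt z₀
    have := L.le z₀
    omega
  have hDs : ∀ x y, Dis (fun x => 2 * P x) (fun x => 2 * Q x - 1) x y →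
      (Q x ≤ P y ∨ Q y ≤ P x) := by
    intro x y h
    unfold Dis at h
    dsimp only at h
    omega
  have hSs : ∀ x y, Sb (fun x => 2 * P x) (fun x => 2 * Q x - 1) x y →
      (P y ≤ P x ∧ Q x ≤ Q y) := by
    intro x y h
    unfold Sb at h
    dsimp only at h
    omega
  -- an unflagged vertex outside
  have outY : ∃ y, ¬ c y ∧ ¬ (s < 2 * P y ∧ 2 * Q y - 1 ≤ t) := by
    rcases hst with h | h
    · obtain ⟨y, hy⟩ := L.starts 1 (le_refl _) (by omega)
      rcases hy with ⟨h1, h2⟩ | ⟨h1, h2⟩
      · exact ⟨y, h1, by omega⟩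
      · have := L.one_le y
        have := L.lt y
        omega
    · obtain ⟨y, hy⟩ := L.ends m hm (le_refl _)
      rcases hy with ⟨h1, h2⟩ | ⟨h1, h2⟩
      · exact ⟨y, h1, by omega⟩
      · have := L.le y
        have := L.lt y
        omega
  by_cases hfl : ∃ z, (s < 2 * P z ∧ 2 * Q z - 1 ≤ t) ∧ c z
  · -- some flagged element of S
    obtain ⟨z₁, ⟨b1, b2⟩, hz₁⟩ := hfl
    have hCirc : Circ G m P Q c := hC.resolve_right (fun h => h z₁ hz₁)
    have outX : ∃ x, c x ∧ ¬ (s < 2 * P x ∧ 2 * Q x - 1 ≤ t) := by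
      rcases hst with h | h
      · obtain ⟨x, h1, h2⟩ := hCirc.2.1
        exact ⟨x, h1, by omega⟩
      · obtain ⟨x, h1, h2⟩ := hCirc.2.2
        exact ⟨x, h1, by omega⟩
    have claim : ∀ w, ¬ (s < 2 * P w ∧ 2 * Q w - 1 ≤ t) →
        (c w ∧ ∀ z, s < 2 * P z → 2 * Q z - 1 ≤ t → (P w ≤ P z ∧ Q z ≤ Q w)) ∨
        (¬ c w ∧ ∀ z, s < 2 * P z → 2 * Q z - 1 ≤ t → (Q w ≤ P z ∨ Q z ≤ P w)) := by
      intro w hwS
      rcases hw w hwS with h | h
      · right
        refine ⟨?_, fun z h1 h2 => hDs w z (h z h1 h2)⟩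
        intro hcw
        have hne' : w ≠ z₁ := by
          rintro rfl
          exact hwS ⟨b1, b2⟩
        rcases (dis_iff L hN hne').1 (h z₁ b1 b2) with ⟨g, -⟩ | ⟨g, -⟩ | ⟨-, g, -⟩
        · exact g hcw
        · exact g hcw
        · exact g hz₁
      · left
        refine ⟨?_, fun z h1 h2 => hSs z w (h z h1 h2)⟩
        by_contra hcw
        have hne' : ¬ Eq2 (fun x => 2 * P x) (fun x => 2 * Q x - 1) z₁ w := by
          intro hE
          unfold Eq2 at hE
          dsimp only at hE
          exact hwS ⟨by omega, by omega⟩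
        rcases (sb_iff L hN hne').1 (h z₁ b1 b2) with ⟨g, -⟩ | ⟨-, g, -⟩ | ⟨g, -⟩
        · exact g hz₁
        · exact hcw g
        · exact g hz₁
    have hmod : IsMod G {w | ¬ (s < 2 * P w ∧ 2 * Q w - 1 ≤ t)} := by
      intro z hz x y hx hy
      have hz' : s < 2 * P z ∧ 2 * Q z - 1 ≤ t := by
        by_contra h
        exact hz h
      have lz := L.lt z
      have key : ∀ x, ¬ (s < 2 * P x ∧ 2 * Q x - 1 ≤ t) → (G.Adj z x ↔ c z) := by
        intro x hx
        have lx := L.lt x
        have hzx : z ≠ x := by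
          rintro rfl
          exact hx hz'
        rcases claim x hx with ⟨hcx, h⟩ | ⟨hcx, h⟩
        · have h' := h z hz'.1 hz'.2
          constructor
          · intro hadj
            by_contra hcz
            exact (L.adj_ft z x hcz hcx).1 hadj h'
          · intro hcz
            exact L.adj_tt z x hzx hcz hcx
        · have h' := h z hz'.1 hz'.2
          constructor
          · intro hadj
            by_contra hcz
            have := (L.adj_ff z x hzx hcz hcx).1 hadj
            omega
          · intro hcz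
            exact ((L.adj_ft x z hcx hcz).2 (by omega)).symm
      rw [key x hx, key y hy]
    rcases hp.mod _ hmod with h | h
    · obtain ⟨x, hx1, hx2⟩ := outX
      obtain ⟨y, hy1, hy2⟩ := outY
      have hxy : x = y := h hx2 hy2
      exact hy1 (hxy ▸ hx1)
    · have : z₁ ∈ ({w | ¬ (s < 2 * P w ∧ 2 * Q w - 1 ≤ t)} : Set V) := by
        rw [h]
        trivial
      exact this ⟨b1, b2⟩
  · push Not at hfl
    have hmod : IsMod G {w | s < 2 * P w ∧ 2 * Q w - 1 ≤ t} := by
      intro w hwS x y hx hy
      have hwS' : ¬ (s < 2 * P w ∧ 2 * Q w - 1 ≤ t) := hwS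
      have lw := L.lt w
      have hne' : ∀ x, (s < 2 * P x ∧ 2 * Q x - 1 ≤ t) → w ≠ x := by
        rintro x hx rfl
        exact hwS' hx
      by_cases hcw : c w
      · rcases hw w hwS' with h | h
        · have key : ∀ x, (s < 2 * P x ∧ 2 * Q x - 1 ≤ t) → G.Adj w x := by
            intro x hx
            have lx := L.lt x
            have h' := hDs w x (h x hx.1 hx.2)
            exact ((L.adj_ft x w (hfl x hx) hcw).2 (by omega)).symm
          exact iff_of_true (key x hx) (key y hy)
        · have key : ∀ x, (s < 2 * P x ∧ 2 * Q x - 1 ≤ t) → ¬ G.Adj w x := by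
            intro x hx hadj
            have h' := hSs x w (h x hx.1 hx.2)
            exact (L.adj_ft x w (hfl x hx) hcw).1 hadj.symm h'
          exact iff_of_false (key x hx) (key y hy)
      · rcases hw w hwS' with h | h
        · have key : ∀ x, (s < 2 * P x ∧ 2 * Q x - 1 ≤ t) → ¬ G.Adj w x := by
            intro x hx hadj
            have h' := hDs w x (h x hx.1 hx.2)
            have := (L.adj_ff w x (hne' x hx) hcw (hfl x hx)).1 hadj
            omega
          exact iff_of_false (key x hx) (key y hy)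
        · have key : ∀ x, (s < 2 * P x ∧ 2 * Q x - 1 ≤ t) → G.Adj w x := by
            intro x hx
            have lx := L.lt x
            have h' := hSs x w (h x hx.1 hx.2)
            exact (L.adj_ff w x (hne' x hx) hcw (hfl x hx)).2 (by omega)
          exact iff_of_true (key x hx) (key y hy)
    rcases hp.mod _ hmod with h | h
    · exact hne (h ⟨a1, a2⟩ ⟨a3, a4⟩)
    · obtain ⟨y, hy1, hy2⟩ := outY
      have : y ∈ ({w | s < 2 * P w ∧ 2 * Q w - 1 ≤ t} : Set V) := by
        rw [h]
        trivial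
      exact hy2 this

end PCA38
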