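import Pool.Agent.Work.MP_38bec5_lc.T.Rec

set_option autoImplicit false

/-!
# MB (size M): the axioms `m2`, `m2'` for linear models.

Points `0, ..., m-1`; the arc `A x` of `x` is `{j | P x ≤ j < Q x}` if `¬ c x`, and its complement if `c x`;
adjacency of different vertices is the arcs have a common point (this is what `adj_ff`, `adj_tt`,
`adj_ft` say).

`lin_m2`.  By `ends b` there is `y` with (`¬ c y`, `Q y = b`) or (`c y`, `P y = b`).  The first is excluded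
by `h1` (`2 a ≤ 2 b - 1 ≤ 2 b`).  So `c y`, `P y = b` (in particular all flags false is impossible, and we
are in the case `NoDE`); by `h2`: `2 b < 2 Q y - 1`.  By `starts a` (`a ≤ m - 1` as `a < b ≤ m`) there is `w`
with (`¬ c w`, `P w = a`) or (`c w`, `Q w = a`).
Second case: `I w = [P w, a)` and `I y = [b, Q y)` are disjoint (`a < b`), `w ≠ y`, both flagged:
`dis_iff` gives a contradiction.
First case: by `h2` (`p w = 2 a`): `2 b < 2 Q w - 1`, so `b < Q w`.  `G.Adj w y` (`adj_ft`: `P y = b ≤ P w = a` is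
false).  By `NoDE` there is `z` in neither `nb w` nor `nb y`.  `¬ c z` (otherwise `z ∈ nb y`), `z ≠ w, y`;
`adj_ft` for `z, y`: `b = P y ≤ P z`, `Q z ≤ Q y`; `adj_ff` for `z, w`: `Q z ≤ P w = a` or `Q w ≤ P z`; the former
contradicts `b ≤ P z < Q z`.  So `Q w ≤ P z`, and `w, y, z` are as required: `2 Q w - 1 < 2 P z`,
`2 Q z - 1 ≤ 2 Q y - 1`.

`lin_m2'` (mirror image).  By `starts a` there is `y` with (`¬ c y`, `P y = a`) (excluded by `h1`:
`2 a - 1 ≤ 2 a ≤ 2 b - 1`) or (`c y`, `Q y = a`).  By `h2`: `2 P y < 2 a - 1`.  By `ends b` (`2 ≤ b ≤ m`) there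
is `w` with (`¬ c w`, `Q w = b`) or (`c w`, `P w = b`).  Second case: `I w = [b, Q w)`, `I y = [P y, a)`
are disjoint, both flagged, contradiction by `dis_iff`.  First case: `2 P w < 2 a - 1`, so `P w < a`.
`G.Adj w y` (`adj_ft`: `Q w = b ≤ Q y = a` is false).  `NoDE` gives `z ∉ nb w ∪ nb y`: `¬ c z`,
`P y ≤ P z`, `Q z ≤ Q y = a`, and (`Q z ≤ P w` or `Q w = b ≤ P z`); the latter contradicts `P z < Q z ≤ a < b`.  So
`Q z ≤ P w`: `2 Q z - 1 < 2 P w`, `2 P y ≤ 2 P z`.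
-/

namespace PCA38

variable {V : Type} {G : SimpleGraph V} {m : ℤ} {P Q : V → ℤ} {c : V → Prop}

theorem lin_m2 (L : Lin G m P Q c) (hN : NoDE G ∨ ∀ x, ¬ c x) (a b : ℤ) (ha : 1 ≤ a)
    (hab : a < b) (hb : b ≤ m) (h1 : ∀ x, ¬ (2 * a ≤ 2 * Q x - 1 ∧ 2 * Q x - 1 ≤ 2 * b))
    (h2 : ∀ x, 2 * a ≤ 2 * P x → 2 * P x ≤ 2 * b → 2 * b < 2 * Q x - 1) :
    ∃ w y z, 2 * P w = 2 * a ∧ 2 * P y = 2 * b ∧ 2 * Q w - 1 < 2 * P z ∧
      2 * Q z - 1 ≤ 2 * Q y - 1 := by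
  obtain ⟨y, hy⟩ := L.ends b (by omega) hb
  rcases hy with ⟨hy1, hy2⟩ | ⟨hy1, hy2⟩
  · exact absurd ⟨by omega, by omega⟩ (h1 y)
  have hN' : NoDE G := hN.resolve_right (fun h => h y hy1)
  obtain ⟨w, hw⟩ := L.starts a ha (by omega)
  have h2y := h2 y (by omega) (by omega)
  have ly := L.lt y
  have lw := L.lt w
  rcases hw with ⟨hw1, hw2⟩ | ⟨hw1, hw2⟩
  · have h2w := h2 w (by omega) (by omega)
    have hadj : G.Adj w y := (L.adj_ft w y hw1 hy1).2 (by omega)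
    obtain ⟨z, hz1, hz2⟩ := hN' w y hadj
    have hz3 : ¬ (z = w ∨ G.Adj w z) := hz1
    have hz4 : ¬ (z = y ∨ G.Adj y z) := hz2
    push Not at hz3 hz4
    have hcz : ¬ c z := fun hcz => hz4.2 (L.adj_tt y z (Ne.symm hz4.1) hy1 hcz)
    have h5 : P y ≤ P z ∧ Q z ≤ Q y := by
      by_contra h6
      exact hz4.2 ((L.adj_ft z y hcz hy1).2 h6).symm
    have h6 : ¬ (P w < Q z ∧ P z < Q w) := fun h6 =>
      hz3.2 ((L.adj_ff w z (Ne.symm hz3.1) hw1 hcz).2 h6)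
    have lz := L.lt z
    exact ⟨w, y, z, by omega, by omega, by omega, by omega⟩
  · exfalso
    have hne : w ≠ y := by
      rintro rfl
      omega
    have hD : Dis (fun x => 2 * P x) (fun x => 2 * Q x - 1) w y := by
      left
      dsimp only
      omega
    rcases (dis_iff L hN hne).1 hD with ⟨h, -⟩ | ⟨h, -⟩ | ⟨-, h, -⟩
    · exact h hw1
    · exact h hw1
    · exact h hy1

theorem lin_m2' (L : Lin G m P Q c) (hN : NoDE G ∨ ∀ x, ¬ c x) (a b : ℤ) (ha : 1 ≤ a)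
    (hab : a < b) (hb : b ≤ m) (h1 : ∀ x, ¬ (2 * a - 1 ≤ 2 * P x ∧ 2 * P x ≤ 2 * b - 1))
    (h2 : ∀ x, 2 * a - 1 ≤ 2 * Q x - 1 → 2 * Q x - 1 ≤ 2 * b - 1 → 2 * P x < 2 * a - 1) :
    ∃ w y z, 2 * Q w - 1 = 2 * b - 1 ∧ 2 * Q y - 1 = 2 * a - 1 ∧ 2 * Q z - 1 < 2 * P w ∧
      2 * P y ≤ 2 * P z := by
  obtain ⟨y, hy⟩ := L.starts a ha (by omega)
  rcases hy with ⟨hy1, hy2⟩ | ⟨hy1, hy2⟩
  · exact absurd ⟨by omega, by omega⟩ (h1 y)
  have hN' : NoDE G := hN.resolve_right (fun h => h y hy1)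
  obtain ⟨w, hw⟩ := L.ends b (by omega) hb
  have h2y := h2 y (by omega) (by omega)
  have ly := L.lt y
  have lw := L.lt w
  rcases hw with ⟨hw1, hw2⟩ | ⟨hw1, hw2⟩
  · have h2w := h2 w (by omega) (by omega)
    have hadj : G.Adj w y := (L.adj_ft w y hw1 hy1).2 (by omega)
    obtain ⟨z, hz1, hz2⟩ := hN' w y hadj
    have hz3 : ¬ (z = w ∨ G.Adj w z) := hz1
    have hz4 : ¬ (z = y ∨ G.Adj y z) := hz2
    push Not at hz3 hz4
    have hcz : ¬ c z := fun hcz => hz4.2 (L.adj_tt y z (Ne.symm hz4.1) hy1 hcz)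
    have h5 : P y ≤ P z ∧ Q z ≤ Q y := by
      by_contra h6
      exact hz4.2 ((L.adj_ft z y hcz hy1).2 h6).symm
    have h6 : ¬ (P w < Q z ∧ P z < Q w) := fun h6 =>
      hz3.2 ((L.adj_ff w z (Ne.symm hz3.1) hw1 hcz).2 h6)
    have lz := L.lt z
    exact ⟨w, y, z, by omega, by omega, by omega, by omega⟩
  · exfalso
    have hne : w ≠ y := by
      rintro rfl
      omega
    have hD : Dis (fun x => 2 * P x) (fun x => 2 * Q x - 1) w y := by
      right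
      dsimp only
      omega
    rcases (dis_iff L hN hne).1 hD with ⟨h, -⟩ | ⟨h, -⟩ | ⟨-, h, -⟩
    · exact h hw1
    · exact h hw1
    · exact h hy1

end PCA38
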