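import Pool.Agent.Work.MP_38bec5_lc.T.Step
import Pool.Agent.Work.MP_38bec5_lc.T.LB

set_option autoImplicit false

/-!
# MainT (size S-M): circular-arc graphs without a dominating edge are definable in `C^4`.

PROOF of `idf4_main` by strong induction on `Nat.card V`.  Subsingleton: `idf4_subsingleton`.  Let `V` be
nontrivial.
(a) `G` not connected: every component `c` has `c.supp ≠ univ`, so fewer elements, and `G.induce c.supp` is
`IsIv` (`iv_of_component`, with `ca_of_iv` in the first case); induction and `idf4_of_components`.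
(b) `Gᶜ` not connected.  In the second case (`NoDE`) this is impossible: let `c` be a component of `Gᶜ`
with `c.supp ≠ univ`, `x ∈ c.supp`, `y ∉ c.supp`; `G.Adj x y`; a vertex `z ∈ c.supp` is adjacent to `y`, a vertex
`z ∉ c.supp` is adjacent to `x` (in `G`; different components of `Gᶜ`): the edge `x y` is dominating,
contradiction.  So `IsIv G`; for every component `c` of `Gᶜ`: `Gᶜ.induce c.supp = (G.induce c.supp)ᶜ`,
`iv_induce`, induction, `idf4_compl`; `idf4_of_components` for `Gᶜ`, and `idf4_compl`.
(c) Both connected: `idf4_step`; for `IH`: a module `M ≠ univ` has fewer elements, and `G.induce M` is `IsIv` by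
`iv_of_module`.
`mainT`: with `definable_of_idf4`.
-/

namespace PCA38

private theorem supp_ne {V : Type} [Nonempty V] {K : SimpleGraph V} (hK : ¬ K.Connected)
    (c : K.ConnectedComponent) : c.supp ≠ Set.univ := by
  intro h
  apply hK
  refine ⟨fun x y => ?_⟩
  have hx : x ∈ c.supp := by rw [h]; trivial
  have hy : y ∈ c.supp := by rw [h]; trivial
  have h1 : K.connectedComponentMk x = c := hx
  have h2 : K.connectedComponentMk y = c := hy
  exact SimpleGraph.ConnectedComponent.exact (h1.trans h2.symm)

private theorem card_lt {V : Type} [Finite V] {A : Set V} (hA : A ≠ Set.univ) :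
    Nat.card A < Nat.card V := by
  obtain ⟨x, hx⟩ := (Set.ne_univ_iff_exists_notMem A).1 hA
  exact Finite.card_subtype_lt hx

private theorem compl_induce {V : Type} (G : SimpleGraph V) (A : Set V) :
    (Gᶜ.induce A)ᶜ = G.induce A := by
  ext x y
  simp only [SimpleGraph.compl_adj, SimpleGraph.comap_adj, Function.Embedding.subtype_apply]
  constructor
  · rintro ⟨h1, h2⟩
    by_contra h3
    exact h2 ⟨fun h => h1 (Subtype.ext h), h3⟩
  · intro h
    exact ⟨fun h1 => h.ne (congrArg _ h1), fun h2 => h2.2 h⟩

private theorem node_coconn {V : Type} [Nonempty V] {G : SimpleGraph V} (hN : NoDE G) :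
    Gᶜ.Connected := by
  by_contra hcc
  obtain ⟨x⟩ := ‹Nonempty V›
  have hne := supp_ne hcc (Gᶜ.connectedComponentMk x)
  obtain ⟨y, hy⟩ := (Set.ne_univ_iff_exists_notMem _).1 hne
  have key : ∀ u v, u ∈ (Gᶜ.connectedComponentMk x).supp →
      v ∉ (Gᶜ.connectedComponentMk x).supp → G.Adj u v := by
    intro u v hu hv
    by_contra h
    apply hv
    have huv : u ≠ v := fun huv => hv (huv ▸ hu)
    have h1 : Gᶜ.Adj u v := (SimpleGraph.compl_adj G u v).2 ⟨huv, h⟩
    have h2 : Gᶜ.connectedComponentMk u = Gᶜ.connectedComponentMk x := hu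
    show Gᶜ.connectedComponentMk v = Gᶜ.connectedComponentMk x
    rw [← h2]
    exact (SimpleGraph.ConnectedComponent.sound h1.reachable).symm
  have hx : x ∈ (Gᶜ.connectedComponentMk x).supp := rfl
  obtain ⟨z, hz1, hz2⟩ := hN x y (key x y hx hy)
  by_cases hz : z ∈ (Gᶜ.connectedComponentMk x).supp
  · exact hz2 (Or.inr (key z y hz hy).symm)
  · exact hz1 (Or.inr (key x z hx hz))

private theorem idf4_aux (n : ℕ) : ∀ (V : Type) [Finite V] (G : SimpleGraph V),
    Nat.card V = n → (IsIv G ∨ (IsCA G ∧ NoDE G)) → Idf4 G := by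
  induction n using Nat.strong_induction_on with
  | _ n ih =>
  intro V _ G hn h
  rcases subsingleton_or_nontrivial V with hV | hV
  · exact idf4_subsingleton
  by_cases hc : G.Connected
  · by_cases hcc : Gᶜ.Connected
    · refine idf4_step hc hcc h ?_
      intro M hM hM'
      have hCA : IsCA G := h.elim ca_of_iv And.left
      exact ih _ (hn ▸ card_lt hM') _ _ rfl (Or.inl (iv_of_module hCA hcc M hM hM'))
    · rcases h with h | ⟨-, h⟩
      · apply idf4_compl
        apply idf4_of_components
        intro c
        apply idf4_compl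
        rw [compl_induce]
        exact ih _ (hn ▸ card_lt (supp_ne hcc c)) _ _ rfl (Or.inl (iv_induce h _))
      · exact absurd (node_coconn h) hcc
  · apply idf4_of_components
    intro c
    have hCA : IsCA G := h.elim ca_of_iv And.left
    exact ih _ (hn ▸ card_lt (supp_ne hc c)) _ _ rfl
      (Or.inl (iv_of_component hCA c (supp_ne hc c)))

theorem idf4_main : ∀ (V : Type) [Finite V] (G : SimpleGraph V),
    (IsIv G ∨ (IsCA G ∧ NoDE G)) → Idf4 G :=
  fun V _ G h => idf4_aux _ V G rfl h

theorem mainT :
    (∀ (V : Type) [Finite V] [Nonempty V] (G : SimpleGraph V), IsCA G → NoDE G →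
      DefinableIn 4 G) ∧
    (∀ (V : Type) [Finite V] [Nonempty V] (G : SimpleGraph V), IsIv G → DefinableIn 4 G) :=
  ⟨fun V _ _ G h h' => definable_of_idf4 G (idf4_main V G (Or.inr ⟨h, h'⟩)),
    fun V _ _ G h => definable_of_idf4 G (idf4_main V G (Or.inl h))⟩

end PCA38
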