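import Pool.Agent.Work.MP_38bec5_lc.T.MainT

set_option autoImplicit false

/-!
# MainU: circular-arc graphs in which every dominating edge contains a universal vertex.
-/

namespace PCA38

private theorem compl_induce {V : Type} (G : SimpleGraph V) (A : Set V) :
    (Gᶜ.induce A)ᶜ = G.induce A := by
  ext x y
  simp only [SimpleGraph.compl_adj, SimpleGraph.comap_adj, Function.Embedding.subtype_apply]
  constructor
  · rintro ⟨h1, h2⟩
    by_contra h3
    exact h2 ⟨fun h => h1 (Subtype.ext h), h3⟩
  · intro h
    exact ⟨fun h1 => h.ne (congrArg _ h1), fun h2 => h2.2 h⟩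

private theorem domU_comp {V : Type} {G : SimpleGraph V} (h : DomU G)
    (c : Gᶜ.ConnectedComponent) : DomU (G.induce c.supp) := by
  intro x y hxy
  have hxy' : G.Adj x y := hxy
  have hmem : ∀ (x : c.supp) (z : V), z ∉ nb G x → z ∈ c.supp := by
    intro x z hz
    have h1 : Gᶜ.Adj x z := by
      rw [SimpleGraph.compl_adj]
      exact ⟨fun h => hz (Or.inl h.symm), fun h => hz (Or.inr h)⟩
    have h2 : Gᶜ.connectedComponentMk (x : V) = c := x.2
    have h3 := SimpleGraph.ConnectedComponent.sound h1.reachable
    rw [h2] at h3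
    exact h3.symm
  have hnb : ∀ (x z : c.supp), z ∈ nb (G.induce c.supp) x ↔ (z : V) ∈ nb G x := by
    intro x z
    constructor
    · rintro (h | h)
      · exact Or.inl (congrArg _ h)
      · exact Or.inr h
    · rintro (h | h)
      · exact Or.inl (Subtype.ext h)
      · exact Or.inr h
  rcases h x y hxy' with ⟨z, hz1, hz2⟩ | h1 | h1
  · exact Or.inl ⟨⟨z, hmem x z hz1⟩, fun h => hz1 ((hnb _ _).1 h), fun h => hz2 ((hnb _ _).1 h)⟩
  · exact Or.inr (Or.inl fun z => (hnb _ _).2 (h1 z))
  · exact Or.inr (Or.inr fun z => (hnb _ _).2 (h1 z))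

private theorem idf4_domU_aux (n : ℕ) : ∀ (V : Type) [Finite V] (G : SimpleGraph V),
    Nat.card V = n → IsCA G → DomU G → Idf4 G := by
  induction n using Nat.strong_induction_on with
  | _ n ih =>
  intro V _ G hn hCA h
  rcases subsingleton_or_nontrivial V with hV | hV
  · exact idf4_subsingleton
  by_cases hu : ∃ u, ∀ z, z ∈ nb G u
  · obtain ⟨u, hu⟩ := hu
    have hiso : ∀ z, ¬ Gᶜ.Adj u z := by
      intro z hz
      rw [SimpleGraph.compl_adj] at hz
      rcases hu z with h1 | h1
      · exact hz.1 h1.symm
      · exact hz.2 h1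
    have hne : ∀ c : Gᶜ.ConnectedComponent, ∃ x, x ∉ c.supp := by
      intro c
      by_contra hcon
      push Not at hcon
      obtain ⟨y, hy⟩ := exists_ne u
      have h1 : Gᶜ.connectedComponentMk u = c := hcon u
      have h2 : Gᶜ.connectedComponentMk y = c := hcon y
      obtain ⟨p⟩ := SimpleGraph.ConnectedComponent.exact (h1.trans h2.symm)
      cases p with
      | nil => exact hy rfl
      | cons h _ => exact hiso _ h
    apply idf4_compl
    apply idf4_of_components
    intro c
    apply idf4_compl
    rw [compl_induce]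
    obtain ⟨x, hx⟩ := hne c
    have hlt : Nat.card c.supp < Nat.card V := Finite.card_subtype_lt hx
    exact ih _ (hn ▸ hlt) _ _ rfl (ca_induce hCA _) (domU_comp h c)
  · have hN : NoDE G := by
      intro x y hxy
      rcases h x y hxy with h1 | h1 | h1
      · exact h1
      · exact absurd ⟨x, h1⟩ hu
      · exact absurd ⟨y, h1⟩ hu
    exact idf4_main V G (Or.inr ⟨hCA, hN⟩)

/-- Circular-arc graphs in which every dominating edge contains a universal vertex. -/
theorem mainU (V : Type) [Finite V] [Nonempty V] (G : SimpleGraph V) (h : IsCA G)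
    (h' : DomU G) : DefinableIn 4 G :=
  definable_of_idf4 G (idf4_domU_aux _ V G rfl h h')

end PCA38
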