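import Pool.Agent.Work.MP_38bec5_lc.T.Defs

set_option autoImplicit false

/-!
# Md (size M): maximal modules of a connected and co-connected graph.

(1) If `M₁, M₂` are modules, `M₁ ≠ univ`, `M₂ ≠ univ` and `M₁ ∩ M₂` is nonempty, then `M₁ ∪ M₂` is a module
(easy, through a common element) and `M₁ ∪ M₂ ≠ univ`.  Proof of the latter: suppose
`M₁ ∪ M₂ = univ`; put `A = univ \ M₂ ⊆ M₁`, `C = univ \ M₁ ⊆ M₂`, `B = M₁ ∩ M₂`, all nonempty.  Every `a ∈ A` is
uniform on `M₂ = B ∪ C`, every `c ∈ C` is uniform on `M₁ = A ∪ B`.  Hence `Adj a c` has the same truth value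
`τ` for all `a ∈ A`, `c ∈ C` (change `c` using `a`, change `a` using `c`), and `Adj a b ↔ τ` for `a ∈ A`,
`b ∈ B`.  If `τ` is false, there is no edge between `A` and its complement, contradicting that `G` is
connected; if `τ` is true the same holds in `Gᶜ`.
(2) `sm_equiv`: reflexive since `{x}` is a module `≠ univ` (`V` nontrivial); symmetric; transitive by (1).
(3) `sm_class`: `V` is finite; among the proper modules containing `x` take one, `M`, with the largest
number of elements (`{x}` is one).  By (1) it contains every proper module containing `x`.  So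
`{y | SM G x y} = M`.
(4) `cong_of_sm`: for `¬ SM x y` use first that `y` is outside the module `[x]`, then that `x₂` is outside
the module `[y]`.
(5) `quo_prm`.  `quo G s` is connected (image of the connected `G` under the quotient map: reachability
of `x, y` gives reachability of the classes, steps inside a class being trivial) and co-connected (if
`⟦x⟧ ≠ ⟦y⟧` and `¬ Adj x y` then, by `cong_of_sm`, `¬ Adj ⟦x⟧ ⟦y⟧`).  Nontrivial by (3) (`[x] ≠ univ`).
Modules: if `𝓜` is a module of `quo G s`, then `N = {x | ⟦x⟧ ∈ 𝓜}` is a module of `G` (by `cong_of_sm`).  If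
`N = univ` then `𝓜 = univ`; otherwise any two elements of `N` are in relation `SM`, so `𝓜` is a
subsingleton.
-/

namespace PCA38

variable {V : Type} {G : SimpleGraph V}

private theorem cut {H : SimpleGraph V} (hc : H.Connected) (S : Set V) {a b : V} (ha : a ∉ S)
    (hb : b ∈ S) (h : ∀ x, x ∉ S → ∀ y ∈ S, ¬ H.Adj x y) : False := by
  obtain ⟨p⟩ := hc.preconnected b a
  obtain ⟨d, _, hd1, hd2⟩ := p.exists_boundary_dart S hb ha
  exact h d.snd hd2 d.fst hd1 d.adj.symm

private theorem union_mod {M₁ M₂ : Set V} (h₁ : IsMod G M₁) (h₂ : IsMod G M₂) {b : V}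
    (hb₁ : b ∈ M₁) (hb₂ : b ∈ M₂) : IsMod G (M₁ ∪ M₂) := by
  have key : ∀ z, z ∉ M₁ ∪ M₂ → ∀ x ∈ M₁ ∪ M₂, (G.Adj z x ↔ G.Adj z b) := by
    intro z hz x hx
    rcases hx with hx | hx
    · exact h₁ z (fun h => hz (Or.inl h)) x b hx hb₁
    · exact h₂ z (fun h => hz (Or.inr h)) x b hx hb₂
  intro z hz x y hx hy
  exact (key z hz x hx).trans (key z hz y hy).symm

private theorem union_ne (hc : G.Connected) (hcc : Gᶜ.Connected) {M₁ M₂ : Set V}
    (h₁ : IsMod G M₁) (h₂ : IsMod G M₂) (n₁ : M₁ ≠ Set.univ) (n₂ : M₂ ≠ Set.univ) :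
    M₁ ∪ M₂ ≠ Set.univ := by
  intro hu
  obtain ⟨a, ha⟩ := (Set.ne_univ_iff_exists_notMem _).1 n₂
  obtain ⟨c, hc'⟩ := (Set.ne_univ_iff_exists_notMem _).1 n₁
  have hm : ∀ x, x ∈ M₁ ∨ x ∈ M₂ := fun x => by
    have : x ∈ M₁ ∪ M₂ := by rw [hu]; trivial
    exact this
  have hcM : c ∈ M₂ := (hm c).resolve_left hc'
  have key : ∀ x, x ∉ M₂ → ∀ y ∈ M₂, (G.Adj x y ↔ G.Adj a c) := by
    intro x hx y hy
    have e1 : G.Adj x y ↔ G.Adj x c := h₂ x hx y c hy hcM
    have e2 : G.Adj c x ↔ G.Adj c a :=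
      h₁ c hc' x a ((hm x).resolve_right hx) ((hm a).resolve_right ha)
    rw [e1, G.adj_comm x c, e2, G.adj_comm c a]
  by_cases ht : G.Adj a c
  · refine cut hcc M₂ ha hcM (fun x hx y hy => ?_)
    rw [SimpleGraph.compl_adj]
    exact fun h => h.2 ((key x hx y hy).2 ht)
  · exact cut hc M₂ ha hcM (fun x hx y hy h => ht ((key x hx y hy).1 h))

private theorem sing_mod (x : V) : IsMod G {x} := by
  intro z _ a b ha hb
  rw [Set.mem_singleton_iff] at ha hb
  rw [ha, hb]

private theorem sm_tr (hc : G.Connected) (hcc : Gᶜ.Connected) {x y z : V} (h : SM G x y)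
    (h' : SM G y z) : SM G x z := by
  obtain ⟨M, m1, m2, m3, m4⟩ := h
  obtain ⟨N, n1, n2, n3, n4⟩ := h'
  exact ⟨M ∪ N, union_mod m1 n1 m4 n3, union_ne hc hcc m1 n1 m2 n2, Or.inl m3, Or.inr n4⟩

private theorem sm_sy {x y : V} (h : SM G x y) : SM G y x := by
  obtain ⟨M, m1, m2, m3, m4⟩ := h
  exact ⟨M, m1, m2, m4, m3⟩

theorem sm_equiv [Finite V] [Nontrivial V] (hc : G.Connected) (hcc : Gᶜ.Connected) :
    Equivalence (SM G) :=
  ⟨fun x => ⟨{x}, sing_mod x, Set.singleton_ne_univ x, rfl, rfl⟩, fun h => sm_sy h,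
    fun h h' => sm_tr hc hcc h h'⟩

theorem sm_class [Finite V] [Nontrivial V] (hc : G.Connected) (hcc : Gᶜ.Connected) (x : V) :
    IsMod G {y | SM G x y} ∧ {y | SM G x y} ≠ Set.univ := by
  constructor
  · intro z hz a b ha hb
    have ha' : SM G x a := ha
    have hb' : SM G x b := hb
    obtain ⟨M, m1, m2, m3, m4⟩ := sm_tr hc hcc (sm_sy ha') hb'
    refine m1 z (fun hzM => hz ?_) a b m3 m4
    exact sm_tr hc hcc ha' ⟨M, m1, m2, m3, hzM⟩
  · intro hu
    have hfin : {M : Set V | IsMod G M ∧ M ≠ Set.univ ∧ x ∈ M}.Finite := Set.toFinite _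
    have hne : {M : Set V | IsMod G M ∧ M ≠ Set.univ ∧ x ∈ M}.Nonempty :=
      ⟨{x}, sing_mod x, Set.singleton_ne_univ x, rfl⟩
    obtain ⟨M, hM⟩ := hfin.exists_maximal hne
    obtain ⟨m1, m2, m3⟩ := hM.prop
    obtain ⟨y, hy⟩ := (Set.ne_univ_iff_exists_notMem _).1 m2
    have hy' : y ∈ {y | SM G x y} := by rw [hu]; trivial
    obtain ⟨N, n1, n2, n3, n4⟩ := hy'
    have hle : M ∪ N ≤ M := hM.le_of_ge
      ⟨union_mod m1 n1 m3 n3, union_ne hc hcc m1 n1 m2 n2, Or.inl m3⟩ Set.subset_union_left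
    exact hy (hle (Or.inr n4))

theorem cong_of_sm [Finite V] [Nontrivial V] (hc : G.Connected) (hcc : Gᶜ.Connected)
    (s : Setoid V) (hs : ∀ x y, s.r x y ↔ SM G x y) : Cong G s := by
  intro x y x₂ y₂ hx hy hxy
  have h1 : G.Adj y x ↔ G.Adj y x₂ := by
    refine (sm_class hc hcc x).1 y (fun h => hxy ((hs x y).2 h)) x x₂ ?_ ((hs x x₂).1 hx)
    exact (sm_equiv hc hcc).refl x
  have h2 : G.Adj x₂ y ↔ G.Adj x₂ y₂ := by
    refine (sm_class hc hcc y).1 x₂ (fun h => hxy ((hs x y).2 ?_)) y y₂ ?_ ((hs y y₂).1 hy)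
    · exact sm_tr hc hcc ((hs x x₂).1 hx) (sm_sy h)
    · exact (sm_equiv hc hcc).refl y
  rw [G.adj_comm x y, h1, G.adj_comm y x₂, h2]

theorem quo_prm [Finite V] [Nontrivial V] (hc : G.Connected) (hcc : Gᶜ.Connected)
    (s : Setoid V) (hs : ∀ x y, s.r x y ↔ SM G x y) : Prm (quo G s) := by
  have hcong := cong_of_sm hc hcc s hs
  have hqe : ∀ x y : V, Quotient.mk s x = Quotient.mk s y ↔ s.r x y := fun x y =>
    ⟨fun h => Quotient.exact h, fun h => Quotient.sound h⟩
  have hadj : ∀ x y : V, ¬ s.r x y →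
      ((quo G s).Adj (Quotient.mk s x) (Quotient.mk s y) ↔ G.Adj x y) := by
    intro x y hxy
    constructor
    · rintro ⟨_, x', y', hx', hy', ha⟩
      exact (hcong x' y' x y ((hqe _ _).1 hx') ((hqe _ _).1 hy') (fun h => hxy
        (s.iseqv.trans (s.iseqv.symm ((hqe _ _).1 hx')) (s.iseqv.trans h ((hqe _ _).1 hy'))))).1 ha
    · intro ha
      exact ⟨fun h => hxy ((hqe _ _).1 h), x, y, rfl, rfl, ha⟩
  refine ⟨?_, ?_, ?_, ?_⟩
  · obtain ⟨x⟩ : Nonempty V := inferInstance
    obtain ⟨y, hy⟩ := (Set.ne_univ_iff_exists_notMem _).1 (sm_class hc hcc x).2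
    exact ⟨⟨Quotient.mk s x, Quotient.mk s y, fun h => hy ((hs x y).1 ((hqe _ _).1 h))⟩⟩
  · have hr : ∀ x y : V, G.Reachable x y →
        (quo G s).Reachable (Quotient.mk s x) (Quotient.mk s y) := by
      rintro x y ⟨p⟩
      induction p with
      | nil => exact SimpleGraph.Reachable.refl _
      | cons h p ih =>
        rename_i u v' w
        refine SimpleGraph.Reachable.trans ?_ ih
        by_cases huv : s.r u v'
        · rw [(hqe u v').2 huv]
        · exact ((hadj u v' huv).2 h).reachable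
    have hne : Nonempty (Quotient s) := Nonempty.map (Quotient.mk s) inferInstance
    refine SimpleGraph.Connected.mk (fun X Y => ?_)
    obtain ⟨x, rfl⟩ := Quotient.exists_rep X
    obtain ⟨y, rfl⟩ := Quotient.exists_rep Y
    exact hr x y (hc.preconnected x y)
  · have hr : ∀ x y : V, Gᶜ.Reachable x y →
        (quo G s)ᶜ.Reachable (Quotient.mk s x) (Quotient.mk s y) := by
      rintro x y ⟨p⟩
      induction p with
      | nil => exact SimpleGraph.Reachable.refl _
      | cons h p ih =>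
        rename_i u v' w
        refine SimpleGraph.Reachable.trans ?_ ih
        by_cases huv : s.r u v'
        · rw [(hqe u v').2 huv]
        · refine SimpleGraph.Adj.reachable ?_
          rw [SimpleGraph.compl_adj] at h ⊢
          exact ⟨fun he => huv ((hqe _ _).1 he), fun ha => h.2 ((hadj u v' huv).1 ha)⟩
    have hne : Nonempty (Quotient s) := Nonempty.map (Quotient.mk s) inferInstance
    refine SimpleGraph.Connected.mk (fun X Y => ?_)
    obtain ⟨x, rfl⟩ := Quotient.exists_rep X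
    obtain ⟨y, rfl⟩ := Quotient.exists_rep Y
    exact hr x y (hcc.preconnected x y)
  · intro M hM
    have hN : IsMod G {x | Quotient.mk s x ∈ M} := by
      intro z hz x y hx hy
      have hzx : ¬ s.r z x := fun h => hz (by
        show Quotient.mk s z ∈ M
        rw [(hqe z x).2 h]; exact hx)
      have hzy : ¬ s.r z y := fun h => hz (by
        show Quotient.mk s z ∈ M
        rw [(hqe z y).2 h]; exact hy)
      rw [← hadj z x hzx, ← hadj z y hzy]
      exact hM _ hz _ _ hx hy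
    by_cases hu : {x | Quotient.mk s x ∈ M} = Set.univ
    · right
      ext X
      obtain ⟨x, rfl⟩ := Quotient.exists_rep X
      have : x ∈ {x | Quotient.mk s x ∈ M} := by rw [hu]; trivial
      exact ⟨fun _ => trivial, fun _ => this⟩
    · left
      intro X hX Y hY
      obtain ⟨x, rfl⟩ := Quotient.exists_rep X
      obtain ⟨y, rfl⟩ := Quotient.exists_rep Y
      exact (hqe x y).2 ((hs x y).2 ⟨_, hN, hu, hX, hY⟩)

end PCA38
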