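import Pool.Agent.Work.MP_38bec5_lc.T.Inv4

set_option autoImplicit false

/-!
# Qu (size M): the quotient of a `Bis4` by an invariant congruence.

PROOF.  Write `EQ` for the relation on classes in the statement.
* `start`: with `f` from `start`; `f` need not map classes to classes, so use HALL as follows.
HALL LEMMA (private): let `f : V ≃ W` be such that for all `w`: `E w w w (f w) (f w) (f w)`.  Then there is
a bijection `g : Quotient s ≃ Quotient s'` such that for every class `U` there is `w` with `⟦w⟧ = U`,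
`⟦f w⟧ = g U`.
Proof: for `U` let `Γ(U)` be the finite set of classes `⟦f w⟧`, `⟦w⟧ = U`.  If `⟦w⟧ = U` then the class of
`w` and the class of `f w` have the same cardinality: `ext` for `E w w w (f w) (f w) (f w)` gives `h` with
`E w w t (f w) (f w) (h t)`, so `s.r w t ↔ s'.r (f w) (h t)`.  Hall's condition: for a finite set `𝒮` of
classes; let `𝒮_k` be those of cardinality `k`.  The `k |𝒮_k|` elements of the classes in `𝒮_k` are mapped
injectively by `f` into the union of the classes in `Γ(𝒮_k)`, all of cardinality `k`, so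
`|𝒮_k| ≤ |Γ(𝒮_k)|`; the sets `Γ(𝒮_k)` for different `k` are disjoint (different cardinalities), so
`|𝒮| ≤ |Γ(𝒮)|`.  (Shorter: put the weight `1/|class|` on every element of `V` and of `W`; `f` preserves
the weights; the total weight of a set of classes is their number; `f` maps the elements of `𝒮` into
those of `Γ(𝒮)`.)  `Finset.all_card_le_biUnion_card_iff_exists_injective` gives an injective `g`; the
same total weight shows that the numbers of classes agree, so `g` is bijective.
* `ext`: let `x, y, z, x', y', z'` be witnesses of `EQ X Y Z X' Y' Z'`, `f` from `ext` for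
`E x y z x' y' z'`; `E w w w (f w) (f w) (f w)` by `b4_xx` and `b4_perm`.  Take `g` from the HALL LEMMA: for `U`
choose `w` with `⟦w⟧ = U`, `⟦f w⟧ = g U`; then `EQ X Y U X' Y' (g U)` etc. by the three parts of `ext`.
* `eq`: if `EQ X Y Z X' Y' Z'` with witnesses, `X = Y ↔ s.r x y ↔ s'.r x' y' ↔ X' = Y'` by `hi`.
* `adj`: `(quo G s).Adj ⟦x⟧ ⟦y⟧ ↔ ¬ s.r x y ∧ G.Adj x y` (by `hG`), the same for `H`, and `hi`, `adj`.
* `swap`: from `swap`.
-/

namespace PCA38

variable {V W : Type} {G : SimpleGraph V} {H : SimpleGraph W}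
  {E : V → V → V → W → W → W → Prop}

theorem quo_adj {s : Setoid V} (hG : Cong G s) (x y : V) :
    (quo G s).Adj (Quotient.mk s x) (Quotient.mk s y) ↔ ¬ s.r x y ∧ G.Adj x y := by
  constructor
  · rintro ⟨hne, x₁, y₁, hx, hy, ha⟩
    have h1 : ¬ s.r x y := fun h => hne (Quotient.eq.mpr h)
    have hx1 : s.r x₁ x := Quotient.eq.mp hx
    have hy1 : s.r y₁ y := Quotient.eq.mp hy
    have h2 : ¬ s.r x₁ y₁ := fun h => h1 (s.trans' (s.symm' hx1) (s.trans' h hy1))
    exact ⟨h1, (hG x₁ y₁ x y hx1 hy1 h2).mp ha⟩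
  · rintro ⟨h1, ha⟩
    exact ⟨fun h => h1 (Quotient.eq.mp h), x, y, rfl, rfl, ha⟩

section hall

open scoped Classical in
private theorem wt_sum {U : Type} [Fintype U] (s : Setoid U) (T : Finset (Quotient s)) :
    ∑ w ∈ Finset.univ.filter (fun w => Quotient.mk s w ∈ T),
      (1 / (Nat.card {t // s.r w t} : ℚ)) = T.card := by
  rw [← Finset.sum_fiberwise_of_maps_to (t := T) (g := Quotient.mk s)
    (fun w hw => (Finset.mem_filter.mp hw).2)]
  have h1 : ∀ X ∈ T, ∑ w ∈ (Finset.univ.filter (fun w => Quotient.mk s w ∈ T)).filter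
      (fun w => Quotient.mk s w = X), (1 / (Nat.card {t // s.r w t} : ℚ)) = 1 := by
    intro X hX
    obtain ⟨x, rfl⟩ := Quotient.exists_rep X
    have h2 : ∀ w ∈ (Finset.univ.filter (fun w => Quotient.mk s w ∈ T)).filter
        (fun w => Quotient.mk s w = Quotient.mk s x),
        (1 / (Nat.card {t // s.r w t} : ℚ)) = 1 / (Nat.card {t // s.r x t} : ℚ) := by
      intro w hw
      have h3 : s.r w x := Quotient.eq.mp (Finset.mem_filter.mp hw).2
      have h4 : Nat.card {t // s.r w t} = Nat.card {t // s.r x t} :=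
        Nat.card_congr (Equiv.subtypeEquivRight fun t =>
          ⟨fun h => s.trans' (s.symm' h3) h, fun h => s.trans' h3 h⟩)
      rw [h4]
    rw [Finset.sum_congr rfl h2, Finset.sum_const]
    have h5 : ((Finset.univ.filter (fun w => Quotient.mk s w ∈ T)).filter
        (fun w => Quotient.mk s w = Quotient.mk s x)).card = Nat.card {t // s.r x t} := by
      rw [Nat.card_eq_fintype_card, Fintype.card_subtype]
      congr 1
      ext w
      simp only [Finset.mem_filter, Finset.mem_univ, true_and]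
      constructor
      · rintro ⟨-, h⟩
        exact s.symm' (Quotient.eq.mp h)
      · intro h
        have h6 : Quotient.mk s w = Quotient.mk s x := Quotient.eq.mpr (s.symm' h)
        rw [h6]
        exact ⟨hX, rfl⟩
    rw [h5, nsmul_eq_mul]
    have h7 : (Nat.card {t // s.r x t} : ℚ) ≠ 0 := by
      have : 0 < Nat.card {t // s.r x t} := by
        have hne : Nonempty {t // s.r x t} := ⟨⟨x, s.refl' x⟩⟩
        exact Nat.card_pos
      exact_mod_cast this.ne'
    exact mul_one_div_cancel h7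
  rw [Finset.sum_congr rfl h1, Finset.sum_const, nsmul_eq_mul, mul_one]

private theorem cnt_eq (hE : Bis4 G H E) {s : Setoid V} {s' : Setoid W} (hi : Inv2 E s.r s'.r)
    {w : V} {w' : W} (h : E w w w w' w' w') :
    Nat.card {t // s.r w t} = Nat.card {t // s'.r w' t} := by
  obtain ⟨k, hk⟩ := hE.ext _ _ _ _ _ _ h
  exact Nat.card_congr (k.subtypeEquiv fun t => (b4_inv hE hi (hk t).1).2.2.1)

open scoped Classical in
private theorem hall_lemma [Finite V] [Finite W] (hE : Bis4 G H E) {s : Setoid V} {s' : Setoid W}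
    (hi : Inv2 E s.r s'.r) (f : V ≃ W) (hf : ∀ w, E w w w (f w) (f w) (f w)) :
    ∃ g : Quotient s ≃ Quotient s', ∀ X, ∃ w, Quotient.mk s w = X ∧ Quotient.mk s' (f w) = g X := by
  have : Fintype V := Fintype.ofFinite V
  have : Fintype W := Fintype.ofFinite W
  have : Fintype (Quotient s) := Fintype.ofFinite _
  have : Fintype (Quotient s') := Fintype.ofFinite _
  have hw : ∀ w, (1 / (Nat.card {t // s.r w t} : ℚ)) = 1 / (Nat.card {t // s'.r (f w) t} : ℚ) :=
    fun w => by rw [cnt_eq hE hi (hf w)]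
  obtain ⟨Γ, hΓ⟩ : ∃ Γ : Quotient s → Finset (Quotient s'), ∀ X Y, Y ∈ Γ X ↔
      ∃ w, Quotient.mk s w = X ∧ Quotient.mk s' (f w) = Y :=
    ⟨fun X => Finset.univ.filter fun Y => ∃ w, Quotient.mk s w = X ∧ Quotient.mk s' (f w) = Y,
      fun X Y => by simp⟩
  have hall : ∀ T : Finset (Quotient s), T.card ≤ (T.biUnion Γ).card := by
    intro T
    have h1 := wt_sum s T
    have h2 := wt_sum s' (T.biUnion Γ)
    have h3 : ∑ w ∈ Finset.univ.filter (fun w => Quotient.mk s w ∈ T),
        (1 / (Nat.card {t // s.r w t} : ℚ)) ≤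
        ∑ w ∈ Finset.univ.filter (fun w => Quotient.mk s' w ∈ T.biUnion Γ),
        (1 / (Nat.card {t // s'.r w t} : ℚ)) := by
      have h4 : ∑ w ∈ Finset.univ.filter (fun w => Quotient.mk s w ∈ T),
          (1 / (Nat.card {t // s.r w t} : ℚ)) =
          ∑ w ∈ (Finset.univ.filter (fun w => Quotient.mk s w ∈ T)).map f.toEmbedding,
          (1 / (Nat.card {t // s'.r w t} : ℚ)) := by
        rw [Finset.sum_map]
        exact Finset.sum_congr rfl fun w _ => hw w
      rw [h4]
      apply Finset.sum_le_sum_of_subset_of_nonneg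
      · intro w' hw'
        rw [Finset.mem_map] at hw'
        obtain ⟨w, hw1, rfl⟩ := hw'
        rw [Finset.mem_filter] at hw1
        rw [Finset.mem_filter, Finset.mem_biUnion]
        exact ⟨Finset.mem_univ _, Quotient.mk s w, hw1.2, (hΓ _ _).mpr ⟨w, rfl, rfl⟩⟩
      · intro i _ _
        positivity
    rw [h1, h2] at h3
    exact_mod_cast h3
  obtain ⟨g, hgi, hg⟩ := (Finset.all_card_le_biUnion_card_iff_exists_injective Γ).mp hall
  have hcard : Fintype.card (Quotient s) = Fintype.card (Quotient s') := by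
    have h1 := wt_sum s Finset.univ
    have h2 := wt_sum s' Finset.univ
    have h3 : Finset.univ.filter (fun w => Quotient.mk s w ∈ (Finset.univ : Finset (Quotient s))) =
        (Finset.univ : Finset V) := by simp
    have h4 : Finset.univ.filter (fun w => Quotient.mk s' w ∈ (Finset.univ : Finset (Quotient s'))) =
        (Finset.univ : Finset W) := by simp
    rw [h3] at h1
    rw [h4] at h2
    have h5 : ∑ w, (1 / (Nat.card {t // s.r w t} : ℚ)) =
        ∑ w, (1 / (Nat.card {t // s'.r w t} : ℚ)) := by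
      rw [← Equiv.sum_comp f]
      exact Finset.sum_congr rfl fun w _ => hw w
    rw [h1, h2] at h5
    have h6 : (Finset.univ : Finset (Quotient s)).card = (Finset.univ : Finset (Quotient s')).card := by
      exact_mod_cast h5
    exact h6
  have hbij : Function.Bijective g :=
    (Fintype.bijective_iff_injective_and_card g).mpr ⟨hgi, hcard⟩
  refine ⟨Equiv.ofBijective g hbij, fun X => ?_⟩
  exact (hΓ X (g X)).mp (hg X)

end hall

theorem bis4_quo [Finite V] [Finite W] (hE : Bis4 G H E) (s : Setoid V) (s' : Setoid W)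
    (hi : Inv2 E s.r s'.r) (hG : Cong G s) (hH : Cong H s') :
    Bis4 (quo G s) (quo H s') (fun X Y Z X' Y' Z' => ∃ x y z x' y' z',
      Quotient.mk s x = X ∧ Quotient.mk s y = Y ∧ Quotient.mk s z = Z ∧
      Quotient.mk s' x' = X' ∧ Quotient.mk s' y' = Y' ∧ Quotient.mk s' z' = Z' ∧
      E x y z x' y' z') where
  start := by
    obtain ⟨f, hf⟩ := hE.start
    obtain ⟨g, hg⟩ := hall_lemma hE hi f hf
    refine ⟨g, fun Z => ?_⟩
    obtain ⟨w, h1, h2⟩ := hg Z
    exact ⟨w, w, w, f w, f w, f w, h1, h1, h1, h2, h2, h2, hf w⟩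
  eq := by
    rintro X Y Z X' Y' Z' ⟨x, y, z, x', y', z', rfl, rfl, rfl, rfl, rfl, rfl, h⟩
    rw [Quotient.eq, Quotient.eq]
    exact (b4_inv hE hi h).1
  adj := by
    rintro X Y Z X' Y' Z' ⟨x, y, z, x', y', z', rfl, rfl, rfl, rfl, rfl, rfl, h⟩
    rw [quo_adj hG, quo_adj hH]
    exact and_congr (not_congr (b4_inv hE hi h).1) (hE.adj _ _ _ _ _ _ h)
  swap := by
    rintro X Y Z X' Y' Z' ⟨x, y, z, x', y', z', h1, h2, h3, h4, h5, h6, h⟩
    obtain ⟨k1, k2⟩ := hE.swap _ _ _ _ _ _ h
    exact ⟨⟨y, x, z, y', x', z', h2, h1, h3, h5, h4, h6, k1⟩,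
      ⟨x, z, y, x', z', y', h1, h3, h2, h4, h6, h5, k2⟩⟩
  ext := by
    rintro X Y Z X' Y' Z' ⟨x, y, z, x', y', z', h1, h2, h3, h4, h5, h6, h⟩
    obtain ⟨f, hf⟩ := hE.ext _ _ _ _ _ _ h
    obtain ⟨g, hg⟩ := hall_lemma hE hi f fun w => b4_xx hE (hf w).2.2
    refine ⟨g, fun T => ?_⟩
    obtain ⟨w, g1, g2⟩ := hg T
    obtain ⟨k1, k2, k3⟩ := hf w
    exact ⟨⟨x, y, w, x', y', f w, h1, h2, g1, h4, h5, g2, k1⟩,
      ⟨x, w, z, x', f w, z', h1, g1, h3, h4, g2, h6, k2⟩,
      ⟨w, y, z, f w, y', z', g1, h2, h3, g2, h5, h6, k3⟩⟩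

end PCA38
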