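import Pool.Agent.Work.MP_38bec5_lc.T.Defs

set_option autoImplicit false

/-!
# Rec (size M): disjointness and inclusion of the intervals `I x = [P x, Q x)` are recognized by the graph.

Positions: `p x = 2 P x`, `q x = 2 Q x - 1`.  `Dis x y ↔ Q x ≤ P y ∨ Q y ≤ P x` (the `I`s are disjoint),
`Sb x y ↔ P y ≤ P x ∧ Q x ≤ Q y` (`I x ⊆ I y`), `Eq2 x y ↔ I x = I y` (omega).  Let `L : Lin G m P Q c`.

`lin_nb`: (used everywhere) if `¬ c x`, `c y` and `I x`, `I y` are disjoint, then `nb x ⊆ nb y`.  Proof: let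
`z ∈ nb x`.  `z = x`: `G.Adj x y` by `adj_ft` (`I x ⊆ I y` is impossible, `P x < Q x`).  `G.Adj x z`, `¬ c z`:
`I x` and `I z` meet (`adj_ff`), so `I z ⊆ I y` is impossible, `G.Adj z y` by `adj_ft`.  `c z`: `z = y` or
`adj_tt`.

`cover`: under `NoDE G`, if `G.Adj x y`, then it is impossible that every vertex `z` is in
`nb x ∪ nb y`.  (This is just the definition.)

`dis_iff` (for `x ≠ y`):
 - `¬ c x, ¬ c y`: `adj_ff`.
 - `¬ c x, c y`: `→` is `lin_nb`, `←` is `n_ft`; for `c x, ¬ c y` exchange `x, y`.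
 - `c x, c y`: the right side is false.  Left side: if all flags are false this case does not occur.
   Under `NoDE`: `x, y` are adjacent (`adj_tt`); if `I x, I y` were disjoint then every `z` would be in
   `nb x ∪ nb y`: if `c z` clear; if `¬ c z` and `z` is adjacent to neither then `I z ⊆ I x` and `I z ⊆ I y`
   (`adj_ft`), impossible as `I z` is nonempty.  Contradiction.
`sb_iff` (for `¬ Eq2 x y`):
 - `¬ c x, ¬ c y`: `←` is `n_ff`; `→`: if `I x ⊆ I y` and `z ∈ nb x` then `z ∈ nb y` (`z = x`: `adj_ff`, the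
   intervals meet, or `x = y`; `¬ c z`: `adj_ff`; `c z`: `I y ⊆ I z` would give `I x ⊆ I z`).
 - `c x, c y`: `I x ⊆ I y ↔ nb y ⊆ nb x`: `←` is `n_tt`; `→`: `z ∈ nb y`: `c z` clear, `¬ c z`: `I z ⊆ I x` would give
   `I z ⊆ I y`.
 - `¬ c x, c y`: `adj_ft`.
 - `c x, ¬ c y`: the right side is false; left side: only under `NoDE`.  If `I x ⊆ I y` and not equal, then
   `¬ (I y ⊆ I x)`, so `G.Adj y x` (`adj_ft`), and every `z` is in `nb x ∪ nb y`: `c z`: in `nb x`.  `¬ c z`, not
   adjacent to `x`: `I z ⊆ I x ⊆ I y`, so `I z` meets `I y`, `z ∈ nb y`.  Contradiction to `NoDE`.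
-/

namespace PCA38

variable {V : Type} {G : SimpleGraph V} {m : ℤ} {P Q : V → ℤ} {c : V → Prop}

theorem lin_nb (L : Lin G m P Q c) {x y : V} (hx : ¬ c x) (hy : c y)
    (h : Q x ≤ P y ∨ Q y ≤ P x) : nb G x ⊆ nb G y := by
  intro z hz
  have hz' : z = x ∨ G.Adj x z := hz
  show z = y ∨ G.Adj y z
  have lx := L.lt x
  have ly := L.lt y
  have lz := L.lt z
  rcases hz' with rfl | hz'
  · right
    exact ((L.adj_ft z y hx hy).2 (by omega)).symm
  by_cases hzy : z = y
  · exact Or.inl hzy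
  right
  by_cases hcz : c z
  · exact L.adj_tt y z (Ne.symm hzy) hy hcz
  · have h1 := (L.adj_ff x z hz'.ne hx hcz).1 hz'
    exact ((L.adj_ft z y hcz hy).2 (by omega)).symm

/-- Two flagged vertices: some unflagged interval lies in both. -/
private theorem two_flags (L : Lin G m P Q c) (hN : NoDE G) {x y : V} (hne : x ≠ y)
    (hx : c x) (hy : c y) :
    ∃ z, ¬ c z ∧ (P x ≤ P z ∧ Q z ≤ Q x) ∧ (P y ≤ P z ∧ Q z ≤ Q y) := by
  obtain ⟨z, hz1, hz2⟩ := hN x y (L.adj_tt x y hne hx hy)
  have hz3 : ¬ (z = x ∨ G.Adj x z) := hz1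
  have hz4 : ¬ (z = y ∨ G.Adj y z) := hz2
  push Not at hz3 hz4
  have hcz : ¬ c z := fun hcz => hz3.2 (L.adj_tt x z (Ne.symm hz3.1) hx hcz)
  refine ⟨z, hcz, ?_, ?_⟩
  · by_contra h
    exact hz3.2 ((L.adj_ft z x hcz hx).2 h).symm
  · by_contra h
    exact hz4.2 ((L.adj_ft z y hcz hy).2 h).symm

theorem dis_iff (L : Lin G m P Q c) (hN : NoDE G ∨ ∀ x, ¬ c x) {x y : V} (hne : x ≠ y) :
    Dis (fun x => 2 * P x) (fun x => 2 * Q x - 1) x y ↔
      ((¬ c x ∧ ¬ c y ∧ ¬ G.Adj x y) ∨ (¬ c x ∧ c y ∧ nb G x ⊆ nb G y) ∨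
        (c x ∧ ¬ c y ∧ nb G y ⊆ nb G x)) := by
  have hD : Dis (fun x => 2 * P x) (fun x => 2 * Q x - 1) x y ↔ (Q x ≤ P y ∨ Q y ≤ P x) := by
    unfold Dis
    dsimp only
    omega
  rw [hD]
  by_cases hx : c x
  · by_cases hy : c y
    · have hN' : NoDE G := hN.resolve_right (fun h => h x hx)
      obtain ⟨z, hcz, h1, h2⟩ := two_flags L hN' hne hx hy
      have lz := L.lt z
      constructor
      · intro h
        exfalso
        omega
      · rintro (⟨h, -⟩ | ⟨h, -⟩ | ⟨-, h, -⟩)
        · exact absurd hx h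
        · exact absurd hx h
        · exact absurd hy h
    · constructor
      · intro h
        exact Or.inr (Or.inr ⟨hx, hy, lin_nb L hy hx h.symm⟩)
      · rintro (⟨h, -⟩ | ⟨h, -⟩ | ⟨-, -, h⟩)
        · exact absurd hx h
        · exact absurd hx h
        · exact (L.n_ft y x hy hx h).symm
  · by_cases hy : c y
    · constructor
      · intro h
        exact Or.inr (Or.inl ⟨hx, hy, lin_nb L hx hy h⟩)
      · rintro (⟨-, h, -⟩ | ⟨-, -, h⟩ | ⟨h, -⟩)
        · exact absurd hy h
        · exact L.n_ft x y hx hy h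
        · exact absurd h hx
    · have h1 := L.adj_ff x y hne hx hy
      constructor
      · intro h
        refine Or.inl ⟨hx, hy, fun h2 => ?_⟩
        have := h1.1 h2
        omega
      · rintro (⟨-, -, h⟩ | ⟨-, h, -⟩ | ⟨h, -⟩)
        · by_contra h2
          exact h (h1.2 (by omega))
        · exact absurd h hy
        · exact absurd h hx

theorem sb_iff (L : Lin G m P Q c) (hN : NoDE G ∨ ∀ x, ¬ c x) {x y : V}
    (hne : ¬ Eq2 (fun x => 2 * P x) (fun x => 2 * Q x - 1) x y) :
    Sb (fun x => 2 * P x) (fun x => 2 * Q x - 1) x y ↔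
      ((¬ c x ∧ ¬ c y ∧ nb G x ⊆ nb G y) ∨ (c x ∧ c y ∧ nb G y ⊆ nb G x) ∨
        (¬ c x ∧ c y ∧ ¬ G.Adj x y)) := by
  have hS : Sb (fun x => 2 * P x) (fun x => 2 * Q x - 1) x y ↔ (P y ≤ P x ∧ Q x ≤ Q y) := by
    unfold Sb
    dsimp only
    omega
  have hE : ¬ (P x = P y ∧ Q x = Q y) := by
    unfold Eq2 at hne
    dsimp only at hne
    omega
  rw [hS]
  have lx := L.lt x
  have ly := L.lt y
  by_cases hx : c x
  · by_cases hy : c y
    · constructor
      · rintro ⟨h1, h2⟩
        refine Or.inr (Or.inl ⟨hx, hy, ?_⟩)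
        intro z hz
        have hz' : z = y ∨ G.Adj y z := hz
        show z = x ∨ G.Adj x z
        by_cases hzx : z = x
        · exact Or.inl hzx
        right
        by_cases hcz : c z
        · exact L.adj_tt x z (Ne.symm hzx) hx hcz
        · rcases hz' with rfl | hz'
          · exact absurd hy hcz
          · have h3 := (L.adj_ft z y hcz hy).1 hz'.symm
            exact ((L.adj_ft z x hcz hx).2 (by omega)).symm
      · rintro (⟨h, -⟩ | ⟨-, -, h⟩ | ⟨h, -⟩)
        · exact absurd hx h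
        · have := L.n_tt y x hy hx h
          exact ⟨this.1, this.2⟩
        · exact absurd hx h
    · constructor
      · intro h
        exfalso
        have hN' : NoDE G := hN.resolve_right (fun h => h x hx)
        have hadj : G.Adj y x := (L.adj_ft y x hy hx).2 (by omega)
        obtain ⟨z, hz1, hz2⟩ := hN' y x hadj
        have hz3 : ¬ (z = y ∨ G.Adj y z) := hz1
        have hz4 : ¬ (z = x ∨ G.Adj x z) := hz2
        push Not at hz3 hz4
        have hcz : ¬ c z := fun hcz => hz4.2 (L.adj_tt x z (Ne.symm hz4.1) hx hcz)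
        have h5 : P x ≤ P z ∧ Q z ≤ Q x := by
          by_contra h6
          exact hz4.2 ((L.adj_ft z x hcz hx).2 h6).symm
        have lz := L.lt z
        exact hz3.2 ((L.adj_ff y z (Ne.symm hz3.1) hy hcz).2 (by omega))
      · rintro (⟨h, -⟩ | ⟨-, h, -⟩ | ⟨h, -⟩)
        · exact absurd hx h
        · exact absurd h hy
        · exact absurd hx h
  · by_cases hy : c y
    · have h1 := L.adj_ft x y hx hy
      constructor
      · intro h
        refine Or.inr (Or.inr ⟨hx, hy, fun h2 => ?_⟩)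
        exact (h1.1 h2) h
      · rintro (⟨-, h, -⟩ | ⟨h, -⟩ | ⟨-, -, h⟩)
        · exact absurd hy h
        · exact absurd h hx
        · by_contra h2
          exact h (h1.2 h2)
    · constructor
      · rintro ⟨h1, h2⟩
        refine Or.inl ⟨hx, hy, ?_⟩
        intro z hz
        have hz' : z = x ∨ G.Adj x z := hz
        show z = y ∨ G.Adj y z
        by_cases hzy : z = y
        · exact Or.inl hzy
        right
        by_cases hcz : c z
        · rcases hz' with rfl | hz'
          · exact absurd hcz hx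
          · have h3 := (L.adj_ft x z hx hcz).1 hz'
            exact (L.adj_ft y z hy hcz).2 (by omega)
        · rcases hz' with rfl | hz'
          · exact (L.adj_ff y z (Ne.symm hzy) hy hcz).2 (by omega)
          · have h3 := (L.adj_ff x z hz'.ne hx hcz).1 hz'
            exact (L.adj_ff y z (Ne.symm hzy) hy hcz).2 (by omega)
      · rintro (⟨-, -, h⟩ | ⟨h, -⟩ | ⟨-, h, -⟩)
        · have := L.n_ff x y hx hy h
          exact ⟨this.1, this.2⟩
        · exact absurd h hx
        · exact absurd h hy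

end PCA38
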