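import Pool.Agent.Work.MP_38bec5_lc.T.Cls
import Pool.Agent.Work.MP_38bec5_lc.P.UniB

set_option autoImplicit false

/-!
# Uni4 (size M): components and complements for the 4-pebble game.

* `reach4_inv`: by `b4_symm` it is enough to show `G.Reachable x y → H.Reachable x' y'`; induction on a
  walk from `x` to `y` (generalize `x, z, x', z'`): nil: `b4_eq`.  cons `G.Adj x u`, walk from `u` to `y`:
  `ext` gives `E x u z x' (f u) z'` (so `H.Adj x' (f u)`) and `E u y z (f u) y' z'` (induction).
* `bis4_compl`: adjacency in the complement is `x ≠ y ∧ ¬ Adj x y`.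
* `conn_transfer`: for `a', b'` in `W` choose `a, b, c` with `E a b c a' b' b'` (`b4_surj`), use `reach4_inv`.
* `idf4_of_components`: with `f` from `start`, `E x x x (f x) (f x) (f x)`, so `bis4_class` for the setoids
  `Reachable` (classes = supports of components; rewrite `{y | G.Reachable x y}` as
  `(G.connectedComponentMk x).supp`) and the hypothesis give isomorphic components;
  `iso_of_components`.
* `idf4_compl`, `idf4_subsingleton`: as in `P/Uni.lean`.
-/

namespace PCA38

variable {V W : Type} {G : SimpleGraph V} {H : SimpleGraph W}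
  {E : V → V → V → W → W → W → Prop}

private theorem walk4 {V W : Type} {G : SimpleGraph V} {H : SimpleGraph W}
    {E : V → V → V → W → W → W → Prop} (hE : Bis4 G H E) {x y : V} (p : G.Walk x y) :
    ∀ {z : V} {x' y' z' : W}, E x y z x' y' z' → H.Reachable x' y' := by
  induction p with
  | nil =>
    intro z x' y' z' h
    rw [(hE.eq _ _ _ _ _ _ h).1 rfl]
  | cons hadj p ih =>
    intro z x' y' z' h
    obtain ⟨f, hf⟩ := hE.ext _ _ _ _ _ _ h
    have h1 := (hE.adj _ _ _ _ _ _ (hE.swap _ _ _ _ _ _ (hf _).1).2).1 hadj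
    exact h1.reachable.trans (ih (hf _).2.2)

theorem reach4_inv (hE : Bis4 G H E) : Inv2 E G.Reachable H.Reachable := by
  intro x y z x' y' z' h
  constructor
  · rintro ⟨p⟩
    exact walk4 hE p h
  · rintro ⟨p⟩
    exact walk4 (b4_symm hE) p h

theorem bis4_compl (hE : Bis4 G H E) : Bis4 Gᶜ Hᶜ E where
  start := hE.start
  eq := hE.eq
  adj := by
    intro x y z x' y' z' h
    rw [SimpleGraph.compl_adj, SimpleGraph.compl_adj, hE.adj _ _ _ _ _ _ h]
    have h2 := hE.eq _ _ _ _ _ _ h
    rw [Ne, Ne, h2]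
  swap := hE.swap
  ext := hE.ext

theorem conn_transfer (hE : Bis4 G H E) (hc : G.Connected) : H.Connected := by
  have : Nonempty V := hc.nonempty
  obtain ⟨f, hf⟩ := hE.start
  have hW : Nonempty W := ⟨f (Classical.arbitrary V)⟩
  refine { preconnected := fun a b => ?_, nonempty := hW }
  obtain ⟨x, y, z, h⟩ := b4_surj hE a b b
  exact (reach4_inv hE _ _ _ _ _ _ h).1 (hc.preconnected x y)

private theorem supp_eq {V : Type} (G : SimpleGraph V) (x : V) :
    (G.connectedComponentMk x).supp = {y | G.Reachable x y} := by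
  ext y
  rw [SimpleGraph.ConnectedComponent.mem_supp_iff, SimpleGraph.ConnectedComponent.eq]
  exact ⟨fun h => h.symm, fun h => h.symm⟩

theorem idf4_of_components [Finite V] (h : ∀ c : G.ConnectedComponent, Idf4 (G.induce c.supp)) :
    Idf4 G := by
  intro W _ H E hE
  obtain ⟨f, hf⟩ := hE.start
  refine iso_of_components G H f fun x => ?_
  obtain ⟨E', hE'⟩ := bis4_class hE G.reachableSetoid H.reachableSetoid (reach4_inv hE) (hf x)
  have h1 := h (G.connectedComponentMk x)
  rw [supp_eq] at h1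
  rw [supp_eq, supp_eq]
  exact h1 _ _ E' hE'

theorem idf4_compl (h : Idf4 Gᶜ) : Idf4 G := by
  intro W _ H E hE
  obtain ⟨φ⟩ := h W Hᶜ E (bis4_compl hE)
  refine ⟨⟨φ.toEquiv, fun {a b} => ?_⟩⟩
  have h3 : Hᶜ.Adj (φ a) (φ b) ↔ Gᶜ.Adj a b := φ.map_rel_iff
  rw [SimpleGraph.compl_adj, SimpleGraph.compl_adj] at h3
  show H.Adj (φ a) (φ b) ↔ G.Adj a b
  by_cases hab : a = b
  · rw [hab]
    exact ⟨fun h4 => (H.irrefl h4).elim, fun h4 => (G.irrefl h4).elim⟩
  · have hab' : φ a ≠ φ b := fun h4 => hab (φ.injective h4)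
    constructor
    · intro h4
      by_contra h5
      exact (h3.2 ⟨hab, h5⟩).2 h4
    · intro h4
      by_contra h5
      exact (h3.1 ⟨hab', h5⟩).2 h4

theorem idf4_subsingleton [Subsingleton V] : Idf4 G := by
  intro W _ H E hE
  obtain ⟨f, hf⟩ := hE.start
  refine ⟨⟨f, fun {a b} => ?_⟩⟩
  rw [Subsingleton.elim a b]
  exact ⟨fun h4 => (H.irrefl h4).elim, fun h4 => (G.irrefl h4).elim⟩

end PCA38
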