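import Pool.Agent.Work.MP_38bec5_lc.T.Core
import Pool.Agent.Work.MP_38bec5_lc.T.Md
import Pool.Agent.Work.MP_38bec5_lc.T.Cl
import Pool.Agent.Work.MP_38bec5_lc.T.Qu
import Pool.Agent.Work.MP_38bec5_lc.T.As
import Pool.Agent.Work.MP_38bec5_lc.T.Her
import Pool.Agent.Work.MP_38bec5_lc.T.Uni4

set_option autoImplicit false

/-!
# Step (size M): connected and co-connected graphs.

PROOF.  Let `Bis4 G H E`.  `H` is connected (`conn_transfer`) and co-connected (`bis4_compl`), and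
nontrivial (`f : V ≃ W`).  Let `s`, `s'` be the setoids `⟨SM G, sm_equiv⟩`, `⟨SM H, sm_equiv⟩`;
`sm_inv` gives `Inv2 E s.r s'.r`; `cong_of_sm` for both.  `bis4_quo` gives a `Bis4` between the quotients; call
its relation `EQ`.  `quo_prm` gives `Prm (quo G s)`; `quo_iv` resp. `quo_ca`, `quo_node` give the hypothesis of
`rows_discrete` for `quo G s`.  `rows_iso` gives `φ : quo G s ≃g quo H s'` with `EQ Z Z Z (φ Z) (φ Z) (φ Z)` for all
`Z`.
For `iso_of_quo`: let `⟦x'⟧ = φ ⟦x⟧`.  `EQ ⟦x⟧ ⟦x⟧ ⟦x⟧ ⟦x'⟧ ⟦x'⟧ ⟦x'⟧` gives `x₁` with `⟦x₁⟧ = ⟦x⟧` and `x₁'` with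
`⟦x₁'⟧ = ⟦x'⟧`, and `E x₁ _ _ x₁' _ _`; by `b4_xx` `E x₁ x₁ x₁ x₁' x₁' x₁'`.  `bis4_class` gives a `Bis4` between
`G.induce {y | s.r x₁ y}` and `H.induce {y | s'.r x₁' y}`; `{y | s.r x₁ y} = {y | s.r x y}` is a module `≠ univ` by
`sm_class`, so `IH` gives an isomorphism (rewrite the sets, `W` side: `{y | s'.r x₁' y} = {y | s'.r x' y}`).
-/

namespace PCA38

theorem idf4_step {V : Type} [Finite V] [Nontrivial V] {G : SimpleGraph V} (hc : G.Connected)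
    (hcc : Gᶜ.Connected) (h : IsIv G ∨ (IsCA G ∧ NoDE G))
    (IH : ∀ M : Set V, IsMod G M → M ≠ Set.univ → Idf4 (G.induce M)) : Idf4 G := by
  intro W hW H E hE
  have : Nontrivial W := by
    obtain ⟨f, -⟩ := hE.start
    exact f.symm.nontrivial
  have hc' : H.Connected := conn_transfer hE hc
  have hcc' : Hᶜ.Connected := conn_transfer (bis4_compl hE) hcc
  let s : Setoid V := ⟨SM G, sm_equiv hc hcc⟩
  let s' : Setoid W := ⟨SM H, sm_equiv hc' hcc'⟩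
  have hi : Inv2 E s.r s'.r := sm_inv hE
  have hG : Cong G s := cong_of_sm hc hcc s (fun _ _ => Iff.rfl)
  have hH : Cong H s' := cong_of_sm hc' hcc' s' (fun _ _ => Iff.rfl)
  have hQ := bis4_quo hE s s' hi hG hH
  have hp : Prm (quo G s) := quo_prm hc hcc s (fun _ _ => Iff.rfl)
  have hq : IsIv (quo G s) ∨ (IsCA (quo G s) ∧ NoDE (quo G s)) := by
    rcases h with h | ⟨h, h'⟩
    · exact Or.inl (quo_iv h s hG)
    · exact Or.inr ⟨quo_ca h s hG, quo_node h' s hG⟩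
  obtain ⟨a, b, hab⟩ := rows_discrete hp hq
  obtain ⟨φ, hφ⟩ := rows_iso a b hab hQ
  refine iso_of_quo s s' hG hH φ ?_
  intro x x' hx
  obtain ⟨x₁, y₁, z₁, x₁', y₁', z₁', e1, -, -, e4, -, -, hE1⟩ := hφ (Quotient.mk s x)
  have h2 := b4_xx hE hE1
  obtain ⟨E', hE'⟩ := bis4_class hE s s' hi h2
  have r1 : s.r x₁ x := Quotient.exact e1
  have r2 : s'.r x₁' x' := Quotient.exact (e4.trans hx.symm)
  have hset : {y | s.r x₁ y} = {y | s.r x y} := by
    ext y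
    exact ⟨fun hy => s.iseqv.trans (s.iseqv.symm r1) hy, fun hy => s.iseqv.trans r1 hy⟩
  have hset' : {y | s'.r x₁' y} = {y | s'.r x' y} := by
    ext y
    exact ⟨fun hy => s'.iseqv.trans (s'.iseqv.symm r2) hy, fun hy => s'.iseqv.trans r2 hy⟩
  have hm := sm_class hc hcc x₁
  have hI : Idf4 (G.induce {y | s.r x₁ y}) := IH _ hm.1 hm.2
  have hiso := hI _ _ E' hE'
  rw [← hset, ← hset']
  exact hiso

end PCA38
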