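import Pool.Agent.Work.MP_38bec5_lc.T.MA
import Pool.Agent.Work.MP_38bec5_lc.T.MB
import Pool.Agent.Work.MP_38bec5_lc.T.Inv4

set_option autoImplicit false

/-!
# TL (size M): a linear model together with a self-`Bis4` and two anchors is a cell system.

PROOF.  `even`, `odd`, `lt` (`2 P x < 2 Q x - 1` as `P x < Q x`), `lo`, `hi` are immediate (omega).  `m1`:
`lin_m1`; `m2`, `m2'`: `lin_m2`, `lin_m2'` (with `NoDE` from `Circ`).
`tl`: let `E a b z₁ a b z₂`; `ext` gives `f` with `E a b w a b (f w)` and `E w b z₁ (f w) b z₂` for all `w` (third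
component of `ext`).  So `r w (f w)`, hence (`hfl`) `c w ↔ c (f w)`, and `c z₁ ↔ c z₂`.  By `b4_inv` with `b4_eq`,
`b4_adj`, `b4_sub` (pair of the first and third coordinates, in both orders): `w = z₁ ↔ f w = z₂`,
`G.Adj w z₁ ↔ G.Adj (f w) z₂`, `nb w ⊆ nb z₁ ↔ nb (f w) ⊆ nb z₂`, `nb z₁ ⊆ nb w ↔ nb z₂ ⊆ nb (f w)`.  Now `dis_iff`
(for `w ≠ z₁`, `f w ≠ z₂`) and `sb_iff` (for `(w, z₁)`, `(f w, z₂)` and for `(z₁, w)`, `(z₂, f w)`; `Eq2` is
symmetric) express `Dis` and `Sb` through these data.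
-/

namespace PCA38

variable {V : Type} {G : SimpleGraph V} {m : ℤ} {P Q : V → ℤ} {c : V → Prop}

theorem sys_of_lin (L : Lin G m P Q c) (hp : Prm G) (hC : Circ G m P Q c ∨ ∀ x, ¬ c x)
    {E : V → V → V → V → V → V → Prop} (hE : Bis4 G G E) (a b : V)
    (hfl : Df (fun z₁ z₂ => E a b z₁ a b z₂) {x | c x}) :
    Sys m (fun x => 2 * P x) (fun x => 2 * Q x - 1) (fun z₁ z₂ => E a b z₁ a b z₂) := by
  have hN : NoDE G ∨ ∀ x, ¬ c x := hC.imp (fun h => h.1) id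
  constructor
  · intro x
    exact ⟨P x, by omega⟩
  · intro x
    exact ⟨Q x - 1, by omega⟩
  · intro x
    have := L.lt x
    omega
  · intro x
    have := L.one_le x
    omega
  · intro x
    have := L.le x
    omega
  · intro z₁ z₂ h
    obtain ⟨f, hf⟩ := hE.ext _ _ _ _ _ _ h
    refine ⟨f, fun w => ?_⟩
    obtain ⟨k1, -, k3⟩ := hf w
    have hc1 : c w ↔ c (f w) := hfl w (f w) k1
    have hc2 : c z₁ ↔ c z₂ := hfl z₁ z₂ h
    have e1 : w = z₁ ↔ f w = z₂ := (b4_inv hE (b4_eq hE) k3).2.2.1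
    have e2 : G.Adj w z₁ ↔ G.Adj (f w) z₂ := (b4_inv hE (b4_adj hE) k3).2.2.1
    have e2' : G.Adj z₁ w ↔ G.Adj z₂ (f w) := (b4_inv hE (b4_adj hE) k3).2.2.2.1
    have e3 : nb G w ⊆ nb G z₁ ↔ nb G (f w) ⊆ nb G z₂ := (b4_inv hE (b4_sub hE) k3).2.2.1
    have e4 : nb G z₁ ⊆ nb G w ↔ nb G z₂ ⊆ nb G (f w) := (b4_inv hE (b4_sub hE) k3).2.2.2.1
    refine ⟨k1, e1, ?_, ?_⟩
    · intro hne
      have hne' : f w ≠ z₂ := fun h => hne (e1.2 h)
      rw [dis_iff L hN hne, dis_iff L hN hne', hc1, hc2, e2, e3, e4]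
    · intro hne hne'
      have hs : ¬ Eq2 (fun x => 2 * P x) (fun x => 2 * Q x - 1) z₁ w :=
        fun h => hne ⟨h.1.symm, h.2.symm⟩
      have hs' : ¬ Eq2 (fun x => 2 * P x) (fun x => 2 * Q x - 1) z₂ (f w) :=
        fun h => hne' ⟨h.1.symm, h.2.symm⟩
      constructor
      · rw [sb_iff L hN hne, sb_iff L hN hne', hc1, hc2, e2, e3, e4]
      · rw [sb_iff L hN hs, sb_iff L hN hs', hc1, hc2, e2', e3, e4]
  · intro s t hst hw
    exact lin_m1 L hp hC s t hst hw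
  · intro a b ha hab hb h1 h2
    exact lin_m2 L hN a b ha hab hb h1 h2
  · intro a b ha hab hb h1 h2
    exact lin_m2' L hN a b ha hab hb h1 h2

end PCA38
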